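import Pool.Agent.Y121.AH.Defs
import Pool.Agent.Y133.Half.PredSys

/-!
# The system of the absolutely Hodge classes
-/

open CategoryTheory AlgebraicGeometry TensorProduct

universe u

namespace Pool.Agent.Y121.AH

open Module
open Pool.Agent.H914 Pool.Agent.H914.VarClass Pool.Agent.H914.VarClass.Obj
  Pool.Agent.H914.WeilCohomology
open Pool.Agent.Y133.Half

variable {k : Type u} [Field k] {𝒱 : VarClass k} {ops : CycleOps 𝒱}

section Em

variable {W : WeilCohomology.{u, 0} ops} {L : Type} [Field L] [Algebra W.K L] {X Y : 𝒱.Obj}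

lemma em_add (a b : W.H X) : em W L (a + b) = em W L a + em W L b := TensorProduct.tmul_add _ _ _

lemma em_zero : em W L (0 : W.H X) = 0 := TensorProduct.tmul_zero _ _

/-- The extension of the coefficients of scalars. -/
def ex (W : WeilCohomology.{u, 0} ops) (L : Type) [Field L] [Algebra W.K L] (r : W.K) :
    (baseW W L).K := algebraMap W.K L r

lemma em_smul (r : W.K) (a : W.H X) : em W L (r • a) = ex W L r • em W L a := by
  change (1 : L) ⊗ₜ[W.K] (r • a) = (algebraMap W.K L r) • ((1 : L) ⊗ₜ[W.K] a)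
  rw [TensorProduct.tmul_smul, algebraMap_smul]

lemma ex_rat (q : ℚ) : ex W L (q : W.K) = (q : (baseW W L).K) := map_ratCast (algebraMap W.K L) q

lemma em_mul (a b : W.H X) : em W L (a * b) = em W L a * em W L b := by
  have h : (1 : L) ⊗ₜ[W.K] (a * b) = ((1 : L) ⊗ₜ[W.K] a) * ((1 : L) ⊗ₜ[W.K] b) := by
    rw [Algebra.TensorProduct.tmul_mul_tmul, one_mul]
  exact h

lemma em_map (f : X ⟶ Y) (a : W.H Y) : (baseW W L).map f (em W L a) = em W L (W.map f a) := by
  have h : mapBase L (W.map f) ((1 : L) ⊗ₜ[W.K] a) = (1 : L) ⊗ₜ[W.K] (W.map f a) :=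
    Algebra.TensorProduct.map_tmul _ _ _ _
  exact h

lemma em_push (f : X ⟶ Y) (a : W.H X) : (baseW W L).push f (em W L a) = em W L (W.push f a) := by
  have h : (W.push f).baseChange L ((1 : L) ⊗ₜ[W.K] a) = (1 : L) ⊗ₜ[W.K] (W.push f a) :=
    LinearMap.baseChange_tmul _ _ _
  exact h

lemma em_cl (z : X.Cycles) : (baseW W L).cl X z = em W L (W.cl X z) := rfl

lemma em_gr {i : ℕ} {a : W.H X} (ha : a ∈ W.gr X i) : em W L a ∈ (baseW W L).gr X i :=
  Submodule.tmul_mem_baseChange_of_mem _ ha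

lemma em_injective {a : W.H X} (h : em W L a = 0) : a = 0 := tmul_injective a h

end Em

lemma push_gr {W : WeilCohomology.{u, 0} ops} {X Y : 𝒱.Obj} (f : X ⟶ Y) {j l : ℕ}
    (h : l + X.dim = j + Y.dim) {a : W.H X} (ha : a ∈ W.gr X (2 * j)) :
    W.push f a ∈ W.gr Y (2 * l) := by
  have h5 := W.push_mem f ha
  have h6 : ((2 * j : ℕ) : ℤ) + 2 * ((Y.dim : ℤ) - X.dim) = ((2 * l : ℕ) : ℤ) := by omega
  rw [h6, grZ_natCast] at h5
  exact h5

section Hodge

variable {T : HodgeTheory ops} {X Y : 𝒱.Obj}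

lemma IsHodge.zero {j : ℕ} : IsHodge T X j 0 :=
  ⟨Submodule.zero_mem _, by rw [em_zero]; exact Submodule.zero_mem _⟩

lemma IsHodge.add {j : ℕ} {a b : T.W.H X} (ha : IsHodge T X j a) (hb : IsHodge T X j b) :
    IsHodge T X j (a + b) :=
  ⟨Submodule.add_mem _ ha.1 hb.1, by rw [em_add]; exact Submodule.add_mem _ ha.2 hb.2⟩

lemma IsHodge.smul {j : ℕ} (r : T.W.K) {a : T.W.H X} (ha : IsHodge T X j a) :
    IsHodge T X j (r • a) :=
  ⟨Submodule.smul_mem _ _ ha.1, by rw [em_smul]; exact Submodule.smul_mem _ _ ha.2⟩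

lemma IsHodge.cl {j : ℕ} {z : X.Cycles} (hz : X.IsCyc j z) : IsHodge T X j (T.W.cl X z) :=
  ⟨T.W.cl_mem hz, T.dec.cyc hz⟩

lemma IsHodge.mul {i j : ℕ} {a b : T.W.H X} (ha : IsHodge T X i a) (hb : IsHodge T X j b) :
    IsHodge T X (i + j) (a * b) := by
  refine ⟨by rw [mul_add]; exact T.W.mul_mem ha.1 hb.1, ?_⟩
  rw [em_mul, Nat.cast_add]
  exact T.dec.mul ha.2 hb.2

lemma IsHodge.map (f : X ⟶ Y) {j : ℕ} {a : T.W.H Y} (ha : IsHodge T Y j a) :
    IsHodge T X j (T.W.map f a) :=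
  ⟨T.W.map_mem f ha.1, by rw [← em_map]; exact T.dec.map f ha.2⟩

lemma IsHodge.push (f : X ⟶ Y) {j l : ℕ} (h : l + X.dim = j + Y.dim) {a : T.W.H X}
    (ha : IsHodge T X j a) : IsHodge T Y l (T.W.push f a) := by
  refine ⟨push_gr f h ha.1, ?_⟩
  rw [← em_push]
  have h1 := T.dec.push f ha.2
  have h2 : (j : ℤ) + Y.dim - X.dim = l := by omega
  rwa [h2] at h1

/-- The Hodge classes. -/
def hodgePred (T : HodgeTheory ops) : ClassPred T.W where
  P X j c := IsHodge T X j c
  gr h := h.1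
  zero := IsHodge.zero
  add := IsHodge.add
  smul := IsHodge.smul
  cl := IsHodge.cl
  mul := IsHodge.mul
  map f _ _ h := h.map f
  push f _ _ h _ ha := ha.push f h

end Hodge

section Comparison

variable {V V' : WeilCohomology.{u, 0} ops} (C : Comparison V V') {X Y : 𝒱.Obj}

lemma Comparison.push (f : X ⟶ Y) (x : V.H X) :
    C.c ^ X.dim • C.e Y (V.push f x) = C.c ^ Y.dim • V'.push f (C.e X x) := by
  apply V'.tr_ext
  intro b'
  obtain ⟨b, rfl⟩ := (C.e Y).surjective b'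
  rw [smul_mul_assoc, smul_mul_assoc, map_smul, map_smul, ← map_mul (C.e Y), C.tr, V.tr_push,
    V'.tr_push, ← C.nat, ← map_mul (C.e X), C.tr, smul_eq_mul, smul_eq_mul]
  ring

end Comparison

section Abs

variable {T : HodgeTheory ops} (D : Conjugates T) {X Y : 𝒱.Obj}

lemma IsAbsHodge.push {D : Conjugates T} (f : X ⟶ Y) {j l : ℕ} (h : l + X.dim = j + Y.dim)
    {c : T.W.H X} (hc : IsAbsHodge D X j c) : IsAbsHodge D Y l (T.W.push f c) := by
  obtain ⟨h1, c', hc', hcc⟩ := hc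
  refine ⟨h1.push f h, fun i => (D.T' i).W.push f (c' i), fun i => (hc' i).push f h,
    fun a => ?_⟩
  have h2 := (D.cmp a).push f (em T.W (D.L a) c)
  rw [em_push, hcc a, map_smul, em_push, smul_smul, ← pow_add] at h2
  have h3 : (D.cmp a).c ^ X.dim ≠ 0 := pow_ne_zero _ (D.cmp a).ne
  have h4 : (D.cmp a).c ^ X.dim • (D.cmp a).e Y (em T.W (D.L a) (T.W.push f c)) =
      (D.cmp a).c ^ X.dim • ((D.cmp a).c ^ l • em (D.T' (D.t a)).W (D.L a)
        ((D.T' (D.t a)).W.push f (c' (D.t a)))) := by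
    rw [h2, smul_smul, ← pow_add]
    congr 2
    omega
  exact smul_right_injective _ h3 h4

/-- The absolutely Hodge classes. -/
def absPred : ClassPred T.W where
  P X j c := IsAbsHodge D X j c
  gr h := h.1.1
  zero := ⟨IsHodge.zero, fun _ => 0, fun _ => IsHodge.zero, fun a => by
    rw [Corresponds, em_zero, em_zero, map_zero, smul_zero]⟩
  add := by
    rintro X j a b ⟨ha, a', ha', haa⟩ ⟨hb, b', hb', hbb⟩
    exact ⟨ha.add hb, fun i => a' i + b' i, fun i => (ha' i).add (hb' i), fun i => by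
      rw [Corresponds, em_add, em_add, map_add, haa i, hbb i, smul_add]⟩
  smul := by
    rintro X j r a ⟨ha, a', ha', haa⟩
    obtain ⟨q, rfl⟩ := T.rat r
    refine ⟨ha.smul _, fun i => (q : (D.T' i).W.K) • a' i, fun i => (ha' i).smul _, fun i => ?_⟩
    rw [Corresponds, em_smul, em_smul, (D.cmp i).semi, haa i, ex_rat, ex_rat, map_ratCast,
      smul_comm]
  cl := by
    intro X j z hz
    exact ⟨IsHodge.cl hz, fun i => (D.T' i).W.cl X z, fun i => IsHodge.cl hz, fun i => by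
      rw [Corresponds, ← em_cl, ← em_cl, (D.cmp i).cyc hz]⟩
  mul := by
    rintro X i j a b ⟨ha, a', ha', haa⟩ ⟨hb, b', hb', hbb⟩
    exact ⟨ha.mul hb, fun i => a' i * b' i, fun i => (ha' i).mul (hb' i), fun i => by
      rw [Corresponds, em_mul, em_mul, map_mul, haa i, hbb i, smul_mul_smul_comm, pow_add]⟩
  map := by
    rintro X Y f j a ⟨ha, a', ha', haa⟩
    exact ⟨ha.map f, fun i => (D.T' i).W.map f (a' i), fun i => (ha' i).map f, fun i => by
      rw [Corresponds, ← em_map, ← em_map, (D.cmp i).nat, haa i, map_smul]⟩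
  push f _ _ h _ ha := ha.push f h

/-- The system of the Hodge classes. -/
noncomputable def hodgeSys (T : HodgeTheory ops) : Sys T.W := (hodgePred T).sys

/-- The system of the absolutely Hodge classes. -/
noncomputable def absSys : Sys T.W := (absPred D).sys

lemma abs_le_hodge (X : 𝒱.Obj) : (absSys D).C X ≤ (hodgeSys T).C X :=
  Submodule.span_mono fun _ ⟨j, hj⟩ => ⟨j, hj.1⟩

lemma hodgeDim_eq (X : 𝒱.Obj) : hodgeDim T X = finrank T.W.K ((hodgeSys T).C X) := rfl

lemma absDim_eq (X : 𝒱.Obj) : absDim D X = finrank T.W.K ((absSys D).C X) := rfl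

end Abs

end Pool.Agent.Y121.AH
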