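import Pool.Agent.Y121.AH.ZeroOne
import Pool.Agent.Y133.Half.HodgeSys

/-!
# The comparison isomorphisms on the Hodge classes are defined over number fields
-/

open CategoryTheory AlgebraicGeometry TensorProduct Filter Topology

universe u

namespace Pool.Agent.Y121.AH

open Module
open Pool.Agent.H914 Pool.Agent.H914.VarClass Pool.Agent.H914.VarClass.Obj
  Pool.Agent.H914.WeilCohomology
open Pool.Agent.Y133.Half

section Alg

variable {K L : Type*} [Field K] [Field L] [Algebra K L]

/-- An element with powers in a finite-dimensional subspace is algebraic. -/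
lemma isAlgebraic_of_pow_mem {M : Submodule K L} [Module.Finite K M] {a : L}
    (h : ∀ m : ℕ, a ^ (m + 1) ∈ M) : IsAlgebraic K a := by
  by_contra hcon
  have hinj := transcendental_iff_injective.1 (show Transcendental K a from hcon)
  have h1 : LinearIndependent K fun m : ℕ => a ^ (m + 1) := by
    have h2 : LinearIndependent K fun n : ℕ => (Polynomial.X : Polynomial K) ^ n := by
      have := (Polynomial.basisMonomials K).linearIndependent
      simpa [Polynomial.X_pow_eq_monomial] using this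
    have h3 := h2.map' (Polynomial.aeval a : Polynomial K →ₐ[K] L).toLinearMap
      (LinearMap.ker_eq_bot.2 hinj)
    have h4 := h3.comp (fun m : ℕ => m + 1) (fun a b h => Nat.succ_injective h)
    have h5 : (fun m : ℕ => a ^ (m + 1)) =
        ((Polynomial.aeval a : Polynomial K →ₐ[K] L).toLinearMap ∘
          fun n : ℕ => (Polynomial.X : Polynomial K) ^ n) ∘ fun m : ℕ => m + 1 := by
      funext m
      simp
    rw [h5]
    exact h4
  have h5 : LinearIndependent K fun m : ℕ => (⟨a ^ (m + 1), h m⟩ : M) := by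
    apply LinearIndependent.of_comp M.subtype
    exact h1
  have h6 := h5.finite
  exact not_finite ℕ

lemma basis_ind {V ι : Type*} [AddCommGroup V] [Module K V] [Fintype ι] (b : Basis ι K V)
    {p : V → Prop} (h0 : p 0) (hadd : ∀ x y, p x → p y → p (x + y))
    (h : ∀ (r : K) (i : ι), p (r • b i)) (x : V) : p x := by
  rw [← b.sum_repr x]
  exact Finset.sum_induction _ p hadd h0 fun i _ => h _ i

end Alg

variable {k : Type u} [Field k] {𝒱 : VarClass k} {ops : CycleOps 𝒱}

section Nrm

variable {T T' : HodgeTheory ops} {L : Type} [Field L] [Algebra T.W.K L] [Algebra T'.W.K L]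
  (C : Comparison (baseW T.W L) (baseW T'.W L)) {X Y P Q Z : 𝒱.Obj}

/-- The image of a class under the comparison isomorphism, corrected by the effect on the Tate
twist. -/
noncomputable def nrm (X : 𝒱.Obj) (j : ℕ) (x : T.W.H X) : (baseW T'.W L).H X :=
  (C.c ^ j)⁻¹ • C.e X (em T.W L x)

lemma cpow (j : ℕ) : C.c ^ j ≠ 0 := pow_ne_zero _ C.ne

lemma nrm_eq_iff {j : ℕ} {x : T.W.H X} {w : (baseW T'.W L).H X} :
    nrm C X j x = w ↔ C.e X (em T.W L x) = C.c ^ j • w := by
  rw [nrm, inv_smul_eq_iff₀ (cpow C j)]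

lemma nrm_add (j : ℕ) (x y : T.W.H X) : nrm C X j (x + y) = nrm C X j x + nrm C X j y := by
  rw [nrm, em_add, map_add, smul_add]; rfl

lemma nrm_zero (j : ℕ) : nrm C X j (0 : T.W.H X) = 0 := by
  rw [nrm, em_zero, map_zero, smul_zero]

lemma nrm_smul (j : ℕ) (q : ℚ) (x : T.W.H X) :
    nrm C X j ((q : T.W.K) • x) = (q : (baseW T'.W L).K) • nrm C X j x := by
  rw [nrm, nrm, em_smul, ex_rat, C.semi, map_ratCast, smul_comm]

lemma nrm_mul (i j : ℕ) (x y : T.W.H X) :
    nrm C X (i + j) (x * y) = nrm C X i x * nrm C X j y := by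
  rw [nrm, nrm, nrm, em_mul, map_mul, smul_mul_smul_comm, ← mul_inv, pow_add]

lemma nrm_map (f : X ⟶ Y) (j : ℕ) (y : T.W.H Y) :
    nrm C X j (T.W.map f y) = (baseW T'.W L).map f (nrm C Y j y) := by
  rw [nrm, ← em_map, C.nat, nrm, map_smul]

lemma nrm_push (f : X ⟶ Y) {j l : ℕ} (h : l + X.dim = j + Y.dim) (x : T.W.H X) :
    nrm C Y l (T.W.push f x) = (baseW T'.W L).push f (nrm C X j x) := by
  rw [nrm_eq_iff]
  have h1 := C.push f (em T.W L x)
  rw [em_push] at h1
  have h2 : C.c ^ X.dim • C.e Y (em T.W L (T.W.push f x)) =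
      C.c ^ X.dim • (C.c ^ l • (baseW T'.W L).push f (nrm C X j x)) := by
    rw [h1, nrm, map_smul, smul_smul, smul_smul]
    congr 1
    rw [← pow_add, Nat.add_comm X.dim l, h, pow_add, mul_comm (C.c ^ j), mul_assoc,
      mul_inv_cancel₀ (cpow C j), mul_one]
  exact smul_right_injective _ (cpow C X.dim) h2

lemma nrm_gr {i j : ℕ} {x : T.W.H X} (hx : x ∈ T.W.gr X i) :
    nrm C X j x ∈ (baseW T'.W L).gr X i :=
  Submodule.smul_mem _ _ (C.gr.2 (em_gr hx))

lemma nrm_xp {i j : ℕ} (x : T.W.H X) (y : T.W.H Y) :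
    nrm C (X.prod Y) (i + j) (xp T.W x y) = xp (baseW T'.W L) (nrm C X i x) (nrm C Y j y) := by
  rw [xp, nrm_mul, nrm_map, nrm_map, xp]

lemma nrm_xpw {j : ℕ} (v : T.W.H Z) : ∀ m, nrm C (pw Z m) (j * (m + 1)) (xpw T.W v m) =
    xpw (baseW T'.W L) (nrm C Z j v) m
  | 0 => by rw [zero_add, mul_one]; rfl
  | m + 1 => by
    have h := nrm_xp C (i := j * (m + 1)) (j := j) (xpw T.W v m) v
    rw [nrm_xpw v m] at h
    exact h

lemma em_xp {W : WeilCohomology.{u, 0} ops} {L : Type} [Field L] [Algebra W.K L] (x : W.H X)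
    (y : W.H Y) : em W L (xp W x y) = xp (baseW W L) (em W L x) (em W L y) := by
  rw [xp, em_mul, ← em_map, ← em_map, xp]

lemma em_xpw {W : WeilCohomology.{u, 0} ops} {L : Type} [Field L] [Algebra W.K L] (y : W.H Z) :
    ∀ m, em W L (xpw W y m) = xpw (baseW W L) (em W L y) m
  | 0 => rfl
  | m + 1 => by
    have h := em_xp (L := L) (xpw W y m) y
    rw [em_xpw y m] at h
    exact h

/-- The pairing of a Hodge class with a rational class of the conjugate theory. -/
noncomputable def val (X : 𝒱.Obj) (j : ℕ) (x : T.W.H X) (y : T'.W.H X) : L :=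
  (baseW T'.W L).tr X (nrm C X j x * em T'.W L y)

lemma val_add_left (j : ℕ) (x x' : T.W.H X) (y : T'.W.H X) :
    val C X j (x + x') y = val C X j x y + val C X j x' y := by
  have h : (baseW T'.W L).tr X (nrm C X j (x + x') * em T'.W L y) =
      (baseW T'.W L).tr X (nrm C X j x * em T'.W L y) +
        (baseW T'.W L).tr X (nrm C X j x' * em T'.W L y) := by
    rw [nrm_add, add_mul, map_add]
  exact h

lemma val_add_right (j : ℕ) (x : T.W.H X) (y y' : T'.W.H X) :
    val C X j x (y + y') = val C X j x y + val C X j x y' := by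
  have h : (baseW T'.W L).tr X (nrm C X j x * em T'.W L (y + y')) =
      (baseW T'.W L).tr X (nrm C X j x * em T'.W L y) +
        (baseW T'.W L).tr X (nrm C X j x * em T'.W L y') := by
    rw [em_add, mul_add, map_add]
  exact h

lemma val_smul_left (j : ℕ) (r : T.W.K) (x : T.W.H X) (y : T'.W.H X) :
    val C X j (r • x) y = r • val C X j x y := by
  obtain ⟨q, rfl⟩ := T.rat r
  have h : (baseW T'.W L).tr X (nrm C X j ((q : T.W.K) • x) * em T'.W L y) =
      (q : (baseW T'.W L).K) * (baseW T'.W L).tr X (nrm C X j x * em T'.W L y) := by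
    rw [nrm_smul, smul_mul_assoc, map_smul, smul_eq_mul]
  refine Eq.trans h ?_
  rw [Algebra.smul_def, map_ratCast]
  rfl

lemma val_smul_right (j : ℕ) (q : ℚ) (x : T.W.H X) (y : T'.W.H X) :
    val C X j x ((q : T'.W.K) • y) = (q : T.W.K) • val C X j x y := by
  have h : (baseW T'.W L).tr X (nrm C X j x * em T'.W L ((q : T'.W.K) • y)) =
      (q : (baseW T'.W L).K) * (baseW T'.W L).tr X (nrm C X j x * em T'.W L y) := by
    rw [em_smul, ex_rat, mul_smul_comm, map_smul, smul_eq_mul]
  refine Eq.trans h ?_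
  rw [Algebra.smul_def, map_ratCast]
  rfl

lemma val_zero_left (j : ℕ) (y : T'.W.H X) : val C X j 0 y = 0 := by
  have := val_smul_left C j (0 : T.W.K) (0 : T.W.H X) y
  rwa [zero_smul, zero_smul] at this

lemma val_zero_right (j : ℕ) (x : T.W.H X) : val C X j x 0 = 0 := by
  have := val_smul_right C j (0 : ℚ) x (0 : T'.W.H X)
  rwa [Rat.cast_zero, zero_smul, Rat.cast_zero, zero_smul] at this

/-- The values of the pairing for the degrees at most `2 dim P` span a finite-dimensional space. -/
lemma exists_fin (P : 𝒱.Obj) : ∃ M : Submodule T.W.K L, Module.Finite T.W.K M ∧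
    ∀ j ≤ P.dim, ∀ x y, val C P j x y ∈ M := by
  let b := Module.finBasis T.W.K (T.W.H P)
  let b' := Module.finBasis T'.W.K (T'.W.H P)
  let S : Set L := Set.range fun r : Fin (P.dim + 1) × Fin (finrank T.W.K (T.W.H P)) ×
    Fin (finrank T'.W.K (T'.W.H P)) => val C P r.1 (b r.2.1) (b' r.2.2)
  refine ⟨Submodule.span T.W.K S, Module.Finite.iff_fg.2
    (Submodule.fg_span (Set.finite_range _)), ?_⟩
  intro j hj x y
  have h1 : ∀ i l, val C P j (b i) (b' l) ∈ Submodule.span T.W.K S := fun i l =>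
    Submodule.subset_span ⟨(⟨j, by omega⟩, i, l), rfl⟩
  have h2 : ∀ i y, val C P j (b i) y ∈ Submodule.span T.W.K S := by
    intro i y
    refine basis_ind b' (p := fun y => val C P j (b i) y ∈ Submodule.span T.W.K S) ?_ ?_ ?_ y
    · rw [val_zero_right]; exact Submodule.zero_mem _
    · intro y y' hy hy'; rw [val_add_right]; exact Submodule.add_mem _ hy hy'
    · intro r l
      obtain ⟨q, rfl⟩ := T'.rat r
      rw [val_smul_right]
      exact Submodule.smul_mem _ _ (h1 i l)
  refine basis_ind b (p := fun x => val C P j x y ∈ Submodule.span T.W.K S) ?_ ?_ ?_ x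
  · rw [val_zero_left]; exact Submodule.zero_mem _
  · intro y y' hy hy'; rw [val_add_left]; exact Submodule.add_mem _ hy hy'
  · intro r i
    rw [val_smul_left]
    exact Submodule.smul_mem _ _ (h2 i y)

end Nrm

end Pool.Agent.Y121.AH
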