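import Pool.Agent.Y121.AH.Alg

/-!
# Number fields of definition for the comparison isomorphisms on the Hodge classes
-/

open CategoryTheory AlgebraicGeometry TensorProduct Filter Topology

universe u

namespace Pool.Agent.Y121.AH

open Module
open Pool.Agent.H914 Pool.Agent.H914.VarClass Pool.Agent.H914.VarClass.Obj
  Pool.Agent.H914.WeilCohomology
open Pool.Agent.Y133.Half

variable {k : Type u} [Field k] {𝒱 : VarClass k} {ops : CycleOps 𝒱}

/-- The sums of classes `l ⊗ c` with `l` in `F` and Hodge classes `c` of degree `2 j`. -/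
noncomputable def hodgeSums (T : HodgeTheory ops) (L : Type) [Field L] [Algebra T.W.K L] (F : Set L)
    (X : 𝒱.Obj) (j : ℕ) : AddSubmonoid ((baseW T.W L).H X) :=
  AddSubmonoid.closure {x | ∃ l : (baseW T.W L).K, l ∈ F ∧ ∃ c, IsHodge T X j c ∧
    l • em T.W L c = x}

/-- Every Hodge class of degree `2 j` on `X` is mapped by the comparison isomorphism with index `a`
(corrected by the effect on the Tate twist) to a linear combination with coefficients in `F` of
Hodge classes of degree `2 j` of the conjugate theory. -/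
def PreservedOver {T : HodgeTheory ops} (D : Conjugates T) (a : D.J) (F : Set (D.L a)) (X : 𝒱.Obj)
    (j : ℕ) : Prop :=
  ∀ c, IsHodge T X j c → ∃ w ∈ hodgeSums (D.T' (D.t a)) (D.L a) F X j,
    (D.cmp a).e X (em T.W (D.L a) c) = (D.cmp a).c ^ j • w

section Gen

variable {T : HodgeTheory ops} (D : Conjugates T) (a : D.J) {X P Q Z : 𝒱.Obj}

lemma push_neg {W : WeilCohomology.{u, 0} ops} (f : X ⟶ Z) {j : ℕ} (h : j + Z.dim < X.dim)
    {x : W.H X} (hx : x ∈ W.gr X (2 * j)) : W.push f x = 0 := by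
  have h5 := W.push_mem f hx
  rw [grZ_of_neg (by push_cast; omega)] at h5
  exact (Submodule.mem_bot _).1 h5

lemma hodge_gt {j : ℕ} (h : X.dim < j) {x : T.W.H X} (hx : IsHodge T X j x) : x = 0 := by
  have h1 := hx.1
  rw [T.W.gr_eq_bot X _ (by omega)] at h1
  exact (Submodule.mem_bot _).1 h1

/-- Induction for the generated classes. -/
lemma gen_ind {j : ℕ} {p : (baseW (D.T' (D.t a)).W (D.L a)).H Q → Prop} (h0 : p 0)
    (hadd : ∀ x y, p x → p y → p (x + y))
    (h : ∀ (i l : ℕ) c', IsHodge (D.T' (D.t a)) (P.prod Q) i c' → ∀ t, IsHodge T P l t →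
      i + l = j + P.dim → p ((baseW (D.T' (D.t a)).W (D.L a)).corr
        (em (D.T' (D.t a)).W (D.L a) c') (nrm (D.cmp a) P l t)))
    {x : T.W.H Q} (hx : x ∈ gen (absSys D) P Q ((hodgeSys T).C P)) :
    p (nrm (D.cmp a) Q j (H914.proj (T.W.isInternal Q) (2 * j) x)) := by
  have key : ∀ r : T.W.K, p (nrm (D.cmp a) Q j (H914.proj (T.W.isInternal Q) (2 * j) (r • x))) := by
    induction hx using Submodule.span_induction with
    | mem x hx =>
      intro r
      obtain ⟨f, hf, t, ht, rfl⟩ := hx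
      obtain ⟨c, hc, rfl⟩ := Sys.mem_Op.1 hf
      rw [← map_smul]
      have ht' : r • t ∈ (hodgePred T).sp P := Submodule.smul_mem _ r ht
      have hc' : c ∈ (absPred D).sp (P.prod Q) := hc
      generalize r • t = t at ht'
      refine ClassPred.sp_ind (Q := absPred D) (q := fun c => p (nrm (D.cmp a) Q j
        (H914.proj (T.W.isInternal Q) (2 * j) (T.W.corr c t)))) ?_ ?_ ?_ hc'
      · rintro i c ⟨hc, c', hc', hcc⟩
        refine ClassPred.sp_ind (Q := hodgePred T) (q := fun t => p (nrm (D.cmp a) Q j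
          (H914.proj (T.W.isInternal Q) (2 * j) (T.W.corr c t)))) ?_ ?_ ?_ ht'
        · intro l t ht
          have h1 : c * T.W.map (fst P Q) t ∈ T.W.gr (P.prod Q) (2 * (i + l)) := by
            rw [mul_add]; exact T.W.mul_mem hc.1 (T.W.map_mem _ ht.1)
          by_cases hil : i + l = j + P.dim
          · have h2 : T.W.corr c t ∈ T.W.gr Q (2 * j) := by
              rw [corr_apply]
              exact push_gr _ (by rw [dim_prod]; omega) h1
            rw [proj_same _ h2]
            have h3 : nrm (D.cmp a) Q j (T.W.corr c t) =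
                (baseW (D.T' (D.t a)).W (D.L a)).corr
                  (em (D.T' (D.t a)).W (D.L a) (c' (D.t a))) (nrm (D.cmp a) P l t) := by
              rw [corr_apply, corr_apply, nrm_push (D.cmp a) (snd P Q) (j := i + l) (l := j)
                (by rw [dim_prod]; omega), nrm_mul, nrm_map,
                (nrm_eq_iff (D.cmp a)).2 (hcc a)]
            rw [h3]
            exact h i l _ (hc' _) t ht hil
          · have h2 : H914.proj (T.W.isInternal Q) (2 * j) (T.W.corr c t) = 0 := by
              rw [corr_apply]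
              by_cases hlt : i + l < P.dim
              · rw [push_neg _ (by rw [dim_prod]; omega) h1, map_zero]
              · exact proj_ne _ (push_gr (l := i + l - P.dim) _ (by rw [dim_prod]; omega) h1)
                  (by omega)
            rw [h2, nrm_zero]
            exact h0
        · rw [map_zero, map_zero, nrm_zero]; exact h0
        · intro x y hx hy; rw [map_add, map_add, nrm_add]; exact hadd _ _ hx hy
      · rw [corr_zero, LinearMap.zero_apply, map_zero, nrm_zero]; exact h0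
      · intro x y hx hy
        rw [corr_add, LinearMap.add_apply, map_add, nrm_add]; exact hadd _ _ hx hy
    | zero => intro r; rw [smul_zero, map_zero, nrm_zero]; exact h0
    | add x y _ _ hx hy =>
      intro r; rw [smul_add, map_add, nrm_add]; exact hadd _ _ (hx r) (hy r)
    | smul s x _ hx => intro r; rw [smul_smul]; exact hx _
  have := key 1
  rwa [one_smul] at this

lemma em_corr {W : WeilCohomology.{u, 0} ops} {L : Type} [Field L] [Algebra W.K L]
    (c : W.H (X.prod Z)) (y : W.H X) :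
    (baseW W L).corr (em W L c) (em W L y) = em W L (W.corr c y) := by
  rw [corr_apply, corr_apply, em_map, ← em_mul, em_push]

lemma em_PH {W : WeilCohomology.{u, 0} ops} {L : Type} [Field L] [Algebra W.K L] {y : W.H X}
    {b : ℕ} (hy : y ∈ PH W X b) : em W L y ∈ PH (baseW W L) X b := by
  refine PH.ind (p := fun y => em W L y ∈ PH (baseW W L) X b) ?_ ?_ ?_ hy
  · intro i hi x hx; exact PH.of' hi (em_gr hx)
  · rw [em_zero]; exact Submodule.zero_mem _
  · intro x y hx hy; rw [em_add]; exact Submodule.add_mem _ hx hy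

lemma val_xpw {T' : HodgeTheory ops} {L : Type} [Field L] [Algebra T.W.K L] [Algebra T'.W.K L]
    (C : Comparison (baseW T.W L) (baseW T'.W L)) {j : ℕ} {v : T.W.H Z}
    (hv : v ∈ T.W.gr Z (2 * j)) {y : T'.W.H Z} (hy : y ∈ PH T'.W Z 0) (m : ℕ) :
    val C (pw Z m) (j * (m + 1)) (xpw T.W v m) (xpw T'.W y m) = val C Z j v y ^ (m + 1) := by
  have h : (baseW T'.W L).tr (pw Z m) (nrm C (pw Z m) (j * (m + 1)) (xpw T.W v m) *
      em T'.W L (xpw T'.W y m)) =
      (baseW T'.W L).tr Z (nrm C Z j v * em T'.W L y) ^ (m + 1) := by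
    rw [nrm_xpw, em_xpw]
    exact tr_xpw (PH.of' (by omega) (nrm_gr C hv)) (em_PH hy) m
  exact h

lemma xpw_gr {W : WeilCohomology.{u, 0} ops} {j : ℕ} {v : W.H Z} (hv : v ∈ W.gr Z (2 * j)) :
    ∀ m, xpw W v m ∈ W.gr (pw Z m) (2 * (j * (m + 1)))
  | 0 => by rw [zero_add, mul_one]; exact hv
  | m + 1 => by
    have h : xp W (xpw W v m) v ∈ W.gr ((pw Z m).prod Z) (2 * (j * (m + 1)) + 2 * j) :=
      W.mul_mem (W.map_mem _ (xpw_gr hv m)) (W.map_mem _ hv)
    rw [show 2 * (j * (m + 1 + 1)) = 2 * (j * (m + 1)) + 2 * j by ring]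
    exact h

/-- The values of the pairing on Hodge classes are algebraic. -/
lemma alg_val {j : ℕ} {v : T.W.H Z} (hv : IsHodge T Z j v)
    (hg : ∀ m, xpw T.W v m ∈ gen (absSys D) P (pw Z m) ((hodgeSys T).C P))
    {y : (D.T' (D.t a)).W.H Z} (hy : y ∈ PH (D.T' (D.t a)).W Z 0) :
    IsAlgebraic T.W.K (val (D.cmp a) Z j v y) := by
  obtain ⟨M, hM, hval⟩ := exists_fin (D.cmp a) P
  refine isAlgebraic_of_pow_mem (M := M) fun m => ?_
  rw [← val_xpw (D.cmp a) hv.1 hy m]
  have h1 := gen_ind D a (Q := pw Z m) (j := j * (m + 1))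
    (p := fun w => (show D.L a from (baseW (D.T' (D.t a)).W (D.L a)).tr (pw Z m)
      (w * em (D.T' (D.t a)).W (D.L a) (xpw (D.T' (D.t a)).W y m))) ∈ M) ?_ ?_ ?_ (hg m)
  · rw [proj_same _ (xpw_gr hv.1 m)] at h1
    exact h1
  · rw [zero_mul, map_zero]; exact Submodule.zero_mem _
  · intro x y hx hy
    rw [add_mul, map_add]; exact Submodule.add_mem _ hx hy
  · intro i l c' hc' t ht hil
    have hc0 : c' ∈ PH (D.T' (D.t a)).W (P.prod (pw Z m)) 0 := PH.of' (by omega) hc'.1
    rw [tr_corr' (em_PH hc0), em_map, em_corr]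
    by_cases hl : l ≤ P.dim
    · exact hval l hl t _
    · rw [hodge_gt (by omega) ht, nrm_zero, zero_mul, map_zero]
      exact Submodule.zero_mem _

end Gen

section Coord

variable {T : HodgeTheory ops} {L : Type} [Field L] [Algebra T.W.K L] {X : 𝒱.Obj}

lemma tr_proj {W : WeilCohomology.{u, 0} ops} {j : ℕ} (hj : j ≤ X.dim) {x : W.H X}
    (hx : x ∈ W.gr X (2 * j)) (y : W.H X) :
    W.tr X (x * H914.proj (W.isInternal X) (2 * (X.dim - j)) y) = W.tr X (x * y) := by
  refine gr_induction (W.isInternal X) (p := fun y =>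
    W.tr X (x * H914.proj (W.isInternal X) (2 * (X.dim - j)) y) = W.tr X (x * y)) ?_ ?_ y
  · intro i y hy
    by_cases h : i = 2 * (X.dim - j)
    · subst h; rw [proj_same _ hy]
    · rw [proj_ne _ hy h, mul_zero, map_zero, W.tr_eq_zero (W.mul_mem hx hy) (by omega)]
  · intro a b ha hb
    rw [map_add, mul_add, mul_add, map_add, map_add, ha, hb]

/-- The space of the Hodge classes of degree `2 j`. -/
def hodgeSub (T : HodgeTheory ops) (X : 𝒱.Obj) (j : ℕ) : Submodule T.W.K (T.W.H X) where
  carrier := {x | IsHodge T X j x}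
  zero_mem' := IsHodge.zero
  add_mem' ha hb := IsHodge.add ha hb
  smul_mem' r _ ha := IsHodge.smul r ha

/-- Bases of the space of Hodge classes and dual classes. -/
lemma exists_coord (T : HodgeTheory ops) (L : Type) [Field L] [Algebra T.W.K L] (X : 𝒱.Obj)
    {j : ℕ} (hj : j ≤ X.dim) : ∃ (r : ℕ) (h y : Fin r → T.W.H X), (∀ i, IsHodge T X j (h i)) ∧
      (∀ i, y i ∈ PH T.W X 0) ∧
      ∀ w ∈ Submodule.span (baseW T.W L).K {x | ∃ c', IsHodge T X j c' ∧ em T.W L c' = x},
        w = ∑ i, (baseW T.W L).tr X (w * em T.W L (y i)) • em T.W L (h i) := by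
  let b := Module.finBasis T.W.K (hodgeSub T X j)
  have hφ : ∀ i, ∃ φ : T.W.H X →ₗ[T.W.K] T.W.K, φ ∘ₗ (hodgeSub T X j).subtype = b.coord i :=
    fun i => LinearMap.exists_extend (b.coord i)
  choose φ hφ using hφ
  have hy : ∀ i, ∃ y : T.W.H X, ∀ x, T.W.tr X (x * y) = φ i x := fun i =>
    exists_dual_class T.W (φ i)
  choose y hy using hy
  refine ⟨_, fun i => (b i : T.W.H X), fun i =>
    H914.proj (T.W.isInternal X) (2 * (X.dim - j)) (y i), fun i => (b i).2,
    fun i => PH.of' (by omega) (proj_mem _ _ _), ?_⟩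
  intro w hw
  induction hw using Submodule.span_induction with
  | mem w hw =>
    obtain ⟨c, hc, rfl⟩ := hw
    have h1 : ∀ i, (baseW T.W L).tr X (em T.W L c *
        em T.W L (H914.proj (T.W.isInternal X) (2 * (X.dim - j)) (y i))) =
        ex T.W L (b.repr ⟨c, hc⟩ i) := by
      intro i
      rw [← em_mul, em_tr, tr_proj hj hc.1, hy]
      congr 1
      exact congrArg (fun f => f ⟨c, hc⟩) (hφ i)
    simp only [h1, ← em_smul]
    have h2 : c = ∑ i, b.repr ⟨c, hc⟩ i • (b i : T.W.H X) := by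
      have h3 := congrArg Subtype.val (b.sum_repr ⟨c, hc⟩)
      refine Eq.trans h3.symm ?_
      rw [Submodule.coe_sum]
      rfl
    have h4 : ∀ (s : Finset (Fin (finrank T.W.K (hodgeSub T X j))))
        (f : Fin (finrank T.W.K (hodgeSub T X j)) → T.W.H X),
        em T.W L (∑ i ∈ s, f i) = ∑ i ∈ s, em T.W L (f i) := by
      intro s f
      exact map_sum (AddMonoidHom.mk' (em T.W L (X := X)) em_add) f s
    conv_lhs => rw [h2]
    exact h4 _ _
  | zero => simp only [zero_mul, map_zero, zero_smul, Finset.sum_const_zero]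
  | add w w' _ _ hw hw' =>
    simp only [add_mul, map_add, add_smul, Finset.sum_add_distrib]
    rw [← hw, ← hw']
  | smul r w _ hw =>
    simp only [smul_mul_assoc, map_smul, smul_assoc]
    rw [← Finset.smul_sum, ← hw]

lemma sum_mem_hodgeSums {F : Set L} {j : ℕ} {r : ℕ} (l : Fin r → (baseW T.W L).K)
    (hl : ∀ i, l i ∈ F) {h : Fin r → T.W.H X} (hh : ∀ i, IsHodge T X j (h i)) :
    ∑ i, l i • em T.W L (h i) ∈ hodgeSums T L F X j :=
  AddSubmonoid.sum_mem _ fun i _ => AddSubmonoid.subset_closure ⟨l i, hl i, h i, hh i, rfl⟩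

lemma hodgeSums_mono {F F' : Set L} (h : F ⊆ F') (j : ℕ) :
    hodgeSums T L F X j ≤ hodgeSums T L F' X j := by
  apply AddSubmonoid.closure_mono
  rintro x ⟨l, hl, c, hc, rfl⟩
  exact ⟨l, h hl, c, hc, rfl⟩

end Coord

section Field

variable {T : HodgeTheory ops} (D : Conjugates T) (a : D.J) {X P Q Z : 𝒱.Obj}

/-- The number field for the Hodge classes of one degree. -/
lemma exists_field_deg {j : ℕ} (hj : j ≤ Z.dim)
    (hg : ∀ v ∈ (hodgeSys T).C Z, ∀ m, xpw T.W v m ∈ gen (absSys D) P (pw Z m) ((hodgeSys T).C P))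
    (hs : SpanPreserved D a Z j) :
    ∃ F : IntermediateField T.W.K (D.L a), FiniteDimensional T.W.K F ∧
      ∀ v, IsHodge T Z j v → nrm (D.cmp a) Z j v ∈ hodgeSums (D.T' (D.t a)) (D.L a) F Z j := by
  obtain ⟨r, h, y, hh, hy, hw⟩ := exists_coord (D.T' (D.t a)) (D.L a) Z hj
  let b := Module.finBasis T.W.K (hodgeSub T Z j)
  let S : Set (D.L a) := Set.range fun p : Fin (finrank T.W.K (hodgeSub T Z j)) × Fin r =>
    val (D.cmp a) Z j (b p.1 : T.W.H Z) (y p.2)
  have hS : S.Finite := Set.finite_range _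
  have halg : ∀ x ∈ S, IsIntegral T.W.K x := by
    rintro _ ⟨p, rfl⟩
    exact (alg_val D a (b p.1).2 (hg _ (ClassPred.sp_of (Q := hodgePred T) (b p.1).2))
      (hy p.2)).isIntegral
  refine ⟨IntermediateField.adjoin T.W.K S, ?_, ?_⟩
  · have := hS.to_subtype
    exact IntermediateField.finiteDimensional_adjoin halg
  · intro v hv
    have h1 : ∀ v : hodgeSub T Z j, ∀ i, val (D.cmp a) Z j (v : T.W.H Z) (y i) ∈
        IntermediateField.adjoin T.W.K S := by
      intro v i
      refine basis_ind b (p := fun v => val (D.cmp a) Z j (v : T.W.H Z) (y i) ∈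
        IntermediateField.adjoin T.W.K S) ?_ ?_ ?_ v
      · rw [Submodule.coe_zero, val_zero_left]; exact zero_mem _
      · intro v v' hv hv'
        rw [Submodule.coe_add, val_add_left]; exact add_mem hv hv'
      · intro s l
        rw [Submodule.coe_smul, val_smul_left]
        have h2 : val (D.cmp a) Z j (b l : T.W.H Z) (y i) ∈ S := ⟨(l, i), rfl⟩
        exact IntermediateField.smul_mem _ (IntermediateField.subset_adjoin _ _ h2)
    have h2 : nrm (D.cmp a) Z j v ∈ Submodule.span (baseW (D.T' (D.t a)).W (D.L a)).K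
        {x | ∃ c', IsHodge (D.T' (D.t a)) Z j c' ∧ em (D.T' (D.t a)).W (D.L a) c' = x} :=
      Submodule.smul_mem _ _ (hs v hv)
    have h3 := h1 ⟨v, hv⟩
    rw [hw _ h2]
    exact sum_mem_hodgeSums _ h3 hh

/-- The field of definition is inherited by the generated classes. -/
lemma field_of_gen {F : Set (D.L a)}
    (hP : ∀ l, ∀ t, IsHodge T P l t →
      nrm (D.cmp a) P l t ∈ hodgeSums (D.T' (D.t a)) (D.L a) F P l) {j : ℕ} {v : T.W.H Z}
    (hv : IsHodge T Z j v) (hg : v ∈ gen (absSys D) P Z ((hodgeSys T).C P)) :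
    nrm (D.cmp a) Z j v ∈ hodgeSums (D.T' (D.t a)) (D.L a) F Z j := by
  have h1 := gen_ind D a (Q := Z) (j := j)
    (p := fun w => w ∈ hodgeSums (D.T' (D.t a)) (D.L a) F Z j) (AddSubmonoid.zero_mem _)
    (fun x y hx hy => AddSubmonoid.add_mem _ hx hy) ?_ hg
  · rwa [proj_same _ hv.1] at h1
  · intro i l c' hc' t ht hil
    refine AddSubmonoid.closure_induction (motive := fun w _ =>
      (baseW (D.T' (D.t a)).W (D.L a)).corr (em (D.T' (D.t a)).W (D.L a) c') w ∈
        hodgeSums (D.T' (D.t a)) (D.L a) F Z j) ?_ ?_ ?_ (hP l t ht)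
    · rintro _ ⟨s, hs, c, hc, rfl⟩
      rw [map_smul, em_corr]
      refine AddSubmonoid.subset_closure ⟨s, hs, _, ?_, rfl⟩
      rw [corr_apply]
      exact (hc'.mul (hc.map _)).push _ (by rw [dim_prod]; omega)
    · rw [map_zero]; exact AddSubmonoid.zero_mem _
    · intro x y _ _ hx hy
      rw [map_add]; exact AddSubmonoid.add_mem _ hx hy

/-- If the Hodge classes are generated by those on one power of `X` under the absolutely Hodge
correspondences, the comparison isomorphisms on the Hodge classes are defined over a number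
field. -/
theorem exists_field {m : ℕ} (h : GenBy (absSys D) (hodgeSys T) X (pw X m)) :
    ∃ F : IntermediateField T.W.K (D.L a), FiniteDimensional T.W.K F ∧
      ∀ n j, PreservedOver D a F (pw X n) j := by
  have hg : ∀ v ∈ (hodgeSys T).C (pw X m), ∀ l, xpw T.W v l ∈
      gen (absSys D) (pw X m) (pw (pw X m) l) ((hodgeSys T).C (pw X m)) := by
    intro v hv l
    obtain ⟨r, hr⟩ := pw_pw X m l
    exact h r _ hr (xpw_mem _ hv l)
  have hF : ∀ j : Fin ((pw X m).dim + 1), ∃ F : IntermediateField T.W.K (D.L a),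
      FiniteDimensional T.W.K F ∧ ∀ v, IsHodge T (pw X m) j v →
        nrm (D.cmp a) (pw X m) j v ∈ hodgeSums (D.T' (D.t a)) (D.L a) F (pw X m) j := fun j =>
    exists_field_deg D a (Nat.lt_succ_iff.1 j.2) hg (span_of_genBy D h a m j)
  choose F hF1 hF2 using hF
  refine ⟨⨆ j, F j, inferInstance, fun n j c hc => ?_⟩
  refine ⟨nrm (D.cmp a) (pw X n) j c, ?_, ?_⟩
  · refine field_of_gen D a ?_ hc
      (h n _ ⟨Iso.refl _⟩ (ClassPred.sp_of (Q := hodgePred T) hc))
    intro l t ht
    by_cases hl : l ≤ (pw X m).dim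
    · exact hodgeSums_mono (fun x hx => (le_iSup F ⟨l, by omega⟩) hx) l
        (hF2 ⟨l, by omega⟩ t ht)
    · rw [hodge_gt (by omega) ht, nrm_zero]
      exact AddSubmonoid.zero_mem _
  · rw [← nrm_eq_iff]

/-- Generation by the classes on an isomorphic variety. -/
lemma GenBy.iso {W : WeilCohomology.{u, 0} ops} {S T : Sys W} (h : GenBy S T X P)
    (θ : P ≅ Q) : GenBy S T X Q := by
  intro m Z hZ x hx
  refine (Submodule.span_le.2 ?_ : gen S P Z (T.C P) ≤ gen S Q Z (T.C Q)) (h m Z hZ hx)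
  rintro _ ⟨f, hf, t, ht, rfl⟩
  have h1 : f t = (f ∘ₗ (W.map θ.hom).toLinearMap) (W.map θ.inv t) := by
    rw [LinearMap.comp_apply]
    change f t = f (W.map θ.hom (W.map θ.inv t))
    rw [← W.map_comp, θ.hom_inv_id, W.map_id]
  rw [h1]
  exact mem_gen (Sys.Op.comp hf (op_map S θ.hom)) (T.map _ ht)

/-- **The zero-one law**, with number fields. -/
theorem zero_one_field (D : Conjugates T) (X : 𝒱.Obj) :
    (∀ a, ∃ F : IntermediateField T.W.K (D.L a), FiniteDimensional T.W.K F ∧
      ∀ n j, PreservedOver D a F (pw X n) j) ∨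
      Tendsto (fun n => (absDim D (pw X n) : ℝ) / hodgeDim T (pw X n)) atTop (𝓝 0) := by
  rcases subsingleton_or_nontrivial (T.W.H X) with hs | hn
  · left
    intro a
    refine ⟨⊥, inferInstance, fun n j c hc => ⟨0, AddSubmonoid.zero_mem _, ?_⟩⟩
    have h1 : finrank T.W.K (T.W.H (pw X n)) = 0 := by
      rw [finrank_pw, finrank_zero_of_subsingleton, zero_pow (Nat.succ_ne_zero n)]
    have h2 : Subsingleton (T.W.H (pw X n)) := finrank_zero_iff.1 h1
    rw [Subsingleton.elim c 0, em_zero, map_zero, smul_zero]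
  · obtain ⟨l, hl, hl1⟩ := exists_tr D X
    rcases growth_or (absSys D) (hodgeSys T) (abs_le_hodge D) X hl hl1 with
      ⟨m, P, ⟨θ⟩, hP⟩ | h
    · exact Or.inl fun a => exists_field D a (hP.iso θ)
    · exact Or.inr (tendsto_zero_of D X h)

end Field

end Pool.Agent.Y121.AH
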