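import Pool.Agent.Y121.AH.Deg

/-!
# The algebra of the coefficients
-/

open CategoryTheory AlgebraicGeometry TensorProduct Filter Topology

universe u

namespace Pool.Agent.Y121.AH

open Module
open Pool.Agent.H914 Pool.Agent.H914.VarClass Pool.Agent.H914.VarClass.Obj
  Pool.Agent.H914.WeilCohomology
open Pool.Agent.Y133.Half

variable {k : Type u} [Field k] {𝒱 : VarClass k} {ops : CycleOps 𝒱}

section Lin

variable {K M : Type*} [Field K] [AddCommGroup M] [Module K M]

lemma rank_le_of_fin {N : ℕ} (h : ∀ (d : ℕ) (v : Fin d → M), LinearIndependent K v → d ≤ N) :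
    Module.Finite K M ∧ finrank K M ≤ N := by
  have h1 : Module.rank K M ≤ N := by
    refine rank_le fun s hs => ?_
    refine h s.card (fun i => (s.equivFin.symm i : M)) ?_
    exact hs.comp _ s.equivFin.symm.injective
  have h2 : Module.Finite K M := Module.rank_lt_aleph0_iff.1
    (lt_of_le_of_lt h1 (Cardinal.natCast_lt_aleph0))
  refine ⟨h2, ?_⟩
  rw [← finrank_eq_rank] at h1
  exact_mod_cast h1

/-- A subspace of dimension at most `N` is spanned by `N` elements. -/
lemma exists_span_fin {N : ℕ} (E : Submodule K M) [Module.Finite K E] (h : finrank K E ≤ N) :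
    ∃ e : Fin N → M, Submodule.span K (Set.range e) = E := by
  let b := Module.finBasis K E
  refine ⟨fun k => if hk : (k : ℕ) < finrank K E then (b ⟨k, hk⟩ : M) else 0, ?_⟩
  apply le_antisymm
  · rw [Submodule.span_le]
    rintro _ ⟨k, rfl⟩
    by_cases hk : (k : ℕ) < finrank K E
    · simp only [dif_pos hk]; exact (b ⟨k, hk⟩).2
    · simp only [dif_neg hk]; exact Submodule.zero_mem _
  · intro v hv
    have h1 : v = ∑ i, b.repr ⟨v, hv⟩ i • (b i : M) := by
      have h2 := congrArg Subtype.val (b.sum_repr ⟨v, hv⟩)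
      refine Eq.trans h2.symm ?_
      rw [Submodule.coe_sum]
      rfl
    rw [h1]
    refine Submodule.sum_mem _ fun i _ => Submodule.smul_mem _ _ (Submodule.subset_span ?_)
    exact ⟨⟨i, i.2.trans_le h⟩, by simp only [dif_pos i.2]⟩

end Lin

section Coef

variable {T T' : HodgeTheory ops} {J : Type u} {L : J → Type} [∀ a, Field (L a)]
  [∀ a, Algebra T.W.K (L a)] [∀ a, Algebra T'.W.K (L a)]
  (C : ∀ a, Comparison (baseW T.W (L a)) (baseW T'.W (L a))) {X Y P Q Z : 𝒱.Obj}

/-- If the dimensions of the spaces of coefficients on the powers of `X` are bounded by `N`, their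
union is an algebra spanned by `N` elements. -/
lemma exists_max [Nontrivial (T.W.H X)] {N : ℕ}
    (h : ∀ n, Module.Finite T.W.K (cf C (pw X n)) ∧ finrank T.W.K (cf C (pw X n)) ≤ N) :
    ∃ (E : Subalgebra T.W.K (∀ a, L a)) (e : Fin N → ∀ a, L a),
      Submodule.span T.W.K (Set.range e) = Subalgebra.toSubmodule E ∧
        ∀ n, cf C (pw X n) ≤ Subalgebra.toSubmodule E := by
  obtain ⟨n, hn⟩ : ∃ n, ∀ n', finrank T.W.K (cf C (pw X n')) ≤ finrank T.W.K (cf C (pw X n)) := by
    have h2 : (Set.range fun n => finrank T.W.K (cf C (pw X n))).Nonempty := ⟨_, 0, rfl⟩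
    have h3 : BddAbove (Set.range fun n => finrank T.W.K (cf C (pw X n))) :=
      ⟨N, by rintro _ ⟨n, rfl⟩; exact (h n).2⟩
    obtain ⟨n, hn⟩ := Nat.sSup_mem h2 h3
    refine ⟨n, fun n' => ?_⟩
    have h4 := le_csSup h3 ⟨n', rfl⟩
    rw [← hn] at h4
    exact h4
  have hall : ∀ n', cf C (pw X n') ≤ cf C (pw X n) := by
    intro n'
    have h1 := cf_pw_le_left C (X := X) n n'
    have := (h (n + n' + 1)).1
    rw [Submodule.eq_of_le_of_finrank_le h1 (hn _)]
    exact cf_pw_le_right C n n'
  have hX := nontrivial_pw' (T := T) (X := X) n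
  obtain ⟨e, he⟩ := @exists_span_fin _ _ _ _ _ N (cf C (pw X n)) (h n).1 (h n).2
  refine ⟨(cf C (pw X n)).toSubalgebra (cf_one C) fun v w hv hw =>
    hall _ (cf_pw_mul C n n hv hw), e, he, hall⟩

/-- **The comparison isomorphisms on the Hodge classes** are defined over an algebra of dimension
at most `N`. -/
theorem exists_algebra (D : Conjugates T)
    (hC : ∀ (Z : 𝒱.Obj) (i : ℕ) z, IsAbsHodge D Z i z → ∃ z', IsHodge T' Z i z' ∧
      ∀ a, nrm (C a) Z i z = em T'.W (L a) z') (hemb : ∀ a, Nonempty (L a →+* ℂ))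
    [Nontrivial (T.W.H X)] {N : ℕ}
    (hN : Tendsto (fun n => (hodgeDim T (pw X n) : ℝ) / absDim D (pw X n)) atTop
      (𝓝 (N : ℝ)))
    (hspan : ∀ a n j c, IsHodge T (pw X n) j c → nrm (C a) (pw X n) j c ∈
      Submodule.span (baseW T'.W (L a)).K
        {x | ∃ c', IsHodge T' (pw X n) j c' ∧ em T'.W (L a) c' = x}) :
    ∃ (E : Subalgebra T.W.K (∀ a, L a)) (e : Fin N → ∀ a, L a),
      Submodule.span T.W.K (Set.range e) = Subalgebra.toSubmodule E ∧
      ∀ n j c, IsHodge T (pw X n) j c → ∃ c' : Fin N → T'.W.H (pw X n),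
        (∀ k, IsHodge T' (pw X n) j (c' k)) ∧ ∀ a, nrm (C a) (pw X n) j c =
          ∑ k, (show (baseW T'.W (L a)).K from e k a) • em T'.W (L a) (c' k) := by
  obtain ⟨E, e, he, hE⟩ := exists_max C (X := X) (N := N) fun n =>
    rank_le_of_fin fun d v hv => cf_indep C D hC hemb hN
      (v := fun i => (v i : ∀ a, L a)) (hv.map' (cf C (pw X n)).subtype
        (Submodule.ker_subtype _)) fun i => (v i).2
  refine ⟨E, e, he, fun n j c hc => ?_⟩
  by_cases hj : j ≤ (pw X n).dim
  swap
  · refine ⟨0, fun k => IsHodge.zero, fun a => ?_⟩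
    rw [hodge_gt (by omega) hc, nrm_zero]
    simp only [Pi.zero_apply, em_zero, smul_zero, Finset.sum_const_zero]
  obtain ⟨r, h, y, hh, hy, hw⟩ := exists_coord_all T' (pw X n) hj
  have hq : ∀ i, ∃ q : Fin N → ℚ, ∀ a, val (C a) (pw X n) j c (y i) =
      ∑ k, (q k : L a) * e k a := by
    intro i
    have h1 := hE n (val_mem C hc (hy i))
    rw [← he, Submodule.mem_span_range_iff_exists_fun] at h1
    obtain ⟨q, hq⟩ := h1
    choose ρ hρ using fun k => T.rat (q k)
    refine ⟨ρ, fun a => ?_⟩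
    have h2 := congrFun hq a
    rw [Finset.sum_apply] at h2
    refine h2.symm.trans (Finset.sum_congr rfl fun k _ => ?_)
    rw [Pi.smul_apply, ← hρ k, Algebra.smul_def, map_ratCast]
  choose q hq using hq
  refine ⟨fun k => ∑ i, (q i k : T'.W.K) • h i, fun k => ?_, fun a => ?_⟩
  · exact (hodgeSub T' (pw X n) j).sum_mem fun i _ =>
      (hodgeSub T' (pw X n) j).smul_mem _ (hh i)
  · have h4 : ∀ f : Fin r → T'.W.H (pw X n),
        em T'.W (L a) (∑ i, f i) = ∑ i, em T'.W (L a) (f i) := by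
      intro f
      exact map_sum (AddMonoidHom.mk' (em T'.W (L a) (X := pw X n)) em_add) f _
    rw [hw (L a) _ (hspan a n j c hc)]
    simp only [h4, em_smul, ex_rat, Finset.smul_sum]
    rw [Finset.sum_comm]
    refine Finset.sum_congr rfl fun i _ => ?_
    have h5 : (baseW T'.W (L a)).tr (pw X n) (nrm (C a) (pw X n) j c * em T'.W (L a) (y i)) =
        ∑ k, (show (baseW T'.W (L a)).K from e k a) * (q i k : (baseW T'.W (L a)).K) := by
      refine (hq i a).trans ?_
      exact Finset.sum_congr rfl fun k _ => mul_comm _ _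
    rw [h5, Finset.sum_smul]
    exact Finset.sum_congr rfl fun k _ => mul_smul _ _ _

end Coef

end Pool.Agent.Y121.AH
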