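import Pool.Agent.Y121.AH.Dom

/-!
# The algebra of the coefficients of the comparison isomorphisms on the Hodge classes
-/

open CategoryTheory AlgebraicGeometry TensorProduct Filter Topology

universe u

namespace Pool.Agent.Y121.AH

open Module
open Pool.Agent.H914 Pool.Agent.H914.VarClass Pool.Agent.H914.VarClass.Obj
  Pool.Agent.H914.WeilCohomology
open Pool.Agent.Y133.Half
open Pool.Agent.Y129 (IsPowers IsStable)

variable {k : Type u} [Field k] {𝒱 : VarClass k} {ops : CycleOps 𝒱}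

lemma abs_nondeg {T : HodgeTheory ops} (D : Conjugates T) (Z : 𝒱.Obj) :
    Sys.Nondeg (absSys D) Z := by
  intro x hx h
  have h1 : x ∈ (absSys D).Num Z := ⟨hx, h⟩
  rw [abs_num] at h1
  exact (Submodule.mem_bot _).1 h1

section Powers

variable {T : HodgeTheory ops} (D : Conjugates T) (X : 𝒱.Obj)

/-- The operators of the system of the absolutely Hodge classes with complex coefficients. -/
noncomputable def opC (m n : ℕ) :
    Submodule ℂ (ℂ ⊗[T.W.K] T.W.H (pw X m) →ₗ[ℂ] ℂ ⊗[T.W.K] T.W.H (pw X n)) :=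
  ((absSys D).base ℂ).CP X m n

/-- The Hodge classes with complex coefficients. -/
noncomputable def hdC (T : HodgeTheory ops) (X : 𝒱.Obj) (n : ℕ) :
    Submodule ℂ (ℂ ⊗[T.W.K] T.W.H (pw X n)) :=
  ((hodgeSys T).C (pw X n)).baseChange ℂ

lemma isPowersC [Nontrivial (T.W.H X)] :
    IsPowers (H := fun n => ℂ ⊗[T.W.K] T.W.H (pw X n)) (opC D X)
      (fun n => absDim D (pw X n)) (finrank ℂ (ℂ ⊗[T.W.K] T.W.H X)) :=
  Sys.isPowers_base (S := absSys D) (X := X) (fun n => abs_nondeg D (pw X n)) ℂ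

lemma isStableC : IsStable (H := fun n => ℂ ⊗[T.W.K] T.W.H (pw X n)) (opC D X) (hdC T X) :=
  (Sys.stab_of_le (S := absSys D) (T := hodgeSys T) (abs_le_hodge D) (X := X)).base ℂ

lemma finrank_hdC (n : ℕ) : finrank ℂ (hdC T X n) = hodgeDim T (pw X n) :=
  Pool.Agent.Y129.finrank_baseChange ℂ ((hodgeSys T).C (pw X n))

end Powers

/-- Bases of the space of Hodge classes and dual classes. -/
lemma exists_coord_all (T : HodgeTheory ops) (X : 𝒱.Obj)
    {j : ℕ} (hj : j ≤ X.dim) : ∃ (r : ℕ) (h y : Fin r → T.W.H X), (∀ i, IsHodge T X j (h i)) ∧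
      (∀ i, y i ∈ PH T.W X 0) ∧ ∀ (L : Type) [Field L] [Algebra T.W.K L],
      ∀ w ∈ Submodule.span (baseW T.W L).K {x | ∃ c', IsHodge T X j c' ∧ em T.W L c' = x},
        w = ∑ i, (baseW T.W L).tr X (w * em T.W L (y i)) • em T.W L (h i) := by
  let b := Module.finBasis T.W.K (hodgeSub T X j)
  have hφ : ∀ i, ∃ φ : T.W.H X →ₗ[T.W.K] T.W.K, φ ∘ₗ (hodgeSub T X j).subtype = b.coord i :=
    fun i => LinearMap.exists_extend (b.coord i)
  choose φ hφ using hφ
  have hy : ∀ i, ∃ y : T.W.H X, ∀ x, T.W.tr X (x * y) = φ i x := fun i =>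
    exists_dual_class T.W (φ i)
  choose y hy using hy
  refine ⟨_, fun i => (b i : T.W.H X), fun i =>
    H914.proj (T.W.isInternal X) (2 * (X.dim - j)) (y i), fun i => (b i).2,
    fun i => PH.of' (by omega) (proj_mem _ _ _), ?_⟩
  intro L _ _ w hw
  induction hw using Submodule.span_induction with
  | mem w hw =>
    obtain ⟨c, hc, rfl⟩ := hw
    have h1 : ∀ i, (baseW T.W L).tr X (em T.W L c *
        em T.W L (H914.proj (T.W.isInternal X) (2 * (X.dim - j)) (y i))) =
        ex T.W L (b.repr ⟨c, hc⟩ i) := by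
      intro i
      rw [← em_mul, em_tr, tr_proj hj hc.1, hy]
      congr 1
      exact congrArg (fun f => f ⟨c, hc⟩) (hφ i)
    simp only [h1, ← em_smul]
    have h2 : c = ∑ i, b.repr ⟨c, hc⟩ i • (b i : T.W.H X) := by
      have h3 := congrArg Subtype.val (b.sum_repr ⟨c, hc⟩)
      refine Eq.trans h3.symm ?_
      rw [Submodule.coe_sum]
      rfl
    have h4 : ∀ (s : Finset (Fin (finrank T.W.K (hodgeSub T X j))))
        (f : Fin (finrank T.W.K (hodgeSub T X j)) → T.W.H X),
        em T.W L (∑ i ∈ s, f i) = ∑ i ∈ s, em T.W L (f i) := by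
      intro s f
      exact map_sum (AddMonoidHom.mk' (em T.W L (X := X)) em_add) f s
    conv_lhs => rw [h2]
    exact h4 _ _
  | zero => simp only [zero_mul, map_zero, zero_smul, Finset.sum_const_zero]
  | add w w' _ _ hw hw' =>
    simp only [add_mul, map_add, add_smul, Finset.sum_add_distrib]
    rw [← hw, ← hw']
  | smul r w _ hw =>
    simp only [smul_mul_assoc, map_smul, smul_assoc]
    rw [← Finset.smul_sum, ← hw]

section Coef

variable {T T' : HodgeTheory ops} {J : Type u} {L : J → Type} [∀ a, Field (L a)]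
  [∀ a, Algebra T.W.K (L a)] [∀ a, Algebra T'.W.K (L a)]
  (C : ∀ a, Comparison (baseW T.W (L a)) (baseW T'.W (L a))) {X Y P Q Z : 𝒱.Obj}

/-- The space of the coefficients of the comparison isomorphisms on the Hodge classes on `Z`. -/
def cf (Z : 𝒱.Obj) : Submodule T.W.K (∀ a, L a) :=
  Submodule.span T.W.K {v | ∃ j x, IsHodge T Z j x ∧ ∃ y ∈ PH T'.W Z 0,
    (fun a => val (C a) Z j x y) = v}

lemma val_mem {j : ℕ} {x : T.W.H Z} (hx : IsHodge T Z j x) {y : T'.W.H Z}
    (hy : y ∈ PH T'.W Z 0) : (fun a => val (C a) Z j x y) ∈ cf C Z :=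
  Submodule.subset_span ⟨j, x, hx, y, hy, rfl⟩

lemma xp_hodge {i j : ℕ} {x : T.W.H X} (hx : IsHodge T X i x) {y : T.W.H Y}
    (hy : IsHodge T Y j y) : IsHodge T (X.prod Y) (i + j) (xp T.W x y) :=
  (hx.map _).mul (hy.map _)

lemma xp_PH {W : WeilCohomology.{u, 0} ops} {x : W.H X} (hx : x ∈ PH W X 0) {y : W.H Y}
    (hy : y ∈ PH W Y 0) : xp W x y ∈ PH W (X.prod Y) 0 := by
  rw [xp]
  exact PH.mul (a := 0) (b := 0) (PH.map (fst X Y) hx) (PH.map (snd X Y) hy)

/-- Products of coefficients. -/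
lemma cf_mul {v w : ∀ a, L a} (hv : v ∈ cf C X) (hw : w ∈ cf C Y) : v * w ∈ cf C (X.prod Y) := by
  induction hv using Submodule.span_induction with
  | mem v hv =>
    obtain ⟨i, x, hx, y, hy, rfl⟩ := hv
    induction hw using Submodule.span_induction with
    | mem w hw =>
      obtain ⟨j, x', hx', y', hy', rfl⟩ := hw
      have h1 := val_mem C (xp_hodge hx hx') (xp_PH hy hy')
      have h2 : (fun a => val (C a) (X.prod Y) (i + j) (xp T.W x x') (xp T'.W y y')) =
          (fun a => val (C a) X i x y) * fun a => val (C a) Y j x' y' :=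
        funext fun a => val_xp (C a) x hy hx'.1 y'
      rwa [h2] at h1
    | zero => rw [mul_zero]; exact Submodule.zero_mem _
    | add w w' _ _ hw hw' => rw [mul_add]; exact Submodule.add_mem _ hw hw'
    | smul r w _ hw => rw [mul_smul_comm]; exact Submodule.smul_mem _ _ hw
  | zero => rw [zero_mul]; exact Submodule.zero_mem _
  | add v v' _ _ hv hv' => rw [add_mul]; exact Submodule.add_mem _ hv hv'
  | smul r v _ hv => rw [smul_mul_assoc]; exact Submodule.smul_mem _ _ hv

lemma cf_iso (θ : Q ≅ P) : cf C P ≤ cf C Q := by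
  apply Submodule.span_le.2
  rintro _ ⟨j, x, hx, y, hy, rfl⟩
  have h1 := val_mem C (hx.map θ.hom) (PH.push θ.inv hy)
  have h2 : (fun a => val (C a) Q j (T.W.map θ.hom x) (T'.W.push θ.inv y)) =
      fun a => val (C a) P j x y := funext fun a => val_iso (C a) θ hx.1 y
  rwa [h2] at h1

include C in
lemma nontrivial_of_cmp (a : J) [Nontrivial (T.W.H Z)] : Nontrivial (T'.W.H Z) := by
  by_contra hcon
  rw [not_nontrivial_iff_subsingleton] at hcon
  have h1 : ∀ w : (baseW T'.W (L a)).H Z, w = 0 := by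
    intro w
    refine tmul_ind (p := fun w => w = 0) rfl ?_ ?_ w
    · rintro x y rfl rfl; rw [add_zero]
    · intro l c
      rw [tmul_eq, Subsingleton.elim c 0, em_zero, smul_zero]
  have h2 := h1 ((C a).e Z (em T.W (L a) 1))
  rw [map_eq_zero_iff _ ((C a).e Z).injective] at h2
  exact one_ne_zero (em_injective h2)

lemma cf_one [Nontrivial (T.W.H Z)] : (1 : ∀ a, L a) ∈ cf C Z := by
  rcases isEmpty_or_nonempty J with hJ | ⟨⟨a₀⟩⟩
  · rw [Subsingleton.elim (1 : ∀ a, L a) 0]
    exact Submodule.zero_mem _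
  · have := nontrivial_of_cmp C (Z := Z) a₀
    obtain ⟨l, hl, hl1⟩ := exists_tr_hodge T' Z
    have h2 : IsHodge T Z 0 (1 : T.W.H Z) := by
      rw [← T.W.cl_fund Z]; exact IsHodge.cl Z.V.fundCycle_mem
    have h1 := val_mem C h2 (PH.of' (b := 0) (by omega) hl.1)
    have h3 : (fun a => val (C a) Z 0 1 l) = (1 : ∀ a, L a) :=
      funext fun a => val_one (C a) hl1
    rwa [h3] at h1

lemma nontrivial_pw' [Nontrivial (T.W.H X)] (n : ℕ) : Nontrivial (T.W.H (pw X n)) := by
  apply Module.nontrivial_of_finrank_pos (R := T.W.K)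
  rw [finrank_pw]
  exact pow_pos Module.finrank_pos _

lemma cf_pw_mul (m n : ℕ) {v w : ∀ a, L a} (hv : v ∈ cf C (pw X m)) (hw : w ∈ cf C (pw X n)) :
    v * w ∈ cf C (pw X (m + n + 1)) :=
  cf_iso C (pwAdd X m n).symm (cf_mul C hv hw)

lemma cf_pw_le_left [Nontrivial (T.W.H X)] (m n : ℕ) :
    cf C (pw X m) ≤ cf C (pw X (m + n + 1)) := by
  intro v hv
  have := nontrivial_pw' (T := T) (X := X) n
  have h1 := cf_pw_mul C m n hv (cf_one C)
  rwa [mul_one] at h1

lemma cf_pw_le_right [Nontrivial (T.W.H X)] (m n : ℕ) :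
    cf C (pw X n) ≤ cf C (pw X (m + n + 1)) := by
  intro v hv
  have := nontrivial_pw' (T := T) (X := X) m
  have h1 := cf_pw_mul C m n (cf_one C) hv
  rwa [one_mul] at h1

end Coef

end Pool.Agent.Y121.AH
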