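import Pool.Agent.Y129.Asym

/-!
# A bound for the number of natural transformations
-/

open Module LinearMap Finset Filter Topology

namespace Pool.Agent.Y121.AH

open Pool.Agent.Y129

section Core

variable {K : Type*} [Field K] {H : ℕ → Type*} [∀ n, AddCommGroup (H n)]
  [∀ n, Module K (H n)] {C : ∀ m n, Submodule K (H m →ₗ[K] H n)} [∀ n, Module.Finite K (H n)]
  [IsAlgClosed K] [CharZero K] {β : ℕ → ℕ} {b : ℕ}

/-- The multiplicities of a stable family in a power are bounded by its index. -/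
theorem sum_le_limit (h : IsPowers C β b) {𝒢 : ∀ n, Submodule K (H n)} (h𝒢 : IsStable C 𝒢)
    {N : ℕ} (hN : Tendsto (fun n => (finrank K (𝒢 n) : ℝ) / β n) atTop (𝓝 (N : ℝ))) (m : ℕ)
    {r : ℕ} {ε : Fin r → Module.End K (H m)} (hε : ∀ k, ε k ∈ C m m)
    (hε' : ∀ k, IsIdempotentElem (ε k))
    (hε'' : ∀ k l, nd C m m (sand C m m (ε k) (ε l)) = if k = l then 1 else 0) :
    ∑ k, finrank K (range (ε k)) * finrank K ((𝒢 m).map (ε k)) ≤ N := by
  have hpos : ∀ n, (0 : ℝ) < cmp β b n := fun n => by exact_mod_cast h.cmp_pos n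
  set S₀ : ℕ := ∑ k, finrank K (range (ε k)) * finrank K ((𝒢 m).map (ε k)) with hS₀
  have key : ∀ δ : ℝ, 0 < δ → ∀ᶠ n in atTop, ((S₀ : ℝ) - δ) ≤
      (finrank K (𝒢 (n + 1)) : ℝ) / cmp β b n := by
    intro δ hδ
    set g : ℕ := ∑ k, finrank K ((𝒢 m).map (ε k)) with hg
    set δ' : ℝ := δ / (g + 1) with hδ'
    have hδ'0 : 0 < δ' := by positivity
    have h1 : ∀ᶠ n in atTop, ∀ k, ((finrank K (range (ε k)) : ℝ) - δ') * cmp β b n ≤
        nd C m (n + 1) (sand C m (n + 1) LinearMap.id (ε k)) :=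
      eventually_all.2 (fun k => h.eventually m (hε k) (hε' k) hδ'0)
    filter_upwards [h1] with n hn
    rw [le_div_iff₀ (hpos n)]
    have h2 := sum_le_finrank h.cat m (n + 1) hε hε' hε'' h𝒢
    have h2' : (∑ k, (nd C m (n + 1)
        (sand C m (n + 1) LinearMap.id (ε k)) : ℝ) *
        finrank K ((𝒢 m).map (ε k))) ≤ finrank K (𝒢 (n + 1)) := by exact_mod_cast h2
    refine le_trans ?_ h2'
    have h3 : ∑ k, (((finrank K (range (ε k)) : ℝ) - δ') * cmp β b n) *
        (finrank K ((𝒢 m).map (ε k)) : ℝ) ≤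
        ∑ k, (nd C m (n + 1) (sand C m (n + 1) LinearMap.id (ε k)) : ℝ) *
        finrank K ((𝒢 m).map (ε k)) := by
      apply Finset.sum_le_sum
      intro k _
      exact mul_le_mul_of_nonneg_right (hn k) (Nat.cast_nonneg _)
    refine le_trans ?_ h3
    have h4 : ∑ k, (((finrank K (range (ε k)) : ℝ) - δ') * cmp β b n) *
        (finrank K ((𝒢 m).map (ε k)) : ℝ) =
        ((∑ k, (finrank K (range (ε k)) : ℝ) * finrank K ((𝒢 m).map (ε k))) -
          δ' * g) * cmp β b n := by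
      rw [hg, Nat.cast_sum, Finset.mul_sum, ← Finset.sum_sub_distrib, Finset.sum_mul]
      apply Finset.sum_congr rfl
      intro k _
      ring
    rw [h4]
    apply mul_le_mul_of_nonneg_right _ (hpos n).le
    rw [hS₀]
    push_cast
    have h5 : δ' * g ≤ δ := by
      rw [hδ', div_mul_eq_mul_div, div_le_iff₀ (by positivity)]
      nlinarith
    linarith
  have hcmp : Tendsto (fun n => (β (n + 1) : ℝ) / cmp β b n) atTop (𝓝 1) := by
    have h1 := h.tendsto_cmp 0
    rw [pow_zero] at h1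
    exact h1
  have hβ : ∀ᶠ n in atTop, (0 : ℝ) < β (n + 1) := by
    filter_upwards [hcmp.eventually (lt_mem_nhds (a := (0 : ℝ)) one_pos)] with n hn
    have h1 := (div_pos_iff_of_pos_right (hpos n)).1 hn
    exact h1
  have hlim : Tendsto (fun n => (finrank K (𝒢 (n + 1)) : ℝ) / cmp β b n) atTop
      (𝓝 (N : ℝ)) := by
    have h1 := (hN.comp (tendsto_add_atTop_nat 1)).mul hcmp
    rw [mul_one] at h1
    refine h1.congr' ?_
    filter_upwards [hβ] with n hn
    simp only [Function.comp_apply]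
    exact div_mul_div_cancel₀ hn.ne'
  have h1 : ∀ δ : ℝ, 0 < δ → (S₀ : ℝ) ≤ N + δ := by
    intro δ hδ
    have h2 := ge_of_tendsto hlim (key δ hδ)
    linarith
  have h2 : (S₀ : ℝ) ≤ N := le_of_forall_pos_le_add h1
  exact_mod_cast h2

/-- **The bound for the number of linearly independent natural transformations** defined on a stable
family. -/
theorem natural_le (h : IsPowers C β b) {𝒢 : ∀ n, Submodule K (H n)} (h𝒢 : IsStable C 𝒢)
    {N : ℕ} (hN : Tendsto (fun n => (finrank K (𝒢 n) : ℝ) / β n) atTop (𝓝 (N : ℝ)))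
    {H' : ℕ → Type*} [∀ n, AddCommGroup (H' n)] [∀ n, Module K (H' n)] {V : Type*}
    [AddCommGroup V] [Module K V] [Module.Finite K V] (φ : ∀ n, V →ₗ[K] (H n →ₗ[K] H' n))
    (φ₀ : ∀ n, H n →ₗ[K] H' n)
    (hnat : ∀ m n, ∀ f ∈ C m n, ∃ f' : H' m →ₗ[K] H' n,
      (∀ x, φ₀ n (f x) = f' (φ₀ m x)) ∧ ∀ c x, φ n c (f x) = f' (φ m c x))
    (hdom : ∀ n c x, ∃ y, φ n c x = φ₀ n y) (m : ℕ)
    (hinj : ∀ c, (∀ x ∈ 𝒢 m, φ m c x = 0) → c = 0) : finrank K V ≤ N := by
  obtain ⟨r, ε, hε, hε', hε'', hdec⟩ := exists_primitive h.cat m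
  refine le_trans ?_ (sum_le_limit h h𝒢 hN m hε hε' hε'')
  -- the images of the idempotents
  let W' : Fin r → Submodule K (H' m) := fun k => (range (ε k)).map (φ₀ m)
  have hW'fin : ∀ k, Module.Finite K (W' k) := fun k => inferInstance
  have hW' : ∀ k, finrank K (W' k) ≤ finrank K (range (ε k)) := fun k =>
    Submodule.finrank_map_le _ _
  have hmem : ∀ k c x, φ m c (ε k x) ∈ W' k := by
    intro k c x
    obtain ⟨f', h1, h2⟩ := hnat m m (ε k) (hε k)
    obtain ⟨y, hy⟩ := hdom m c x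
    rw [h2, hy, ← h1]
    exact ⟨ε k y, ⟨y, rfl⟩, rfl⟩
  have hmem' : ∀ k c, ∀ x ∈ (𝒢 m).map (ε k), φ m c x ∈ W' k := by
    rintro k c _ ⟨x, -, rfl⟩
    exact hmem k c x
  let Ψ : V →ₗ[K] (∀ k, (𝒢 m).map (ε k) →ₗ[K] W' k) :=
    { toFun := fun c k => ((φ m c).comp ((𝒢 m).map (ε k)).subtype).codRestrict (W' k)
        (fun x => hmem' k c x x.2)
      map_add' := by
        intro c d
        funext k
        ext x
        simp
      map_smul' := by
        intro s c
        funext k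
        ext x
        simp }
  have hΨ : Function.Injective Ψ := by
    rw [injective_iff_map_eq_zero]
    intro c hc
    apply hinj
    -- the kernels
    let 𝒦 : ∀ n, Submodule K (H n) := fun n => 𝒢 n ⊓ LinearMap.ker (φ n c)
    have h𝒦 : IsStable C 𝒦 := by
      intro a b' f hf x hx
      refine ⟨h𝒢 _ _ f hf x hx.1, ?_⟩
      obtain ⟨f', -, h2⟩ := hnat a b' f hf
      change φ b' c (f x) = 0
      have h3 : φ a c x = 0 := hx.2
      rw [h2, h3, map_zero]
    have h1 : ∀ k, (𝒦 m).map (ε k) = (𝒢 m).map (ε k) := by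
      intro k
      apply le_antisymm (Submodule.map_mono inf_le_left)
      rintro _ ⟨x, hx, rfl⟩
      refine ⟨ε k x, ⟨h𝒢 _ _ _ (hε k) x hx, ?_⟩, ?_⟩
      · have h2 := congrArg (fun F : ∀ k, (𝒢 m).map (ε k) →ₗ[K] W' k =>
          ((F k ⟨ε k x, ⟨x, hx, rfl⟩⟩ : W' k) : H' m)) hc
        exact h2
      · have h2 := congrArg (fun f : Module.End K (H m) => f x) (hε' k)
        exact h2
    have h2 : finrank K (𝒦 m) = finrank K (𝒢 m) := by
      rw [hdec 𝒦 h𝒦, hdec 𝒢 h𝒢]
      exact Finset.sum_congr rfl fun k _ => by rw [h1 k]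
    have h3 : 𝒦 m = 𝒢 m := Submodule.eq_of_le_of_finrank_eq inf_le_left h2
    intro x hx
    rw [← h3] at hx
    exact hx.2
  refine (LinearMap.finrank_le_finrank_of_injective hΨ).trans ?_
  rw [Module.finrank_pi_fintype]
  refine Finset.sum_le_sum fun k _ => ?_
  rw [Module.finrank_linearMap, mul_comm]
  exact Nat.mul_le_mul_right _ (hW' k)

end Core

end Pool.Agent.Y121.AH
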