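import Pool.Agent.H914R2.WBase2
import Pool.Agent.H914R2.KDefs
import Pool.Agent.Y133.Half.HalfDefs

/-!
# Hodge theories, comparison isomorphisms and absolutely Hodge classes: definitions

In the intended use `k` is an algebraically closed field of characteristic zero, the varieties are
the smooth projective ones, and for each embedding `ρ` of `k` into the complex numbers
`X ↦ H(ρ X, ℚ)` is a Hodge theory.
-/

open CategoryTheory AlgebraicGeometry TensorProduct

universe u

namespace Pool.Agent.Y121.AH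

open Pool.Agent.H914 Pool.Agent.H914.VarClass Pool.Agent.H914.VarClass.Obj
  Pool.Agent.H914.WeilCohomology
open Pool.Agent.Y133.Half (pw dimOf)

variable {k : Type u} [Field k] {𝒱 : VarClass k} {ops : CycleOps 𝒱}

/-- The class `1 ⊗ c` in the cohomology with coefficients extended to `L`. -/
noncomputable def em (W : WeilCohomology.{u, 0} ops) (L : Type) [Field L] [Algebra W.K L]
    {X : 𝒱.Obj} (c : W.H X) : (baseW W L).H X := (1 : L) ⊗ₜ[W.K] c

/-- Subspaces `pq X p q`, for integers `p` and `q`, of the cohomology of `X` with complex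
coefficients. -/
abbrev Types (W : WeilCohomology.{u, 0} ops) [Algebra W.K ℂ] :=
  ∀ X : 𝒱.Obj, ℤ → ℤ → Submodule (baseW W ℂ).K ((baseW W ℂ).H X)

/-- The polarisation: a divisor `D` on `X` whose class satisfies the hard Lefschetz theorem and the
Hodge-Riemann relations for the primitive rational classes of type `(j, j)`. -/
def Polarises (W : WeilCohomology.{u, 0} ops) [Algebra W.K ℂ] (pq : Types W) (X : 𝒱.Obj)
    (D : X.Cycles) : Prop :=
  X.IsCyc 1 D ∧ HardLefschetz W X D ∧
    ∀ j : ℕ, 2 * j ≤ X.dim → ∀ x ∈ W.gr X (2 * j), em W ℂ x ∈ pq X j j →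
      W.cl X D ^ (X.dim - 2 * j + 1) * x = 0 → x ≠ 0 →
      ∃ r : ℚ, 0 < r ∧ (-1) ^ j * W.tr X (W.cl X D ^ (X.dim - 2 * j) * x * x) = (r : W.K)

/-- The properties of the Hodge decomposition, `pq X p q` is `H^(p,q)(X)`. -/
structure IsHodgeDecomposition (W : WeilCohomology.{u, 0} ops) [Algebra W.K ℂ] (pq : Types W) :
    Prop where
  span : ∀ {X : 𝒱.Obj} {i : ℕ} {c : W.H X}, c ∈ W.gr X i →
    em W ℂ c ∈ ⨆ r : {r : ℤ × ℤ // r.1 + r.2 = i}, pq X r.1.1 r.1.2
  le : ∀ (X : 𝒱.Obj) {p q : ℤ} {i : ℕ}, p + q = i → pq X p q ≤ (baseW W ℂ).gr X i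
  indep : ∀ X : 𝒱.Obj, iSupIndep fun r : ℤ × ℤ => pq X r.1 r.2
  mul : ∀ {X : 𝒱.Obj} {p q r s : ℤ} {a b : (baseW W ℂ).H X}, a ∈ pq X p q → b ∈ pq X r s →
    a * b ∈ pq X (p + r) (q + s)
  map : ∀ {X Y : 𝒱.Obj} (f : X ⟶ Y) {p q : ℤ} {b : (baseW W ℂ).H Y}, b ∈ pq Y p q →
    (baseW W ℂ).map f b ∈ pq X p q
  push : ∀ {X Y : 𝒱.Obj} (f : X ⟶ Y) {p q : ℤ} {a : (baseW W ℂ).H X}, a ∈ pq X p q →
    (baseW W ℂ).push f a ∈ pq Y (p + Y.dim - X.dim) (q + Y.dim - X.dim)
  cyc : ∀ {X : 𝒱.Obj} {j : ℕ} {z : X.Cycles}, X.IsCyc j z → em W ℂ (W.cl X z) ∈ pq X j j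
  polar : ∀ X : 𝒱.Obj, ∃ D : X.Cycles, Polarises W pq X D

/-- A Hodge theory: a Weil cohomology theory with rational coefficients and a Hodge decomposition
of its cohomology with complex coefficients. -/
structure HodgeTheory (ops : CycleOps 𝒱) where
  /-- the cohomology with rational coefficients -/
  W : WeilCohomology.{u, 0} ops
  rat : ∀ r : W.K, ∃ q : ℚ, (q : W.K) = r
  [alg : Algebra W.K ℂ]
  /-- the spaces `H^(p,q)(X)` -/
  pq : Types W
  dec : IsHodgeDecomposition W pq

attribute [instance] HodgeTheory.alg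

/-- The Hodge classes of degree `2 j`. -/
def IsHodge (T : HodgeTheory ops) (X : 𝒱.Obj) (j : ℕ) (c : T.W.H X) : Prop :=
  c ∈ T.W.gr X (2 * j) ∧ em T.W ℂ c ∈ T.pq X j j

/-- A comparison isomorphism between two Weil cohomology theories `V` and `V'`: semilinear ring
isomorphisms which preserve the degrees, commute with pull-backs and respect the classes of
algebraic cycles and the orientations up to the powers of a constant `c` (since the Tate twists are
suppressed; `c` describes the effect on the Tate twist). -/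
structure Comparison (V V' : WeilCohomology.{u, 0} ops) where
  /-- the isomorphism of the coefficients -/
  s : V.K ≃+* V'.K
  /-- the effect on the Tate twist -/
  c : V'.K
  ne : c ≠ 0
  /-- the isomorphisms -/
  e : ∀ X : 𝒱.Obj, V.H X ≃+* V'.H X
  semi : ∀ (X : 𝒱.Obj) (l : V.K) (a : V.H X), e X (l • a) = s l • e X a
  gr : ∀ {X : 𝒱.Obj} {i : ℕ} {a : V.H X}, e X a ∈ V'.gr X i ↔ a ∈ V.gr X i
  nat : ∀ {X Y : 𝒱.Obj} (f : X ⟶ Y) (b : V.H Y), e X (V.map f b) = V'.map f (e Y b)
  cyc : ∀ {X : 𝒱.Obj} {j : ℕ} {z : X.Cycles}, X.IsCyc j z → e X (V.cl X z) = c ^ j • V'.cl X z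
  tr : ∀ (X : 𝒱.Obj) (a : V.H X), V'.tr X (e X a) = c ^ X.dim * s (V.tr X a)

/-- Conjugates of a Hodge theory: a family of Hodge theories with comparison isomorphisms, after
extension of the coefficients to fields which can be embedded into the complex numbers. (The
coefficients `L a` are `ℚ_ℓ` for `ℓ`-adic cohomology and `ℂ` for de Rham cohomology.) -/
structure Conjugates (T : HodgeTheory ops) where
  /-- the index set of the conjugate theories -/
  ι : Type u
  /-- the conjugate theories -/
  T' : ι → HodgeTheory ops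
  /-- the index set of the comparison isomorphisms -/
  J : Type u
  /-- the theory to which `T` is compared -/
  t : J → ι
  /-- the coefficients -/
  L : J → Type
  [field : ∀ a, Field (L a)]
  [alg : ∀ a, Algebra T.W.K (L a)]
  [alg' : ∀ a, Algebra (T' (t a)).W.K (L a)]
  emb : ∀ a, Nonempty (L a →+* ℂ)
  /-- the comparison isomorphisms -/
  cmp : ∀ a, Comparison (baseW T.W (L a)) (baseW (T' (t a)).W (L a))

attribute [instance] Conjugates.field Conjugates.alg Conjugates.alg'

/-- The class `c'` corresponds to the class `c` of degree `2 j`, with respect to the comparison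
isomorphism with index `a`. -/
def Corresponds {T : HodgeTheory ops} (D : Conjugates T) (a : D.J) (X : 𝒱.Obj) (j : ℕ)
    (c : T.W.H X) (c' : (D.T' (D.t a)).W.H X) : Prop :=
  (D.cmp a).e X (em T.W (D.L a) c) = (D.cmp a).c ^ j • em (D.T' (D.t a)).W (D.L a) c'

/-- The absolutely Hodge classes of degree `2 j`: the Hodge classes which correspond to Hodge
classes in all conjugate theories, with respect to all comparison isomorphisms. -/
def IsAbsHodge {T : HodgeTheory ops} (D : Conjugates T) (X : 𝒱.Obj) (j : ℕ) (c : T.W.H X) :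
    Prop :=
  IsHodge T X j c ∧ ∃ c' : ∀ i, (D.T' i).W.H X, (∀ i, IsHodge (D.T' i) X j (c' i)) ∧
    ∀ a, Corresponds D a X j c (c' (D.t a))

/-- The dimension of the space spanned by the Hodge classes of all degrees. -/
noncomputable def hodgeDim (T : HodgeTheory ops) (X : 𝒱.Obj) : ℕ :=
  dimOf T.W {c | ∃ j, IsHodge T X j c}

/-- The dimension of the space spanned by the absolutely Hodge classes of all degrees. -/
noncomputable def absDim {T : HodgeTheory ops} (D : Conjugates T) (X : 𝒱.Obj) : ℕ :=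
  dimOf T.W {c | ∃ j, IsAbsHodge D X j c}

/-- Every Hodge class of degree `2 j` on `X` is mapped by the comparison isomorphism with index `a`
into the space spanned by the Hodge classes of degree `2 j` of the conjugate theory. -/
def SpanPreserved {T : HodgeTheory ops} (D : Conjugates T) (a : D.J) (X : 𝒱.Obj) (j : ℕ) : Prop :=
  ∀ c, IsHodge T X j c → (D.cmp a).e X (em T.W (D.L a) c) ∈
    Submodule.span (baseW (D.T' (D.t a)).W (D.L a)).K
      {x | ∃ c', IsHodge (D.T' (D.t a)) X j c' ∧ em (D.T' (D.t a)).W (D.L a) c' = x}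

end Pool.Agent.Y121.AH
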