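import Pool.Agent.Y121.AH.Coef

/-!
# The dimension of the algebra of the coefficients
-/

open CategoryTheory AlgebraicGeometry TensorProduct Filter Topology

universe u

namespace Pool.Agent.Y121.AH

open Module
open Pool.Agent.H914 Pool.Agent.H914.VarClass Pool.Agent.H914.VarClass.Obj
  Pool.Agent.H914.WeilCohomology
open Pool.Agent.Y133.Half
open Pool.Agent.Y129 (IsPowers IsStable)

variable {k : Type u} [Field k] {𝒱 : VarClass k} {ops : CycleOps 𝒱}

section Coef

variable {T T' : HodgeTheory ops} {J : Type u} {L : J → Type} [∀ a, Field (L a)]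
  [∀ a, Algebra T.W.K (L a)] [∀ a, Algebra T'.W.K (L a)]
  (C : ∀ a, Comparison (baseW T.W (L a)) (baseW T'.W (L a))) {X Y P Q Z : 𝒱.Obj}

lemma tr_sum_nl {d : ℕ} (f : Fin d → ((∀ a, L a) →ₗ[T.W.K] ℂ)) (c : Fin d → ℂ)
    (u : ℂ ⊗[T.W.K] T.W.H X) (y : T'.W.H X) :
    (CW T').tr X ((show (CW T').H X from ∑ i, c i • nl C (f i) X u) * em T'.W ℂ y) =
      (show (CW T').K from ∑ i, c i * flC C (f i) X y u) := by
  have h : ∀ s : Finset (Fin d),
      (CW T').tr X ((show (CW T').H X from ∑ i ∈ s, c i • nl C (f i) X u) * em T'.W ℂ y) =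
      (show (CW T').K from ∑ i ∈ s, c i * flC C (f i) X y u) := by
    classical
    intro s
    induction s using Finset.induction_on with
    | empty =>
      have e1 : (show (CW T').H X from ∑ i ∈ (∅ : Finset (Fin d)), c i • nl C (f i) X u) = 0 :=
        Finset.sum_empty
      rw [e1, zero_mul, map_zero]
      exact Finset.sum_empty.symm
    | insert i s hi ih =>
      have e1 : (show (CW T').H X from ∑ i ∈ insert i s, c i • nl C (f i) X u) =
          (show (CW T').K from c i) • (show (CW T').H X from nl C (f i) X u) +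
            (show (CW T').H X from ∑ i ∈ s, c i • nl C (f i) X u) := Finset.sum_insert hi
      rw [e1, add_mul, map_add, ih, smul_mul_assoc, map_smul, tr_nl]
      exact (Finset.sum_insert (f := fun i => c i * flC C (f i) X y u) hi).symm
  exact h Finset.univ

/-- There are at most `N` linearly independent coefficients on the powers of `X`. -/
lemma cf_indep (D : Conjugates T)
    (hC : ∀ (Z : 𝒱.Obj) (i : ℕ) z, IsAbsHodge D Z i z → ∃ z', IsHodge T' Z i z' ∧
      ∀ a, nrm (C a) Z i z = em T'.W (L a) z') (hemb : ∀ a, Nonempty (L a →+* ℂ))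
    [Nontrivial (T.W.H X)] {N : ℕ}
    (hN : Tendsto (fun n => (hodgeDim T (pw X n) : ℝ) / absDim D (pw X n)) atTop
      (𝓝 (N : ℝ))) {n d : ℕ} {v : Fin d → ∀ a, L a} (hv : LinearIndependent T.W.K v)
    (hvn : ∀ i, v i ∈ cf C (pw X n)) : d ≤ N := by
  rcases isEmpty_or_nonempty J with hJ | ⟨⟨a₀⟩⟩
  · rcases Nat.eq_zero_or_pos d with hd | hd
    · omega
    · exact absurd (Subsingleton.elim _ _) (hv.ne_zero (⟨0, hd⟩ : Fin d))
  obtain ⟨τ⟩ := hemb a₀
  obtain ⟨g, hg⟩ := LinearMap.exists_leftInverse_of_injective (Fintype.linearCombination T.W.K v)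
    (LinearMap.ker_eq_bot.2 (linearIndependent_iff_injective_fintypeLinearCombination.1 hv))
  have hgv : ∀ i, g (v i) = Pi.single i 1 := by
    intro i
    have h1 := congrArg (fun F => F (Pi.single i (1 : T.W.K))) hg
    simpa using h1
  let f : Fin d → ((∀ a, L a) →ₗ[T.W.K] ℂ) := fun i =>
    (Algebra.linearMap T.W.K ℂ) ∘ₗ LinearMap.proj i ∘ₗ g
  have hfv : ∀ i j, f i (v j) = if i = j then 1 else 0 := by
    intro i j
    change algebraMap T.W.K ℂ (g (v j) i) = _
    rw [hgv, Pi.single_apply]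
    split_ifs <;> simp
  have hN' : Tendsto (fun n => (finrank ℂ (hdC T X n) : ℝ) / absDim D (pw X n)) atTop
      (𝓝 (N : ℝ)) := by
    simp only [finrank_hdC]
    exact hN
  have key := natural_le (isPowersC D X) (isStableC D X) hN'
    (H' := fun n => ℂ ⊗[T'.W.K] T'.W.H (pw X n)) (V := Fin d → ℂ)
    (fun n => ∑ i, (LinearMap.proj i : (Fin d → ℂ) →ₗ[ℂ] ℂ).smulRight (nl C (f i) (pw X n)))
    (fun n => nl C (ev T a₀ τ) (pw X n)) ?_ ?_ n ?_
  · rwa [Module.finrank_fin_fun] at key
  · intro m n F hF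
    obtain ⟨z, hz, hzF⟩ := Sys.mem_Op.1 hF
    have hF' : ∀ x, F x = (CW T).corr z x := fun x => (congrArg (fun G => G x) hzF).symm
    obtain ⟨z', hz'⟩ := nl_op C D hC hz
    refine ⟨(CW T').corr z', fun x => ?_, fun c x => ?_⟩
    · rw [hF']
      exact hz' _ x
    · simp only [LinearMap.sum_apply, LinearMap.smulRight_apply, LinearMap.proj_apply,
        LinearMap.smul_apply]
      rw [hF']
      refine Eq.trans ?_ (map_sum ((CW T').corr z' : ℂ ⊗[T'.W.K] T'.W.H (pw X m) →ₗ[ℂ]
        ℂ ⊗[T'.W.K] T'.W.H (pw X n)) _ _).symm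
      refine Finset.sum_congr rfl fun i _ => ?_
      refine Eq.trans ?_ (map_smul ((CW T').corr z' : ℂ ⊗[T'.W.K] T'.W.H (pw X m) →ₗ[ℂ]
        ℂ ⊗[T'.W.K] T'.W.H (pw X n)) _ _).symm
      exact congrArg (fun w : ℂ ⊗[T'.W.K] T'.W.H (pw X n) => c i • w) (hz' (f i) x)
  · intro n c x
    choose y hy using fun i => nl_dom C a₀ τ (f i) x
    refine ⟨∑ i, c i • y i, ?_⟩
    simp only [LinearMap.sum_apply, LinearMap.smulRight_apply, LinearMap.proj_apply,
      LinearMap.smul_apply, map_sum, map_smul]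
    exact Finset.sum_congr rfl fun i _ => by rw [hy]
  · intro c hc
    let F : (∀ a, L a) →ₗ[T.W.K] ℂ := ∑ i, (LinearMap.mulLeft ℂ (c i)).restrictScalars T.W.K ∘ₗ f i
    have hF : ∀ w, F w = ∑ i, c i * f i w := by
      intro w
      simp [F, LinearMap.sum_apply]
    have hker : cf C (pw X n) ≤ LinearMap.ker F := by
      apply Submodule.span_le.2
      rintro _ ⟨j, x, hx, y, hy, rfl⟩
      change F _ = 0
      have h1 := hc ((1 : ℂ) ⊗ₜ[T.W.K] x) (Submodule.tmul_mem_baseChange_of_mem (1 : ℂ)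
        (ClassPred.sp_of (Q := hodgePred T) hx))
      simp only [LinearMap.sum_apply, LinearMap.smulRight_apply, LinearMap.proj_apply,
        LinearMap.smul_apply] at h1
      have h2 := tr_sum_nl C f c ((1 : ℂ) ⊗ₜ[T.W.K] x) y
      have h3 : (CW T').tr (pw X n) ((show (CW T').H (pw X n) from
          ∑ i, c i • nl C (f i) (pw X n) ((1 : ℂ) ⊗ₜ[T.W.K] x)) * em T'.W ℂ y) = 0 := by
        have h4 : (show (CW T').H (pw X n) from
          ∑ i, c i • nl C (f i) (pw X n) ((1 : ℂ) ⊗ₜ[T.W.K] x)) = 0 := h1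
        rw [h4, zero_mul, map_zero]
      rw [h2] at h3
      rw [hF]
      refine Eq.trans ?_ h3
      refine Finset.sum_congr rfl fun i _ => ?_
      rw [flC_tmul, one_mul]
      congr 2
      exact funext fun a => (tot_hom (C a) hx.1 y).symm
    funext i
    have h1 : F (v i) = 0 := hker (hvn i)
    rw [hF, Finset.sum_eq_single i] at h1
    · rw [hfv, if_pos rfl, mul_one] at h1
      exact h1
    · intro j _ hj
      rw [hfv, if_neg hj, mul_zero]
    · intro h
      exact absurd (Finset.mem_univ i) h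

end Coef

end Pool.Agent.Y121.AH
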