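import Pool.Agent.Y121.AH.Nl
import Pool.Agent.Y133.Half.PairPred

/-!
# The bound for the coefficients of the comparison isomorphisms
-/

open CategoryTheory AlgebraicGeometry TensorProduct Filter Topology

universe u

namespace Pool.Agent.Y121.AH

open Module
open Pool.Agent.H914 Pool.Agent.H914.VarClass Pool.Agent.H914.VarClass.Obj
  Pool.Agent.H914.WeilCohomology
open Pool.Agent.Y133.Half

variable {k : Type u} [Field k] {𝒱 : VarClass k} {ops : CycleOps 𝒱}

section PsiTr

variable {W : WeilCohomology.{u, 0} ops} {L M : Type} [Field L] [Field M] [Algebra W.K L]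
  [Algebra W.K M] (τ : L →ₐ[W.K] M) {X : 𝒱.Obj}

lemma psi_tr (w : (baseW W L).H X) :
    (baseW W M).tr X (psi W τ X w) = kap W τ ((baseW W L).tr X w) := by
  refine tmul_ind (p := fun w => (baseW W M).tr X (psi W τ X w) =
    kap W τ ((baseW W L).tr X w)) ?_ ?_ ?_ w
  · rw [map_zero, map_zero, map_zero, map_zero]
  · intro x y hx hy; rw [map_add, map_add, map_add, map_add, hx, hy]
  · intro l a
    rw [tmul_eq, psi_smul, psi_em, map_smul, map_smul, em_tr, em_tr, smul_eq_mul, smul_eq_mul,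
      map_mul]
    congr 1
    exact (τ.commutes _).symm

end PsiTr

section Ev

variable {T T' : HodgeTheory ops} {J : Type u} {L : J → Type} [∀ a, Field (L a)]
  [∀ a, Algebra T.W.K (L a)] [∀ a, Algebra T'.W.K (L a)]
  (C : ∀ a, Comparison (baseW T.W (L a)) (baseW T'.W (L a))) {X Y P Q Z : 𝒱.Obj}

/-- The linear form given by an embedding of one of the coefficient fields. -/
noncomputable def ev (T : HodgeTheory ops) {J : Type u} {L : J → Type} [∀ a, Field (L a)]
    [∀ a, Algebra T.W.K (L a)] (a : J) (τ : L a →+* ℂ) : (∀ a, L a) →ₗ[T.W.K] ℂ :=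
  (ratAlg T τ).toLinearMap ∘ₗ LinearMap.proj a

lemma nl_ev (a : J) (τ : L a →+* ℂ) {l : ℕ} {x : T.W.H X} (hx : x ∈ T.W.gr X (2 * l)) (μ : ℂ) :
    (show (CW T').H X from nl C (ev T a τ) X (μ ⊗ₜ[T.W.K] x)) =
      (show (CW T').K from μ) • psi T'.W (ratAlg T' τ) X (nrm (C a) X l x) := by
  apply cw_ext
  intro y
  rw [tr_nl, flC_tmul, smul_mul_assoc, map_smul, ← psi_em (ratAlg T' τ), ← map_mul, psi_tr,
    smul_eq_mul]
  change μ * τ (Tot C X x y a) = μ * τ ((baseW T'.W (L a)).tr X (nrm (C a) X l x *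
    em T'.W (L a) y))
  rw [Tot, tot_hom (C a) hx]
  rfl

/-- The natural map given by an embedding is surjective in the even degrees. -/
lemma nl_surj (a : J) (τ : L a →+* ℂ) {l : ℕ} {w : (CW T').H X} (hw : w ∈ (CW T').gr X (2 * l)) :
    ∃ v, (show (CW T').H X from nl C (ev T a τ) X v) = w := by
  let G : (baseW T.W (L a)).H X → (CW T').H X := fun w =>
    psi T'.W (ratAlg T' τ) X (((C a).c ^ l)⁻¹ • (C a).e X w)
  have hG0 : G 0 = 0 := by
    change psi T'.W (ratAlg T' τ) X (((C a).c ^ l)⁻¹ • (C a).e X 0) = 0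
    rw [map_zero, smul_zero, map_zero]
  have hGadd : ∀ w w', G (w + w') = G w + G w' := by
    intro w w'
    change psi T'.W (ratAlg T' τ) X (((C a).c ^ l)⁻¹ • (C a).e X (w + w')) =
      psi T'.W (ratAlg T' τ) X (((C a).c ^ l)⁻¹ • (C a).e X w) +
        psi T'.W (ratAlg T' τ) X (((C a).c ^ l)⁻¹ • (C a).e X w')
    rw [map_add, smul_add, map_add]
  have key : ∀ w ∈ (baseW T.W (L a)).gr X (2 * l),
      ∃ v, (show (CW T').H X from nl C (ev T a τ) X v) = G w := by
    intro w hw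
    have hw' : w ∈ (T.W.gr X (2 * l)).baseChange (L a) := hw
    refine base_induction (P := fun w : L a ⊗[T.W.K] T.W.H X =>
      ∃ v, (show (CW T').H X from nl C (ev T a τ) X v) =
        G (show (baseW T.W (L a)).H X from w)) ?_ ?_ ?_ hw'
    · exact ⟨0, (map_zero (nl C (ev T a τ) X)).trans hG0.symm⟩
    · rintro x y ⟨v, hv⟩ ⟨v', hv'⟩
      refine ⟨v + v', ?_⟩
      refine (map_add (nl C (ev T a τ) X) v v').trans ?_
      refine Eq.trans ?_ (hGadd _ _).symm
      exact congrArg₂ (fun a b : ℂ ⊗[T'.W.K] T'.W.H X => a + b) hv hv'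
    · intro s x hx
      have h2 : ((C a).c ^ l)⁻¹ • (C a).e X (show (baseW T.W (L a)).H X from
          (s ⊗ₜ[T.W.K] x)) = (C a).s s • nrm (C a) X l x := by
        rw [tmul_eq, (C a).semi, nrm, smul_comm]
      have h3 : G (show (baseW T.W (L a)).H X from (s ⊗ₜ[T.W.K] x)) =
          psi T'.W (ratAlg T' τ) X ((C a).s s • nrm (C a) X l x) :=
        congrArg (psi T'.W (ratAlg T' τ) X) h2
      refine ⟨(τ ((C a).s s) : ℂ) ⊗ₜ[T.W.K] x, ?_⟩
      rw [nl_ev C a τ hx, h3, psi_smul]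
      rfl
  have hw' : w ∈ (T'.W.gr X (2 * l)).baseChange ℂ := hw
  refine base_induction (P := fun w : ℂ ⊗[T'.W.K] T'.W.H X =>
    ∃ v, (show (CW T').H X from nl C (ev T a τ) X v) = (show (CW T').H X from w)) ?_ ?_ ?_ hw'
  · exact ⟨0, map_zero (nl C (ev T a τ) X)⟩
  · rintro x y ⟨v, hv⟩ ⟨v', hv'⟩
    refine ⟨v + v', ?_⟩
    refine (map_add (nl C (ev T a τ) X) v v').trans ?_
    exact congrArg₂ (fun a b : ℂ ⊗[T'.W.K] T'.W.H X => a + b) hv hv'
  · intro μ y hy
    obtain ⟨w', hw'⟩ := ((C a).e X).surjective ((C a).c ^ l • em T'.W (L a) y)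
    have h1 : w' ∈ (baseW T.W (L a)).gr X (2 * l) := by
      rw [← (C a).gr, hw']
      exact Submodule.smul_mem _ _ (em_gr hy)
    obtain ⟨v, hv⟩ := key w' h1
    have h3 : G w' = em T'.W ℂ y := by
      change psi T'.W (ratAlg T' τ) X (((C a).c ^ l)⁻¹ • (C a).e X w') = _
      rw [hw', inv_smul_smul₀ (cpow (C a) l), psi_em]
    rw [h3] at hv
    refine ⟨μ • v, ?_⟩
    refine (map_smul (nl C (ev T a τ) X) μ v).trans ?_
    have h2 : (μ • ((1 : ℂ) ⊗ₜ[T'.W.K] y) : ℂ ⊗[T'.W.K] T'.W.H X) = μ ⊗ₜ[T'.W.K] y := by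
      rw [TensorProduct.smul_tmul', smul_eq_mul, mul_one]
    refine Eq.trans ?_ h2
    exact congrArg (fun a : ℂ ⊗[T'.W.K] T'.W.H X => μ • a) hv

/-- The values of all natural maps are values of the natural map given by an embedding. -/
lemma nl_dom (a : J) (τ : L a →+* ℂ) (f : (∀ a, L a) →ₗ[T.W.K] ℂ) (u : ℂ ⊗[T.W.K] T.W.H X) :
    ∃ v, nl C f X u = nl C (ev T a τ) X v := by
  refine ct_ind (p := fun u => ∃ v, nl C f X u = nl C (ev T a τ) X v) ?_ ?_ ?_ u
  · exact ⟨0, by rw [map_zero, map_zero]⟩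
  · rintro u u' ⟨v, hv⟩ ⟨v', hv'⟩
    exact ⟨v + v', by rw [map_add, map_add, hv, hv']⟩
  · intro μ x
    refine gr_induction (T.W.isInternal X)
      (p := fun x => ∃ v, nl C f X (μ ⊗ₜ[T.W.K] x) = nl C (ev T a τ) X v) ?_ ?_ x
    · intro i x hx
      rcases Nat.even_or_odd' i with ⟨l, hl | hl⟩
      · subst hl
        obtain ⟨v, hv⟩ := nl_surj C a τ (nl_gr C f hx μ)
        exact ⟨v, hv.symm⟩
      · subst hl
        exact ⟨0, by rw [nl_odd C f (PH.of' (b := 1) (by omega) hx) μ, map_zero]⟩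
    · rintro x y ⟨v, hv⟩ ⟨v', hv'⟩
      exact ⟨v + v', by rw [TensorProduct.tmul_add, map_add, map_add, hv, hv']⟩

/-- The naturality for all operators of the system of the absolutely Hodge classes. -/
lemma nl_op (D : Conjugates T)
    (hC : ∀ (Z : 𝒱.Obj) (i : ℕ) z, IsAbsHodge D Z i z → ∃ z', IsHodge T' Z i z' ∧
      ∀ a, nrm (C a) Z i z = em T'.W (L a) z') {z : (CW T).H (P.prod Q)}
    (hz : z ∈ ((absSys D).base ℂ).C (P.prod Q)) :
    ∃ z' : (CW T').H (P.prod Q), ∀ f u, (show (CW T').H Q from nl C f Q ((CW T).corr z u)) =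
      (CW T').corr z' (show (CW T').H P from nl C f P u) := by
  have hz' : z ∈ ((absSys D).C (P.prod Q)).baseChange ℂ := hz
  refine base_induction (P := fun z : ℂ ⊗[T.W.K] T.W.H (P.prod Q) =>
    ∃ z' : (CW T').H (P.prod Q), ∀ f u, (show (CW T').H Q from nl C f Q
      ((CW T).corr (show (CW T).H (P.prod Q) from z) u)) =
      (CW T').corr z' (show (CW T').H P from nl C f P u)) ?_ ?_ ?_ hz'
  · refine ⟨0, fun f u => ?_⟩
    have h1 : (CW T).corr (show (CW T).H (P.prod Q) from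
      (0 : ℂ ⊗[T.W.K] T.W.H (P.prod Q))) = 0 := corr_zero (CW T)
    have h2 : (CW T).corr (show (CW T).H (P.prod Q) from
      (0 : ℂ ⊗[T.W.K] T.W.H (P.prod Q))) u = 0 := by rw [h1]; rfl
    rw [h2, corr_zero]
    exact map_zero (nl C f Q)
  · rintro x y ⟨x', hx'⟩ ⟨y', hy'⟩
    refine ⟨x' + y', fun f u => ?_⟩
    have h1 : (CW T).corr (show (CW T).H (P.prod Q) from
        (x + y : ℂ ⊗[T.W.K] T.W.H (P.prod Q))) u =
        (CW T).corr (show (CW T).H (P.prod Q) from x) u +
        (CW T).corr (show (CW T).H (P.prod Q) from y) u := by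
      have h2 := corr_add (W := CW T) (show (CW T).H (P.prod Q) from x)
        (show (CW T).H (P.prod Q) from y)
      exact congrArg (fun g => g u) h2
    rw [h1, corr_add, LinearMap.add_apply, ← hx', ← hy']
    exact map_add (nl C f Q) _ _
  · intro μ z hz
    have hz0 : z ∈ (absPred D).sp (P.prod Q) := hz
    have key : ∃ z' : (CW T').H (P.prod Q), ∀ f u, (show (CW T').H Q from nl C f Q
        ((CW T).corr (em T.W ℂ z) u)) =
        (CW T').corr z' (show (CW T').H P from nl C f P u) := by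
      refine ClassPred.sp_ind (Q := absPred D) (q := fun z =>
        ∃ z' : (CW T').H (P.prod Q), ∀ f u, (show (CW T').H Q from nl C f Q
          ((CW T).corr (em T.W ℂ z) u)) =
          (CW T').corr z' (show (CW T').H P from nl C f P u)) ?_ ?_ ?_ hz0
      · intro i z hz
        obtain ⟨z', hz', hzz⟩ := hC _ i z hz
        exact ⟨em T'.W ℂ z', fun f u => nl_corr C f hz.1.1 hz'.1 hzz u⟩
      · refine ⟨0, fun f u => ?_⟩
        rw [em_zero, corr_zero, corr_zero]
        exact map_zero (nl C f Q)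
      · rintro x y ⟨x', hx'⟩ ⟨y', hy'⟩
        refine ⟨x' + y', fun f u => ?_⟩
        rw [em_add, corr_add, corr_add, LinearMap.add_apply, LinearMap.add_apply, ← hx', ← hy']
        exact map_add (nl C f Q) _ _
    obtain ⟨z', hz'⟩ := key
    refine ⟨(show (CW T').K from μ) • z', fun f u => ?_⟩
    rw [tmul_eq]
    have h1 : (CW T).corr ((show (CW T).K from μ) • em T.W ℂ z) u =
        (show (CW T).K from μ) • (CW T).corr (em T.W ℂ z) u := by
      rw [corr_smul]
      rfl
    rw [h1, corr_smul, LinearMap.smul_apply, ← hz']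
    exact map_smul (nl C f Q) μ _

end Ev

end Pool.Agent.Y121.AH
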