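import Pool.Agent.Y121.AH.Rlz

/-!
# Classes whose realisations are fixed
-/

open CategoryTheory AlgebraicGeometry TensorProduct

universe u

namespace Pool.Agent.Y121.AH

open Module
open Pool.Agent.H914 Pool.Agent.H914.VarClass Pool.Agent.H914.VarClass.Obj
  Pool.Agent.H914.WeilCohomology
open Pool.Agent.Y133.Half

variable {k : Type u} [Field k] {𝒱 : VarClass k} {ops : CycleOps 𝒱}

section Trace

variable {T : HodgeTheory ops} {X Y : 𝒱.Obj}

/-- There is a Hodge class of degree one. -/
lemma exists_tr_hodge (T : HodgeTheory ops) (X : 𝒱.Obj) [Nontrivial (T.W.H X)] :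
    ∃ l, IsHodge T X X.dim l ∧ T.W.tr X l = 1 := by
  obtain ⟨E, hE⟩ := T.dec.polar X
  have h1 : (1 : T.W.H X) ∈ T.W.gr X (2 * 0) := T.W.one_mem X
  have h2 : IsHodge T X 0 (1 : T.W.H X) := by
    rw [← T.W.cl_fund X]; exact IsHodge.cl X.V.fundCycle_mem
  have h3 : T.W.cl X E ^ (X.dim - 2 * 0 + 1) * (1 : T.W.H X) = 0 := by
    have h4 := ((IsHodge.cl (T := T) hE.1).pow (X.dim - 2 * 0 + 1)).1
    rw [T.W.gr_eq_bot X _ (by omega)] at h4
    rw [(Submodule.mem_bot _).1 h4, zero_mul]
  obtain ⟨r, hr, h4⟩ := hE.2.2 0 (by omega) 1 h1 h2.2 h3 one_ne_zero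
  have h5 : IsHodge T X X.dim (T.W.cl X E ^ (X.dim - 2 * 0) * 1 * 1) := by
    rw [mul_one, mul_one]
    have := (IsHodge.cl (T := T) hE.1).pow (X.dim - 2 * 0)
    rwa [one_mul] at this
  rw [pow_zero, one_mul] at h4
  have hr0 : (r : T.W.K) ≠ 0 := by exact_mod_cast hr.ne'
  refine ⟨(r : T.W.K)⁻¹ • _, h5.smul _, ?_⟩
  rw [map_smul, h4, smul_eq_mul, inv_mul_cancel₀ hr0]

lemma em_tr {W : WeilCohomology.{u, 0} ops} {L : Type} [Field L] [Algebra W.K L] (c : W.H X) :
    (baseW W L).tr X (em W L c) = ex W L (W.tr X c) := by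
  have h : formBase L (W.tr X) ((1 : L) ⊗ₜ[W.K] c) = algebraMap W.K L (W.tr X c) := by
    rw [formBase_tmul, one_mul]
  exact h

lemma tmul_eq {W : WeilCohomology.{u, 0} ops} {L : Type} [Field L] [Algebra W.K L] (l : L)
    (c : W.H X) : (show (baseW W L).H X from (l ⊗ₜ[W.K] c)) =
      (show (baseW W L).K from l) • em W L c := by
  have h : (l ⊗ₜ[W.K] c : L ⊗[W.K] W.H X) = l • ((1 : L) ⊗ₜ[W.K] c) := by
    rw [TensorProduct.smul_tmul', smul_eq_mul, mul_one]
  exact h

lemma pq_ind_nat {p : (CW T).H X → Prop}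
    (h : ∀ (i : ℕ) (a b : ℤ), a + b = i → ∀ x ∈ T.pq X a b, p x)
    (hadd : ∀ a b, p a → p b → p (a + b)) (h0 : p 0) (x : (CW T).H X) : p x := by
  refine tmul_ind (p := p) h0 hadd ?_ x
  intro l c
  refine gr_induction (T.W.isInternal X)
    (p := fun c => p (show (CW T).H X from (l ⊗ₜ[T.W.K] c))) ?_ ?_ c
  · intro i c hc
    rw [tmul_eq]
    have h1 := Submodule.smul_mem _ (show (CW T).K from l) (T.dec.span hc)
    exact Submodule.iSup_induction (fun r : {r : ℤ × ℤ // r.1 + r.2 = i} => T.pq X r.1.1 r.1.2)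
      (motive := p) h1 (fun r x hx => h i _ _ r.2 x hx) h0 hadd
  · intro a b ha hb
    have h1 : (show (CW T).H X from (l ⊗ₜ[T.W.K] (a + b))) =
        (show (CW T).H X from (l ⊗ₜ[T.W.K] a)) + (show (CW T).H X from (l ⊗ₜ[T.W.K] b)) :=
      TensorProduct.tmul_add _ _ _
    rw [h1]
    exact hadd _ _ ha hb

lemma gop_gr' {i : ℕ} {x : (CW T).H X} (hx : x ∈ (CW T).gr X i) :
    gop T X x ∈ (CW T).gr X i := by
  have hx' : x ∈ (T.W.gr X i).baseChange ℂ := hx
  refine base_induction (P := fun x : ℂ ⊗[T.W.K] T.W.H X => gop T X x ∈ (CW T).gr X i)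
    ?_ ?_ ?_ hx'
  · exact (map_zero (gop T X)).symm ▸ Submodule.zero_mem _
  · intro x y hx hy
    exact (map_add (gop T X) x y).symm ▸ Submodule.add_mem _ hx hy
  · intro l a ha
    have h := tmul_eq (W := T.W) (L := ℂ) l a
    have h2 : gop T X (show (CW T).H X from (l ⊗ₜ[T.W.K] a)) ∈ (CW T).gr X i := by
      rw [h, map_smul]
      exact Submodule.smul_mem _ _ (gop_gr ha)
    exact h2

/-- The top degree is one-dimensional. -/
lemma top_eq {W : WeilCohomology.{u, 0} ops} {l : W.H X} (hl : l ∈ W.gr X (2 * X.dim))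
    (hl1 : W.tr X l = 1) {x : W.H X} (hx : x ∈ W.gr X (2 * X.dim)) : x = W.tr X x • l := by
  rw [← sub_eq_zero]
  have h0 : x - W.tr X x • l ∈ W.gr X (2 * X.dim) :=
    Submodule.sub_mem _ hx (Submodule.smul_mem _ _ hl)
  apply W.nondeg
  intro b
  refine gr_induction (W.isInternal X)
    (p := fun b => W.tr X ((x - W.tr X x • l) * b) = 0) ?_ ?_ b
  · intro j b hb
    rcases Nat.eq_zero_or_pos j with rfl | hj
    · rw [W.gr_zero] at hb
      obtain ⟨r, rfl⟩ := Submodule.mem_span_singleton.1 hb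
      rw [mul_smul_comm, mul_one, map_smul, map_sub, map_smul, hl1, smul_eq_mul, smul_eq_mul,
        mul_one, sub_self, mul_zero]
    · have h1 := W.mul_mem h0 hb
      rw [W.gr_eq_bot X _ (by omega)] at h1
      rw [(Submodule.mem_bot _).1 h1, map_zero]
  · intro a b ha hb; rw [mul_add, map_add, ha, hb, add_zero]

lemma tr_gop (x : (CW T).H X) : (CW T).tr X (gop T X x) = (CW T).tr X x := by
  rcases subsingleton_or_nontrivial (T.W.H X) with hs | hn
  · have h1 : ∀ x : (CW T).H X, x = 0 := by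
      intro x
      refine tmul_ind (p := fun x => x = 0) rfl ?_ ?_ x
      · rintro x y rfl rfl; rw [add_zero]
      · intro l a
        rw [tmul_eq, Subsingleton.elim a 0, em_zero, smul_zero]
    rw [h1 x, map_zero]
  · obtain ⟨l, hl, hl1⟩ := exists_tr_hodge T X
    refine gr_induction ((CW T).isInternal X)
      (p := fun x => (CW T).tr X (gop T X x) = (CW T).tr X x) ?_ ?_ x
    · intro i x hx
      by_cases hi : i = 2 * X.dim
      · subst hi
        have h1 : (CW T).tr X (em T.W ℂ l) = 1 := by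
          rw [em_tr, hl1]; exact map_one (algebraMap T.W.K ℂ)
        have h2 := top_eq (W := CW T) (em_gr hl.1) h1 hx
        rw [h2, map_smul, gop_hodge hl]
      · rw [(CW T).tr_eq_zero hx hi, (CW T).tr_eq_zero (gop_gr' hx) hi]
    · intro a b ha hb; rw [map_add, map_add, map_add, ha, hb]

end Trace

section Poly

variable {K V V' : Type*} [Field K] [AddCommGroup V] [Module K V] [AddCommGroup V'] [Module K V']

lemma aeval_comm {g : Module.End K V} {g' : Module.End K V'} {F : V →ₗ[K] V'}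
    (h : ∀ x, g' (F x) = F (g x)) (μ : Polynomial K) (x : V) :
    Polynomial.aeval g' μ (F x) = F (Polynomial.aeval g μ x) := by
  induction μ using Polynomial.induction_on' with
  | add p q hp hq => simp only [map_add, LinearMap.add_apply, hp, hq]
  | monomial n a =>
    rw [Polynomial.aeval_monomial, Polynomial.aeval_monomial]
    have h1 : ∀ n : ℕ, (g' ^ n) (F x) = F ((g ^ n) x) := by
      intro n
      induction n with
      | zero => rfl
      | succ n ih =>
        rw [pow_succ', pow_succ', Module.End.mul_apply, Module.End.mul_apply, ih, h]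
    rw [Module.End.mul_apply, Module.End.mul_apply, h1, Module.algebraMap_end_apply,
      Module.algebraMap_end_apply, map_smul]

lemma aeval_form {g : Module.End K V} {φ : V →ₗ[K] K} {β : K} (h : ∀ x, φ (g x) = β * φ x)
    (μ : Polynomial K) (x : V) : φ (Polynomial.aeval g μ x) = μ.eval β * φ x := by
  induction μ using Polynomial.induction_on' with
  | add p q hp hq => simp only [map_add, LinearMap.add_apply, hp, hq, Polynomial.eval_add, add_mul]
  | monomial n a =>
    rw [Polynomial.aeval_monomial, Polynomial.eval_monomial]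
    have h1 : ∀ n : ℕ, φ ((g ^ n) x) = β ^ n * φ x := by
      intro n
      induction n with
      | zero => simp
      | succ n ih => rw [pow_succ', Module.End.mul_apply, h, ih, pow_succ']; ring
    rw [Module.End.mul_apply, Module.algebraMap_end_apply, map_smul, h1, smul_eq_mul, mul_assoc]

end Poly

section Fix

variable {T T' : HodgeTheory ops} {P Z : 𝒱.Obj} (R : Rlz T.W (CW T')) {S : Sys T.W}

/-- The realisation of the operators of the system. -/
lemma op_comm (hS : ∀ X, ∀ x ∈ S.C X, gop T' X (R.E X x) = R.E X x) {f : T.W.H P →ₗ[T.W.K] T.W.H Z}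
    (hf : f ∈ S.Op P Z) : ∃ F : (CW T').H P →ₗ[(CW T').K] (CW T').H Z,
      (∀ x, F (R.E P x) = R.E Z (f x)) ∧ ∀ y, gop T' Z (F y) = F (gop T' P y) := by
  obtain ⟨c, hc, rfl⟩ := Sys.mem_Op.1 hf
  have hne : R.c ^ P.dim ≠ 0 := pow_ne_zero _ R.ne
  have hne' : R.c ^ Z.dim ≠ 0 := pow_ne_zero _ R.ne
  refine ⟨(R.c ^ P.dim)⁻¹ • (CW T').corr (R.E _ c), fun x => ?_, fun y => ?_⟩
  · rw [LinearMap.smul_apply, corr_apply, corr_apply]
    have h := R.push (snd P Z) (c * T.W.map (fst P Z) x)
    rw [dim_prod, map_mul (R.E (P.prod Z)), R.nat] at h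
    have h2 : R.c ^ Z.dim • (R.c ^ P.dim • R.E Z (T.W.push (snd P Z) (c * T.W.map (fst P Z) x))) =
        R.c ^ Z.dim • ((CW T').push (snd P Z) (R.E _ c * (CW T').map (fst P Z) (R.E P x))) := by
      rw [← h, smul_smul, ← pow_add, Nat.add_comm Z.dim]
    have h3 := smul_right_injective _ hne' h2
    beta_reduce at h3
    rw [← h3, smul_smul, inv_mul_cancel₀ hne, one_smul]
  · rw [LinearMap.smul_apply, LinearMap.smul_apply, corr_apply, corr_apply, map_smul, gop_push,
      gop_mul, gop_map, hS _ c hc]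

/-- Polynomial relations are inherited by the generated classes. -/
lemma gen_rel (hS : ∀ X, ∀ x ∈ S.C X, gop T' X (R.E X x) = R.E X x)
    {μ : Polynomial (CW T').K} (hμ : Polynomial.aeval (gop T' P) μ = 0)
    {M : Submodule T.W.K (T.W.H P)} {x : T.W.H Z} (hx : x ∈ gen S P Z M) :
    Polynomial.aeval (gop T' Z) μ (R.E Z x) = 0 := by
  induction hx using Submodule.span_induction with
  | mem x hx =>
    obtain ⟨f, hf, t, ht, rfl⟩ := hx
    obtain ⟨F, h1, h2⟩ := op_comm R hS hf
    rw [← h1, aeval_comm h2, hμ, LinearMap.zero_apply, map_zero]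
  | zero => rw [map_zero, map_zero]
  | add x y _ _ hx hy => rw [map_add, map_add, hx, hy, add_zero]
  | smul r x _ hx => rw [R.semi, map_smul, hx, smul_zero]

/-- The external powers of a class. -/
noncomputable def xpw (W : WeilCohomology.{u, 0} ops) (v : W.H Z) : ∀ m, W.H (pw Z m)
  | 0 => v
  | m + 1 => (xp W (xpw W v m) v : W.H ((pw Z m).prod Z))

lemma xpw_even {W : WeilCohomology.{u, 0} ops} {v : W.H Z} (hv : v ∈ PH W Z 0) :
    ∀ m, xpw W v m ∈ PH W (pw Z m) 0
  | 0 => hv
  | m + 1 => by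
    have h := PH.mul (PH.map (fst (pw Z m) Z) (xpw_even hv m)) (PH.map (snd (pw Z m) Z) hv)
    exact h

lemma E_xp {X Y : 𝒱.Obj} (a : T.W.H X) (b : T.W.H Y) :
    R.E (X.prod Y) (xp T.W a b) = xp (CW T') (R.E X a) (R.E Y b) := by
  rw [xp, map_mul, R.nat, R.nat, xp]

lemma E_xpw (v : T.W.H Z) : ∀ m, R.E (pw Z m) (xpw T.W v m) = xpw (CW T') (R.E Z v) m
  | 0 => rfl
  | m + 1 => by
    have h := E_xp R (xpw T.W v m) v
    rw [E_xpw v m] at h
    exact h

lemma gop_xpw {u : (CW T').H Z} {β : (CW T').K} (hu : gop T' Z u = β • u) :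
    ∀ m, gop T' (pw Z m) (xpw (CW T') u m) = β ^ (m + 1) • xpw (CW T') u m
  | 0 => by rw [zero_add, pow_one]; exact hu
  | m + 1 => by
    have h : gop T' ((pw Z m).prod Z) (xp (CW T') (xpw (CW T') u m) u) =
        β ^ (m + 2) • xp (CW T') (xpw (CW T') u m) u := by
      rw [xp, gop_mul, gop_map, gop_map, gop_xpw hu m, hu, map_smul, map_smul,
        smul_mul_smul_comm, ← pow_succ]
    exact h

lemma tr_xpw {W : WeilCohomology.{u, 0} ops} {u v : W.H Z} (hv : v ∈ PH W Z 0)
    (hu : u ∈ PH W Z 0) : ∀ m, W.tr (pw Z m) (xpw W v m * xpw W u m) = W.tr Z (v * u) ^ (m + 1)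
  | 0 => by rw [zero_add, pow_one]; rfl
  | m + 1 => by
    have h : W.tr ((pw Z m).prod Z) (xp W (xpw W v m) v * xp W (xpw W u m) u) =
        W.tr Z (v * u) ^ (m + 2) := by
      rw [xp_mul _ _ _ _ hv (xpw_even hu m), zero_mul, pow_zero, one_smul, tr_xp,
        tr_xpw hv hu m, ← pow_succ]
    exact h

/-- Polynomial relations for all external powers force a class to be fixed. -/
lemma fix_of_rel {μ : Polynomial (CW T').K} (hμ : μ ≠ 0) {j : ℕ} {v : T.W.H Z}
    (hv : v ∈ T.W.gr Z (2 * j))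
    (h : ∀ m, Polynomial.aeval (gop T' (pw Z m)) μ (R.E (pw Z m) (xpw T.W v m)) = 0) :
    gop T' Z (R.E Z v) = R.E Z v := by
  have hE : R.E Z v ∈ (CW T').gr Z (2 * j) := R.gr hv
  have hE0 : R.E Z v ∈ PH (CW T') Z 0 := PH.of' (by omega) hE
  rw [← sub_eq_zero]
  apply (CW T').nondeg
  intro y
  refine pq_ind_nat (T := T') (p := fun y => (CW T').tr Z ((gop T' Z (R.E Z v) - R.E Z v) * y) = 0)
    ?_ ?_ ?_ y
  · intro i a b hab y hy
    have hgy := gop_pq hy
    have h1 : (2 : (CW T').K) ^ (a - b) * (CW T').tr Z (gop T' Z (R.E Z v) * y) =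
        (CW T').tr Z (R.E Z v * y) := by
      rw [← smul_eq_mul, ← map_smul, ← mul_smul_comm, ← hgy, ← gop_mul, tr_gop]
    by_cases hab' : a = b
    · subst hab'
      rw [sub_self, zpow_zero, one_mul] at h1
      rw [sub_mul, map_sub, h1, sub_self]
    · have hyi : y ∈ (CW T').gr Z i := T'.dec.le Z hab hy
      have h2 : (CW T').tr Z (R.E Z v * y) = 0 := by
        rcases Nat.even_or_odd' i with ⟨r, hr | hr⟩
        · -- the even case
          by_contra hne
          have hy0 : y ∈ PH (CW T') Z 0 := PH.of' (by omega) hyi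
          have hb : (2 : (CW T').K) ^ (a - b) ≠ 0 := zpow_ne_zero _ two_ne
          have key : ∀ m : ℕ, μ.eval (((2 : (CW T').K) ^ (b - a)) ^ (m + 1)) = 0 := by
            intro m
            have h3 := gop_xpw hgy m
            have h4 : ∀ x, (CW T').tr (pw Z m) (gop T' (pw Z m) x * xpw (CW T') y m) =
                ((2 : (CW T').K) ^ (b - a)) ^ (m + 1) *
                  (CW T').tr (pw Z m) (x * xpw (CW T') y m) := by
              intro x
              have h5 : ((2 : (CW T').K) ^ (a - b)) ^ (m + 1) *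
                  (CW T').tr (pw Z m) (gop T' (pw Z m) x * xpw (CW T') y m) =
                  (CW T').tr (pw Z m) (x * xpw (CW T') y m) := by
                rw [← smul_eq_mul, ← map_smul, ← mul_smul_comm, ← h3, ← gop_mul, tr_gop]
              rw [← h5, ← mul_assoc, ← mul_pow, ← zpow_add₀ two_ne]
              simp
            have h6 := aeval_form (g := gop T' (pw Z m))
              (φ := (CW T').tr (pw Z m) ∘ₗ LinearMap.mulRight (CW T').K (xpw (CW T') y m))
              (β := ((2 : (CW T').K) ^ (b - a)) ^ (m + 1)) h4 μ (R.E (pw Z m) (xpw T.W v m))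
            rw [h m, map_zero, E_xpw] at h6
            have h7 : ((CW T').tr (pw Z m) ∘ₗ
                LinearMap.mulRight (CW T').K (xpw (CW T') y m)) (xpw (CW T') (R.E Z v) m) =
                (CW T').tr Z (R.E Z v * y) ^ (m + 1) := tr_xpw hE0 hy0 m
            rw [h7] at h6
            exact (mul_eq_zero.1 h6.symm).resolve_right (pow_ne_zero _ hne)
          have hinj : Function.Injective fun m : ℕ => ((2 : (CW T').K) ^ (b - a)) ^ (m + 1) := by
            intro m m' hmm
            beta_reduce at hmm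
            rw [← zpow_natCast, ← zpow_natCast, ← zpow_mul, ← zpow_mul] at hmm
            have h8 : (2 : (CW T').K) ^ ((b - a) * ((m + 1 : ℕ) : ℤ) -
                (b - a) * ((m' + 1 : ℕ) : ℤ)) = 1 := by
              rw [zpow_sub₀ two_ne, hmm, div_self (zpow_ne_zero _ two_ne)]
            have h9 := two_zpow_ne h8
            rw [← mul_sub] at h9
            rcases mul_eq_zero.1 h9 with h10 | h10
            · exact absurd (by omega) hab'
            · push_cast at h10; omega
          have hfin : {x : (CW T').K | μ.IsRoot x}.Finite := Polynomial.finite_setOfPred_isRoot hμ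
          have hinf : (Set.range fun m : ℕ => ((2 : (CW T').K) ^ (b - a)) ^ (m + 1)).Infinite :=
            Set.infinite_range_of_injective hinj
          exact hinf (hfin.subset (by rintro _ ⟨m, rfl⟩; exact key m))
        · apply (CW T').tr_eq_zero ((CW T').mul_mem hE hyi)
          omega
      rw [h2] at h1
      have h3 := (mul_eq_zero.1 h1).resolve_left (zpow_ne_zero _ two_ne)
      rw [sub_mul, map_sub, h3, h2, sub_self]
  · intro a b ha hb; rw [mul_add, map_add, ha, hb, add_zero]
  · rw [mul_zero, map_zero]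

end Fix

end Pool.Agent.Y121.AH
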