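import Pool.Agent.Y133.Half.Main2

/-!
# Systems of classes: growth or finite generation
-/

open CategoryTheory AlgebraicGeometry

universe u v

namespace Pool.Agent.Y121.AH

open Module
open Pool.Agent.H914 Pool.Agent.H914.VarClass Pool.Agent.H914.VarClass.Obj
  Pool.Agent.H914.WeilCohomology Pool.Agent.Y133.Half

variable {k : Type u} [Field k] {𝒱 : VarClass k} {ops : CycleOps 𝒱}
  {W : WeilCohomology.{u, v} ops} {X Y Z P Q : 𝒱.Obj}

/-- The operator `a ↦ f_*(z a)` belongs to the system. -/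
lemma op_push (S : Sys W) (f : X ⟶ Y) {z : W.H X} (hz : z ∈ S.C X) :
    (W.push f ∘ₗ LinearMap.mulLeft W.K z) ∈ S.Op X Y := by
  have h1 : W.corr (W.push (Obj.lift (𝟙 X) f) z) = W.push f ∘ₗ LinearMap.mulLeft W.K z := by
    apply LinearMap.ext
    intro a
    rw [corr_apply, ← W.push_mul, ← W.push_comp, ← W.map_comp, Obj.lift_fst, Obj.lift_snd,
      W.map_id]
    rfl
  rw [← h1]
  exact Sys.Op.corr (S.push _ hz)

/-- The pull-back operator belongs to the system. -/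
lemma op_map (S : Sys W) (f : X ⟶ Y) : (W.map f).toLinearMap ∈ S.Op Y X := by
  have h1 : W.corr (W.push (Obj.lift f (𝟙 X)) (1 : W.H X)) = (W.map f).toLinearMap := by
    apply LinearMap.ext
    intro a
    rw [corr_apply, ← W.push_mul, ← W.push_comp, ← W.map_comp, Obj.lift_fst, Obj.lift_snd,
      W.push_id, one_mul]
    rfl
  rw [← h1]
  exact Sys.Op.corr (S.push _ (S.one X))

/-- The classes on `Z` obtained from the space `M` of classes on `P` by the operators of the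
system. -/
def gen (S : Sys W) (P Z : 𝒱.Obj) (M : Submodule W.K (W.H P)) : Submodule W.K (W.H Z) :=
  Submodule.span W.K {x | ∃ f ∈ S.Op P Z, ∃ t ∈ M, f t = x}

lemma mem_gen {S : Sys W} {M : Submodule W.K (W.H P)} {f : W.H P →ₗ[W.K] W.H Z}
    (hf : f ∈ S.Op P Z) {t : W.H P} (ht : t ∈ M) : f t ∈ gen S P Z M :=
  Submodule.subset_span ⟨f, hf, t, ht, rfl⟩

lemma gen_map {S : Sys W} {M : Submodule W.K (W.H P)} {g : W.H Z →ₗ[W.K] W.H Q}
    (hg : g ∈ S.Op Z Q) {x : W.H Z} (hx : x ∈ gen S P Z M) : g x ∈ gen S P Q M := by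
  induction hx using Submodule.span_induction with
  | mem x hx =>
    obtain ⟨f, hf, t, ht, rfl⟩ := hx
    exact mem_gen (Sys.Op.comp hg hf) ht
  | zero => rw [map_zero]; exact Submodule.zero_mem _
  | add x y _ _ hx hy => rw [map_add]; exact Submodule.add_mem _ hx hy
  | smul r x _ hx => rw [map_smul]; exact Submodule.smul_mem _ _ hx

lemma gen_mono {S : Sys W} {M N : Submodule W.K (W.H P)} (h : M ≤ N) :
    gen S P Z M ≤ gen S P Z N :=
  Submodule.span_mono fun _ ⟨f, hf, t, ht, e⟩ => ⟨f, hf, t, h ht, e⟩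

lemma gen_le {S T : Sys W} (hST : ∀ X, S.C X ≤ T.C X) {M : Submodule W.K (W.H P)}
    (h : M ≤ T.C P) : gen S P Z M ≤ T.C Z := by
  refine Submodule.span_le.2 ?_
  rintro _ ⟨f, hf, t, ht, rfl⟩
  exact Sys.Op.apply hST hf (h ht)

/-- The space `M` of classes is stable under the operators of the system. -/
def Stab (S : Sys W) (P : 𝒱.Obj) (M : Submodule W.K (W.H P)) : Prop :=
  ∀ a ∈ S.Op P P, ∀ x ∈ M, a x ∈ M

lemma gen_self {S : Sys W} {M : Submodule W.K (W.H P)} (h : Stab S P M) : gen S P P M ≤ M := by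
  refine Submodule.span_le.2 ?_
  rintro _ ⟨f, hf, t, ht, rfl⟩
  exact h f hf t ht

lemma stab_gen {S : Sys W} {M : Submodule W.K (W.H P)} : Stab S Z (gen S P Z M) :=
  fun _ ha _ hx => gen_map ha hx

/-- `P` is a retract of `Q` by operators of the system. -/
def Retr (S : Sys W) (P Q : 𝒱.Obj) : Prop :=
  ∃ i ∈ S.Op P Q, ∃ r ∈ S.Op Q P, ∀ x, r (i x) = x

lemma gen_lt {S : Sys W} (h : Retr S P Q) {M N : Submodule W.K (W.H P)} (hM : Stab S P M)
    (hlt : M < N) : gen S P Q M < gen S P Q N := by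
  refine lt_of_le_of_ne (gen_mono hlt.le) fun heq => ?_
  obtain ⟨i, hi, r, hr, hri⟩ := h
  apply hlt.not_ge
  intro x hx
  have h1 : i x ∈ gen S P Q M := by rw [heq]; exact mem_gen hi hx
  have h2 := gen_self hM (gen_map hr h1)
  rwa [hri] at h2

lemma retr_fst (S : Sys W) {l : W.H Q} (hl : l ∈ S.C Q) (hl1 : W.tr Q l = 1) :
    Retr S P (P.prod Q) := by
  refine ⟨_, op_map S (fst P Q), _, op_push S (fst P Q) (S.map (snd P Q) hl), fun x => ?_⟩
  have h1 : (W.push (fst P Q) ∘ₗ LinearMap.mulLeft W.K (W.map (snd P Q) l))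
      ((W.map (fst P Q)).toLinearMap x) = W.push (fst P Q) (xp W x l) := by
    change W.push (fst P Q) (W.map (snd P Q) l * W.map (fst P Q) x) = _
    rw [xp, PH.even_comm (PH.map _ (S.even hl))]
  rw [h1, push_fst _ _ (S.even hl), hl1, one_smul]

lemma retr_snd (S : Sys W) {l : W.H P} (hl : l ∈ S.C P) (hl1 : W.tr P l = 1) :
    Retr S Q (P.prod Q) := by
  refine ⟨_, op_map S (snd P Q), _, op_push S (snd P Q) (S.map (fst P Q) hl), fun x => ?_⟩
  change W.push (snd P Q) (W.map (fst P Q) l * W.map (snd P Q) x) = x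
  rw [W.push_snd, hl1, one_smul]

/-- There is a strictly increasing chain of `l + 1` stable spaces of classes of `T` on some power
of `X`. -/
def HasChain (S T : Sys W) (X : 𝒱.Obj) (l : ℕ) : Prop :=
  ∃ (m : ℕ) (P : 𝒱.Obj) (M : ℕ → Submodule W.K (W.H P)), Nonempty (P ≅ pw X m) ∧
    (∀ n, Stab S P (M n)) ∧ (∀ n < l, M n < M (n + 1)) ∧ M l ≤ T.C P

lemma HasChain.parity {S T : Sys W} (hST : ∀ X, S.C X ≤ T.C X) {l : W.H X} (hl : l ∈ S.C X)
    (hl1 : W.tr X l = 1) {n : ℕ} (h : HasChain S T X n) (p : ℕ) :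
    ∃ (m : ℕ) (P : 𝒱.Obj) (M : ℕ → Submodule W.K (W.H P)), m % 2 = p % 2 ∧
      Nonempty (P ≅ pw X m) ∧ (∀ n, Stab S P (M n)) ∧ (∀ j < n, M j < M (j + 1)) ∧
      M n ≤ T.C P := by
  obtain ⟨m, P, M, ⟨θ⟩, hM, hlt, hT⟩ := h
  by_cases hp : m % 2 = p % 2
  · exact ⟨m, P, M, hp, ⟨θ⟩, hM, hlt, hT⟩
  · exact ⟨m + 1, P.prod X, fun j => gen S P (P.prod X) (M j), by omega,
      ⟨prodCongr θ (Iso.refl X)⟩, fun j => stab_gen,
      fun j hj => gen_lt (retr_fst S hl hl1) (hM j) (hlt j hj), gen_le hST hT⟩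

/-- All classes of `T` on the powers of `X` are obtained from the classes on `P` by operators of
`S`. -/
def GenBy (S T : Sys W) (X P : 𝒱.Obj) : Prop :=
  ∀ (m : ℕ) (Z : 𝒱.Obj), Nonempty (Z ≅ pw X m) → T.C Z ≤ gen S P Z (T.C P)

lemma exists_tr_one {S : Sys W} {l : W.H X} (hl : l ∈ S.C X) (hl1 : W.tr X l = 1) {m : ℕ}
    (θ : Z ≅ pw X m) : ∃ z ∈ S.C Z, W.tr Z z = 1 := by
  obtain ⟨z, hz, hz1⟩ := S.exists_lam hl hl1 m
  refine ⟨W.push θ.inv z, S.push _ hz, ?_⟩
  have h := W.tr_push θ.inv z 1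
  rwa [mul_one, map_one, mul_one, hz1] at h

/-- If there are no arbitrarily long chains, the classes of `T` on all powers of `X` are generated
by those on one power. -/
lemma exists_genBy {S T : Sys W} (hST : ∀ X, S.C X ≤ T.C X) {l : W.H X} (hl : l ∈ S.C X)
    (hl1 : W.tr X l = 1) (h : ¬ ∀ n, HasChain S T X n) :
    ∃ (m : ℕ) (P : 𝒱.Obj), Nonempty (P ≅ pw X m) ∧ GenBy S T X P := by
  classical
  push Not at h
  -- the first length without a chain
  have h0 : HasChain S T X 0 := ⟨0, X, fun _ => ⊥, ⟨Iso.refl _⟩, fun n a _ x hx => by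
    rw [(Submodule.mem_bot _).1 hx, map_zero]; exact Submodule.zero_mem _, fun n hn => by omega,
    bot_le⟩
  obtain ⟨n, hn, hmin⟩ : ∃ n, ¬ HasChain S T X n ∧ ∀ j < n, HasChain S T X j :=
    ⟨Nat.find h, Nat.find_spec h, fun j hj => not_not.1 (Nat.find_min h hj)⟩
  obtain ⟨n, rfl⟩ : ∃ n', n = n' + 1 := by
    cases n with
    | zero => exact absurd h0 hn
    | succ n => exact ⟨n, rfl⟩
  obtain ⟨m, P, M, ⟨θ⟩, hM, hlt, hT⟩ := hmin n (Nat.lt_succ_self n)
  refine ⟨m, P, ⟨θ⟩, ?_⟩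
  rintro m' Z ⟨θ'⟩
  by_contra hcon
  apply hn
  obtain ⟨p, hp, hp1⟩ := exists_tr_one hl hl1 θ
  obtain ⟨z, hz, hz1⟩ := exists_tr_one hl hl1 θ'
  set Q := P.prod Z with hQ
  have hθ : Nonempty (Q ≅ pw X (m + m' + 1)) := ⟨prodCongr θ θ' ≪≫ pwAdd X m m'⟩
  refine ⟨m + m' + 1, Q, fun j => if j ≤ n then gen S P Q (M j) else T.C Q, hθ, ?_, ?_, ?_⟩
  · intro j
    by_cases hj : j ≤ n
    · simp only [if_pos hj]; exact stab_gen
    · simp only [if_neg hj]; exact fun a ha x hx => Sys.Op.apply hST ha hx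
  · intro j hj
    by_cases hj' : j < n
    · simp only [if_pos (show j ≤ n by omega), if_pos (show j + 1 ≤ n by omega)]
      exact gen_lt (retr_fst S hz hz1) (hM j) (hlt j hj')
    · obtain rfl : j = n := by omega
      simp only [if_pos le_rfl, if_neg (show ¬ (j + 1 ≤ j) by omega)]
      refine lt_of_le_of_ne (gen_le hST hT) fun heq => hcon ?_
      intro x hx
      obtain ⟨i, hi, r, hr, hri⟩ := retr_snd (Q := Z) S hp hp1
      have h1 : i x ∈ gen S P Q (M j) := by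
        rw [heq]; exact Sys.Op.apply hST hi hx
      have h2 := gen_map hr h1
      rw [hri] at h2
      exact gen_mono hT h2
  · simp only [if_neg (show ¬ (n + 1 ≤ n) by omega)]
    exact le_rfl

/-- **Growth or finite generation.** For systems `S ≤ T` of classes: either the dimension of the
classes of `T` on `X^n` grows faster than the rank of the intersection form on the classes of `S`,
or all classes of `T` on all powers of `X` are obtained from the classes of `T` on one power by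
operators of `S`. -/
theorem growth_or (S T : Sys W) (hST : ∀ X, S.C X ≤ T.C X) (X : 𝒱.Obj) {l : W.H X}
    (hl : l ∈ S.C X) (hl1 : W.tr X l = 1) :
    (∃ (m : ℕ) (P : 𝒱.Obj), Nonempty (P ≅ pw X m) ∧ GenBy S T X P) ∨
      ∀ N : ℕ, ∃ n₀ : ℕ, ∀ n ≥ n₀, N * S.a (pw X n) ≤ finrank W.K (T.C (pw X n)) := by
  by_cases hch : ∀ n, HasChain S T X n
  swap
  · exact Or.inl (exists_genBy hST hl hl1 hch)
  right
  intro N
  have h1 : (1 : W.H X) ≠ 0 := one_ne_zero_of (ne_zero_of_tr hl1)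
  have hX : 0 < finrank W.K (W.H X) := by
    have : Nontrivial (W.H X) := ⟨⟨1, 0, h1⟩⟩
    exact Module.finrank_pos
  have hpos : ∀ n, 0 < S.al X n := by
    intro n
    obtain ⟨m, hm, hm1⟩ := S.exists_lam hl hl1 n
    refine S.a_pos (Sys.xp_mem_C S hm hm) ?_
    rw [tr_xp, hm1, mul_one]
  rcases ratio_dichotomy hpos (S.al_convex X) ((finrank W.K (W.H X) : ℝ) ^ 2) with
    ⟨c, hc, hcB, h⟩ | hB
  · have hN0 : (0 : ℝ) < N + 1 := by positivity
    obtain ⟨n₀, hn₀⟩ := Sys.small_of (T := T) hc hcB h hX (ε := 1 / (N + 1)) (by positivity)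
    refine ⟨n₀, fun n hn => ?_⟩
    have h2 := hn₀ n hn
    have h3 : (N : ℝ) * S.a (pw X n) ≤ finrank W.K (T.C (pw X n)) := by
      have h4 : (0 : ℝ) ≤ finrank W.K (T.C (pw X n)) := Nat.cast_nonneg _
      have h5 : ((N : ℝ) + 1) * S.a (pw X n) ≤ finrank W.K (T.C (pw X n)) := by
        calc ((N : ℝ) + 1) * S.a (pw X n) ≤ ((N : ℝ) + 1) *
              (1 / (N + 1) * finrank W.K (T.C (pw X n))) := mul_le_mul_of_nonneg_left h2 hN0.le
          _ = _ := by field_simp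
      have h6 : (0 : ℝ) ≤ S.a (pw X n) := Nat.cast_nonneg _
      linarith
    exact_mod_cast h3
  obtain ⟨n₀, hn₀⟩ := Sys.lower_parity hST hB hX (N + 1) (fun p => by
    obtain ⟨m', P, M, hm', hθ, hM, hlt, hT⟩ := (hch (N + 1)).parity hST hl hl1 p
    exact ⟨m', P, M, hm', hθ, hM, hlt, hT⟩) one_pos
  refine ⟨n₀, fun n hn => ?_⟩
  have h2 := hn₀ n hn
  have h3 : (((N + 1 : ℕ) : ℝ) - 1) = N := by push_cast; ring
  rw [h3] at h2
  exact_mod_cast h2

end Pool.Agent.Y121.AH
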