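import Pool.Agent.Y121.AH.Abs

/-!
# The operator `2 ^ (p - q)` on the cohomology with complex coefficients
-/

open CategoryTheory AlgebraicGeometry TensorProduct

universe u

namespace Pool.Agent.Y121.AH

open Module
open Pool.Agent.H914 Pool.Agent.H914.VarClass Pool.Agent.H914.VarClass.Obj
  Pool.Agent.H914.WeilCohomology
open Pool.Agent.Y133.Half

section Alg

variable {K V : Type*} [Field K] [AddCommGroup V] [Module K V] {ι : Type} [DecidableEq ι]
  {gr : ι → Submodule K V}

/-- The diagonal operator of a grading. -/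
noncomputable def dia (h : DirectSum.IsInternal gr) (f : ι → K) : Module.End K V :=
  (DirectSum.coeLinearMap gr) ∘ₗ
    (DirectSum.lmap (fun i => (f i • LinearMap.id : gr i →ₗ[K] gr i))) ∘ₗ
      (LinearEquiv.ofBijective (DirectSum.coeLinearMap gr) h).symm.toLinearMap

lemma dia_apply (h : DirectSum.IsInternal gr) (f : ι → K) {i : ι} {a : V} (ha : a ∈ gr i) :
    dia h f a = f i • a := by
  have h1 : (LinearEquiv.ofBijective (DirectSum.coeLinearMap gr) h).symm a =
      DirectSum.lof K ι (fun i => gr i) i ⟨a, ha⟩ := by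
    rw [LinearEquiv.symm_apply_eq]
    simp
  simp only [dia, LinearMap.comp_apply, LinearEquiv.coe_coe]
  rw [h1]
  simp

lemma ind_of_top {ι : Type*} {gr : ι → Submodule K V} (h : ⨆ i, gr i = ⊤) {p : V → Prop}
    (hgr : ∀ i, ∀ a ∈ gr i, p a) (hadd : ∀ a b, p a → p b → p (a + b)) (h0 : p 0) (a : V) :
    p a := by
  have ha : a ∈ ⨆ i, gr i := by rw [h]; trivial
  exact Submodule.iSup_induction gr (motive := p) ha hgr h0 hadd

end Alg

variable {k : Type u} [Field k] {𝒱 : VarClass k} {ops : CycleOps 𝒱} (T : HodgeTheory ops)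
  {X Y : 𝒱.Obj}

/-- The cohomology with complex coefficients. -/
noncomputable abbrev CW : WeilCohomology.{u, 0} ops := baseW T.W ℂ

lemma iSup_top (X : 𝒱.Obj) : (⨆ r : ℤ × ℤ, T.pq X r.1 r.2) = ⊤ := by
  rw [eq_top_iff]
  have key : ∀ c : T.W.H X, em T.W ℂ c ∈ ⨆ r : ℤ × ℤ, T.pq X r.1 r.2 := by
    intro c
    refine gr_induction (T.W.isInternal X)
      (p := fun c => em T.W ℂ c ∈ ⨆ r : ℤ × ℤ, T.pq X r.1 r.2) ?_ ?_ c
    · intro i c hc
      refine (iSup_le fun r => ?_ : (⨆ r : {r : ℤ × ℤ // r.1 + r.2 = i}, T.pq X r.1.1 r.1.2) ≤ _)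
        (T.dec.span hc)
      exact le_iSup (fun r : ℤ × ℤ => T.pq X r.1 r.2) r.1
    · intro a b ha hb
      rw [em_add]
      exact Submodule.add_mem _ ha hb
  intro x _
  have key2 : ∀ x : ℂ ⊗[T.W.K] T.W.H X, (show (CW T).H X from x) ∈
      (⨆ r : ℤ × ℤ, T.pq X r.1 r.2 : Submodule (CW T).K ((CW T).H X)) := by
    intro x
    induction x using TensorProduct.induction_on with
    | zero => exact Submodule.zero_mem _
    | add x y hx hy => exact Submodule.add_mem _ hx hy
    | tmul l c =>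
      have h1 := Submodule.smul_mem (⨆ r : ℤ × ℤ, T.pq X r.1 r.2 :
        Submodule (CW T).K ((CW T).H X)) (show (CW T).K from l) (key c)
      have h2 : (show (CW T).K from l) • em T.W ℂ c = (l ⊗ₜ[T.W.K] c : ℂ ⊗[T.W.K] T.W.H X) := by
        change l • ((1 : ℂ) ⊗ₜ[T.W.K] c) = _
        rw [TensorProduct.smul_tmul', smul_eq_mul, mul_one]
      rw [h2] at h1
      exact h1
  exact key2 x

lemma isInternal (X : 𝒱.Obj) : DirectSum.IsInternal fun r : ℤ × ℤ => T.pq X r.1 r.2 :=
  DirectSum.isInternal_submodule_of_iSupIndep_of_iSup_eq_top (T.dec.indep X) (iSup_top T X)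

lemma pq_ind {p : (CW T).H X → Prop} (h : ∀ a b : ℤ, ∀ x ∈ T.pq X a b, p x)
    (hadd : ∀ a b, p a → p b → p (a + b)) (h0 : p 0) (x : (CW T).H X) : p x :=
  ind_of_top (iSup_top T X) (fun r x hx => h r.1 r.2 x hx) hadd h0 x

lemma pq_ext {V : Type*} [AddCommGroup V] [Module (CW T).K V] {F G : (CW T).H X →ₗ[(CW T).K] V}
    (h : ∀ a b : ℤ, ∀ x ∈ T.pq X a b, F x = G x) : F = G := by
  apply LinearMap.ext
  intro x
  refine pq_ind T (p := fun x => F x = G x) h ?_ ?_ x
  · intro a b ha hb; rw [map_add, map_add, ha, hb]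
  · rw [map_zero, map_zero]

/-- The operator `2 ^ (p - q)`. -/
noncomputable def gop (X : 𝒱.Obj) : Module.End (CW T).K ((CW T).H X) :=
  dia (isInternal T X) fun r => (2 : (CW T).K) ^ (r.1 - r.2)

variable {T}

lemma gop_pq {p q : ℤ} {x : (CW T).H X} (hx : x ∈ T.pq X p q) :
    gop T X x = (2 : (CW T).K) ^ (p - q) • x :=
  dia_apply (isInternal T X) _ (i := (p, q)) hx

lemma two_ne : (2 : (CW T).K) ≠ 0 := two_ne_zero

lemma gop_mul (x y : (CW T).H X) : gop T X (x * y) = gop T X x * gop T X y := by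
  refine pq_ind T (p := fun x => gop T X (x * y) = gop T X x * gop T X y) ?_ ?_ ?_ x
  · intro a b x hx
    refine pq_ind T (p := fun y => gop T X (x * y) = gop T X x * gop T X y) ?_ ?_ ?_ y
    · intro c d y hy
      rw [gop_pq hx, gop_pq hy, gop_pq (T.dec.mul hx hy), smul_mul_smul_comm,
        ← zpow_add₀ two_ne]
      congr 2
      ring
    · intro y z hy hz; rw [mul_add, map_add, hy, hz, map_add, mul_add]
    · rw [mul_zero, map_zero, mul_zero]
  · intro x z hx hz; rw [add_mul, map_add, hx, hz, map_add, add_mul]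
  · rw [zero_mul, map_zero, zero_mul]

lemma gop_map (f : X ⟶ Y) (y : (CW T).H Y) :
    gop T X ((CW T).map f y) = (CW T).map f (gop T Y y) := by
  refine pq_ind T (p := fun y => gop T X ((CW T).map f y) = (CW T).map f (gop T Y y)) ?_ ?_ ?_ y
  · intro a b y hy
    rw [gop_pq hy, gop_pq (T.dec.map f hy), map_smul]
  · intro y z hy hz; rw [map_add, map_add, hy, hz, map_add, map_add]
  · rw [map_zero, map_zero, map_zero, map_zero]

lemma gop_push (f : X ⟶ Y) (x : (CW T).H X) :
    gop T Y ((CW T).push f x) = (CW T).push f (gop T X x) := by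
  refine pq_ind T (p := fun x => gop T Y ((CW T).push f x) = (CW T).push f (gop T X x))
    ?_ ?_ ?_ x
  · intro a b x hx
    rw [gop_pq hx, gop_pq (T.dec.push f hx), map_smul]
    congr 2
    ring
  · intro y z hy hz; rw [map_add, map_add, hy, hz, map_add, map_add]
  · rw [map_zero, map_zero, map_zero, map_zero]

lemma gop_hodge {j : ℕ} {c : T.W.H X} (hc : IsHodge T X j c) :
    gop T X (em T.W ℂ c) = em T.W ℂ c := by
  rw [gop_pq hc.2, sub_self, zpow_zero, one_smul]

lemma gop_gr {i : ℕ} {c : T.W.H X} (hc : c ∈ T.W.gr X i) :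
    gop T X (em T.W ℂ c) ∈ (CW T).gr X i := by
  refine Submodule.iSup_induction (fun r : {r : ℤ × ℤ // r.1 + r.2 = i} => T.pq X r.1.1 r.1.2)
    (motive := fun x => gop T X x ∈ (CW T).gr X i) (T.dec.span hc) ?_ ?_ ?_
  · intro r x hx
    rw [gop_pq hx]
    exact Submodule.smul_mem _ _ (T.dec.le X r.2 hx)
  · rw [map_zero]; exact Submodule.zero_mem _
  · intro x y hx hy; rw [map_add]; exact Submodule.add_mem _ hx hy

lemma two_zpow_ne {a : ℤ} (h : (2 : (CW T).K) ^ a = 1) : a = 0 := by
  have h1 : ((2 : ℂ)) ^ a = 1 := h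
  have h2 : (2 : ℝ) ^ a = 1 := by
    have h3 := congrArg (fun z : ℂ => ‖z‖) h1
    simpa using h3
  exact (zpow_eq_one_iff_right₀ (by norm_num) (by norm_num)).1 h2

/-- A class of even degree fixed by the operator is of type `(j, j)`. -/
lemma pq_of_fix {j : ℕ} {x : (CW T).H X}
    (hx : x ∈ ⨆ r : {r : ℤ × ℤ // r.1 + r.2 = (2 * j : ℕ)}, T.pq X r.1.1 r.1.2)
    (h : gop T X x = x) : x ∈ T.pq X j j := by
  classical
  set N : Module.End (CW T).K ((CW T).H X) := dia (isInternal T X) fun r =>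
    if r.1 = r.2 then 0 else ((2 : (CW T).K) ^ (r.1 - r.2) - 1)⁻¹ with hN
  set E : Module.End (CW T).K ((CW T).H X) := dia (isInternal T X) fun r =>
    if r.1 = r.2 then 1 else 0 with hE
  have h1 : ∀ x, N (gop T X x) - N x + E x = x := by
    intro x
    refine pq_ind T (p := fun x => N (gop T X x) - N x + E x = x) ?_ ?_ ?_ x
    · intro a b x hx
      rw [gop_pq hx, map_smul, hN, hE, dia_apply (isInternal T X) _ (i := (a, b)) hx,
        dia_apply (isInternal T X) _ (i := (a, b)) hx]
      by_cases hab : a = b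
      · simp [hab]
      · simp only [if_neg hab, zero_smul, add_zero]
        have h2 : (2 : (CW T).K) ^ (a - b) - 1 ≠ 0 := by
          rw [sub_ne_zero]
          intro h3
          exact hab (sub_eq_zero.1 (two_zpow_ne h3))
        rw [smul_smul, ← sub_smul, ← sub_one_mul, mul_inv_cancel₀ h2, one_smul]
    · intro a b ha hb
      calc N (gop T X (a + b)) - N (a + b) + E (a + b)
          = (N (gop T X a) - N a + E a) + (N (gop T X b) - N b + E b) := by
            simp only [map_add]; abel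
        _ = a + b := by rw [ha, hb]
    · simp
  have h2 := h1 x
  rw [h, sub_self, zero_add] at h2
  rw [← h2]
  refine Submodule.iSup_induction
    (fun r : {r : ℤ × ℤ // r.1 + r.2 = (2 * j : ℕ)} => T.pq X r.1.1 r.1.2)
    (motive := fun x => E x ∈ T.pq X j j) hx ?_ ?_ ?_
  · rintro ⟨⟨a, b⟩, hr⟩ x hx
    rw [hE, dia_apply (isInternal T X) _ (i := (a, b)) hx]
    by_cases hab : a = b
    · subst hab
      have h3 : a = j := by
        have h4 : a + a = ((2 * j : ℕ) : ℤ) := hr
        push_cast at h4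
        omega
      subst h3
      simpa using hx
    · simp [hab]
  · rw [map_zero]; exact Submodule.zero_mem _
  · intro x y hx hy; rw [map_add]; exact Submodule.add_mem _ hx hy

/-- A rational class of even degree is a Hodge class if it is fixed by the operator. -/
lemma isHodge_of_fix {j : ℕ} {c : T.W.H X} (hc : c ∈ T.W.gr X (2 * j))
    (h : gop T X (em T.W ℂ c) = em T.W ℂ c) : IsHodge T X j c :=
  ⟨hc, pq_of_fix (T.dec.span hc) h⟩

end Pool.Agent.Y121.AH
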