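import Pool.Agent.Y121.AH.Gop
import Pool.Agent.H914R2.PDesc

/-!
# The intersection pairing on the Hodge classes and on the absolutely Hodge classes
-/

open CategoryTheory AlgebraicGeometry TensorProduct

universe u

namespace Pool.Agent.Y121.AH

open Module
open Pool.Agent.H914 Pool.Agent.H914.VarClass Pool.Agent.H914.VarClass.Obj
  Pool.Agent.H914.WeilCohomology
open Pool.Agent.Y133.Half

variable {k : Type u} [Field k] {𝒱 : VarClass k} {ops : CycleOps 𝒱} {X Y : 𝒱.Obj}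

section Base

variable {W : WeilCohomology.{u, 0} ops} {L : Type} [Field L] [Algebra W.K L]

lemma mem_of_em_mem {p : Submodule W.K (W.H X)} {c : W.H X}
    (h : ((1 : L) ⊗ₜ[W.K] c) ∈ p.baseChange L) : c ∈ p := by
  by_contra hc
  obtain ⟨f', hf, hfp⟩ := Submodule.exists_dual_map_eq_bot_of_notMem hc inferInstance
  let f : W.H X →ₗ[W.K] W.K := f'
  have h1 : LinearMap.baseChange L f ((1 : L) ⊗ₜ[W.K] c) = 0 := by
    refine base_induction (P := fun x => LinearMap.baseChange L f x = 0) ?_ ?_ ?_ h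
    · exact map_zero _
    · intro x y hx hy; rw [map_add, hx, hy, add_zero]
    · intro l a ha
      rw [LinearMap.baseChange_tmul]
      have h2 : f' a ∈ p.map f' := Submodule.mem_map_of_mem ha
      rw [hfp, Submodule.mem_bot] at h2
      change l ⊗ₜ[W.K] f' a = 0
      rw [h2, tmul_zero]
  rw [LinearMap.baseChange_tmul] at h1
  exact hf (tmul_injective (K := W.K) (A := W.K) (L := L) _ h1)

/-- Multiplication by a class which is injective in degree `i`. -/
lemma mul_inj_base {i : ℕ} {w : W.H X} (hw : ∀ x ∈ W.gr X i, w * x = 0 → x = 0)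
    {z : (baseW W L).H X} (hz : z ∈ (baseW W L).gr X i) (h : em W L w * z = 0) : z = 0 := by
  have h1 : z ∈ LinearMap.range ((W.gr X i).subtype.baseChange L) := hz
  obtain ⟨z', rfl⟩ := h1
  let g : W.gr X i →ₗ[W.K] W.H X := LinearMap.mulLeft W.K w ∘ₗ (W.gr X i).subtype
  have hg : Function.Injective g := by
    rw [← LinearMap.ker_eq_bot, LinearMap.ker_eq_bot']
    rintro ⟨x, hx⟩ h0
    exact Subtype.ext (hw x hx h0)
  have h2 : g.baseChange L z' = 0 := by
    have h3 : ∀ z' : L ⊗[W.K] W.gr X i, g.baseChange L z' =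
        ((1 : L) ⊗ₜ[W.K] w) * ((W.gr X i).subtype.baseChange L z') := by
      intro z'
      induction z' using TensorProduct.induction_on with
      | zero => rw [map_zero, map_zero, mul_zero]
      | add a b ha hb => rw [map_add, map_add, ha, hb, mul_add]
      | tmul r c =>
        rw [LinearMap.baseChange_tmul, LinearMap.baseChange_tmul,
          Algebra.TensorProduct.tmul_mul_tmul, one_mul]
        rfl
    exact (h3 z').trans h
  have h4 : Function.Injective (g.baseChange L) :=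
    Module.Flat.lTensor_preserves_injective_linearMap (M := L) g hg
  have h5 : z' = 0 := h4 (h2.trans (map_zero _).symm)
  rw [h5]
  exact map_zero _

end Base

variable {T : HodgeTheory ops}

/-- The Lefschetz operators detect Hodge classes. -/
lemma hodge_lift {w : T.W.H X} {m j : ℕ} (hw : IsHodge T X m w)
    (hinj : ∀ x ∈ T.W.gr X (2 * j), w * x = 0 → x = 0) {x : T.W.H X}
    (hx : x ∈ T.W.gr X (2 * j)) {l : ℕ} (h : IsHodge T X l (w * x)) : IsHodge T X j x := by
  refine isHodge_of_fix hx ?_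
  rw [← sub_eq_zero]
  apply mul_inj_base hinj
  · exact Submodule.sub_mem _ (gop_gr hx) (em_gr hx)
  · rw [mul_sub, sub_eq_zero, ← em_mul, ← gop_hodge h, em_mul, gop_mul, gop_hodge hw]

lemma hl_inj {D : X.Cycles} {W : WeilCohomology.{u, 0} ops} (hHL : HardLefschetz W X D) {i : ℕ}
    (hi : i ≤ X.dim) {x : W.H X} (hx : x ∈ W.gr X i)
    (h : W.cl X D ^ (X.dim - i) * x = 0) : x = 0 := by
  apply (hHL i hi).1 x hx
  rw [LinearMap.pow_mulLeft, LinearMap.mulLeft_apply, h]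

lemma hl_surj {D : X.Cycles} {W : WeilCohomology.{u, 0} ops} (hHL : HardLefschetz W X D) {i : ℕ}
    (hi : i ≤ X.dim) {v : W.H X} (hv : v ∈ W.gr X (2 * X.dim - i)) :
    ∃ x ∈ W.gr X i, W.cl X D ^ (X.dim - i) * x = v := by
  obtain ⟨x, hx, h⟩ := (hHL i hi).2 v hv
  rw [LinearMap.pow_mulLeft, LinearMap.mulLeft_apply] at h
  exact ⟨x, hx, h⟩

lemma IsHodge.pow {i : ℕ} {x : T.W.H X} (hx : IsHodge T X i x) (n : ℕ) :
    IsHodge T X (i * n) (x ^ n) := by
  induction n with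
  | zero =>
    rw [pow_zero, mul_zero, ← T.W.cl_fund X]
    exact IsHodge.cl X.V.fundCycle_mem
  | succ n ih => rw [pow_succ, mul_add, mul_one]; exact ih.mul hx

/-- The Lefschetz isomorphisms for the classes with the property `Q`. -/
def Lifts (T : HodgeTheory ops) (Q : ClassPred T.W) : Prop :=
  ∀ (X : 𝒱.Obj) (D : X.Cycles), Polarises T.W T.pq X D → ∀ j, 2 * j ≤ X.dim →
    ∀ v, Q.P X (X.dim - j) v → ∃ x, Q.P X j x ∧ T.W.cl X D ^ (X.dim - 2 * j) * x = v

section Lifts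

variable {Q : ClassPred T.W} (hQ : ∀ {X : 𝒱.Obj} {j : ℕ} {x : T.W.H X}, Q.P X j x → IsHodge T X j x)
  (hlift : Lifts T Q)

lemma q_pow {i : ℕ} {x : T.W.H X} (hx : Q.P X i x) (n : ℕ) : Q.P X (i * n) (x ^ n) := by
  induction n with
  | zero =>
    rw [pow_zero, mul_zero, ← T.W.cl_fund X]
    exact Q.cl X.V.fundCycle_mem
  | succ n ih => rw [pow_succ, mul_add, mul_one]; exact Q.mul ih hx

lemma q_sub {i : ℕ} {x y : T.W.H X} (hx : Q.P X i x) (hy : Q.P X i y) : Q.P X i (x - y) := by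
  rw [sub_eq_add_neg, ← neg_one_smul T.W.K y]
  exact Q.add hx (Q.smul _ hy)

include hlift in
/-- The decomposition of a class. -/
lemma q_decomp {D : X.Cycles} (hD : Polarises T.W T.pq X D) {j : ℕ}
    (hj : 2 * (j + 1) ≤ X.dim) {x : T.W.H X} (hx : Q.P X (j + 1) x) :
    ∃ y, Q.P X j y ∧
      T.W.cl X D ^ (X.dim - 2 * (j + 1) + 1) * (x - T.W.cl X D * y) = 0 := by
  have hw : Q.P X (1 * (X.dim - 2 * (j + 1) + 1)) (T.W.cl X D ^ (X.dim - 2 * (j + 1) + 1)) :=
    q_pow (Q.cl hD.1) _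
  have hv := Q.mul hw hx
  rw [show 1 * (X.dim - 2 * (j + 1) + 1) + (j + 1) = X.dim - j by omega] at hv
  obtain ⟨y, hy, hyv⟩ := hlift X D hD j (by omega) _ hv
  refine ⟨y, hy, ?_⟩
  rw [mul_sub, ← mul_assoc, ← pow_succ, sub_eq_zero, ← hyv]
  congr 2
  omega

/-- The rational number `r` is the value `t` up to the sign `(-1) ^ j`, and it is positive. -/
def Pos (T : HodgeTheory ops) (j : ℕ) (t : T.W.K) : Prop := ∃ r : ℚ, 0 < r ∧ (-1) ^ j * t = (r : T.W.K)

include hQ hlift in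
/-- **The Hodge index theorem.** -/
lemma q_star {D : X.Cycles} (hD : Polarises T.W T.pq X D) (j : ℕ) :
    2 * j ≤ X.dim → ∀ x, Q.P X j x → ∃ x', Q.P X j x' ∧ (x ≠ 0 →
      Pos T j (T.W.tr X (T.W.cl X D ^ (X.dim - 2 * j) * x * x'))) := by
  induction j with
  | zero =>
    intro hj x hx
    refine ⟨x, hx, hD.2.2 0 hj x (hQ hx).1 (hQ hx).2 ?_⟩
    have hw : Q.P X (1 * (X.dim - 2 * 0 + 1)) (T.W.cl X D ^ (X.dim - 2 * 0 + 1)) :=
      q_pow (Q.cl hD.1) _
    have h1 := (hQ (Q.mul hw hx)).1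
    rw [T.W.gr_eq_bot X _ (by omega)] at h1
    exact (Submodule.mem_bot _).1 h1
  | succ j ih =>
    intro hj x hx
    obtain ⟨y, hy, hprim⟩ := q_decomp hlift hD hj hx
    obtain ⟨y', hy', hyy⟩ := ih (by omega) y hy
    set w := T.W.cl X D with hw
    obtain ⟨x₀, hx₀⟩ : ∃ x₀, x₀ = x - w * y := ⟨_, rfl⟩
    rw [← hx₀] at hprim
    have hwH : Q.P X 1 w := Q.cl hD.1
    have hwy : Q.P X (j + 1) (w * y) := by
      have := Q.mul hwH hy; rwa [add_comm] at this
    have hwy' : Q.P X (j + 1) (w * y') := by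
      have := Q.mul hwH hy'; rwa [add_comm] at this
    have hx₀H : Q.P X (j + 1) x₀ := by rw [hx₀]; exact q_sub hx hwy
    refine ⟨x₀ - w * y', q_sub hx₀H hwy', fun hne => ?_⟩
    set m := X.dim - 2 * (j + 1) with hm
    have hwc : ∀ a, w * a = a * w := T.W.even_comm (hQ hwH).1
    have hx₀c : ∀ a, x₀ * a = a * x₀ := T.W.even_comm (hQ hx₀H).1
    have e1 : w ^ m * x * (x₀ - w * y') = w ^ m * x₀ * x₀ - w ^ (m + 2) * y * y' := by
      have h1 : x = x₀ + w * y := by rw [hx₀]; abel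
      have h2 : w ^ m * x₀ * (w * y') = 0 := by
        rw [← mul_assoc, mul_assoc (w ^ m), ← hwc, ← mul_assoc, ← pow_succ, hprim, zero_mul]
      have h3 : w ^ m * (w * y) * x₀ = 0 := by
        rw [← mul_assoc, ← pow_succ, mul_assoc, ← hx₀c, ← mul_assoc, hprim, zero_mul]
      have h4 : w ^ m * (w * y) * (w * y') = w ^ (m + 2) * y * y' := by
        rw [← mul_assoc (w ^ m * (w * y)), ← mul_assoc (w ^ m), mul_assoc (w ^ m * w) y w, ← hwc y,
          ← mul_assoc (w ^ m * w), ← pow_succ, ← pow_succ]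
      have h5 : w ^ m * x * (x₀ - w * y') = w ^ m * (x₀ + w * y) * (x₀ - w * y') := by rw [← h1]
      rw [h5, mul_add, add_mul, mul_sub, mul_sub, h2, h3, h4]
      abel
    have e2 : m + 2 = X.dim - 2 * j := by omega
    have e3 : (-1 : T.W.K) ^ (j + 1) * T.W.tr X (w ^ m * x * (x₀ - w * y')) =
        (-1 : T.W.K) ^ (j + 1) * T.W.tr X (w ^ m * x₀ * x₀) +
        (-1 : T.W.K) ^ j * T.W.tr X (w ^ (X.dim - 2 * j) * y * y') := by
      rw [e1, e2, map_sub, pow_succ]; ring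
    have hA : x₀ ≠ 0 → Pos T (j + 1) (T.W.tr X (w ^ m * x₀ * x₀)) := fun h =>
      hD.2.2 (j + 1) hj x₀ (hQ hx₀H).1 (hQ hx₀H).2 hprim h
    rcases eq_or_ne x₀ 0 with h0 | h0
    · rcases eq_or_ne y 0 with h1 | h1
      · exfalso
        apply hne
        have h2 : x = x₀ + w * y := by rw [hx₀]; abel
        rw [h2, h0, h1, mul_zero, add_zero]
      · obtain ⟨r, hr, h2⟩ := hyy h1
        refine ⟨r, hr, ?_⟩
        rw [e3, h2, h0]
        simp
    · rcases eq_or_ne y 0 with h1 | h1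
      · obtain ⟨r, hr, h2⟩ := hA h0
        refine ⟨r, hr, ?_⟩
        rw [e3, h2, h1]
        simp
      · obtain ⟨r, hr, h2⟩ := hA h0
        obtain ⟨r', hr', h3⟩ := hyy h1
        exact ⟨r + r', add_pos hr hr', by rw [e3, h2, h3, Rat.cast_add]⟩

lemma not_pos_zero {j : ℕ} : ¬ Pos T j 0 := by
  rintro ⟨r, hr, h⟩
  rw [mul_zero] at h
  exact hr.ne' (by exact_mod_cast h.symm)

include hQ hlift in
/-- The intersection pairing is nondegenerate. -/
lemma q_nondeg {j l : ℕ} (hjl : j + l = X.dim) {x : T.W.H X} (hx : Q.P X j x)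
    (h : ∀ y, Q.P X l y → T.W.tr X (x * y) = 0) : x = 0 := by
  obtain ⟨D, hD⟩ := T.dec.polar X
  have hw : ∀ n, Q.P X n (T.W.cl X D ^ n) := fun n => by
    have := q_pow (Q.cl hD.1) n; rwa [one_mul] at this
  by_cases h2j : 2 * j ≤ X.dim
  · by_contra hne
    obtain ⟨x', hx', hp⟩ := q_star hQ hlift hD j h2j x hx
    have h1 := hp hne
    have h2 : Q.P X l (T.W.cl X D ^ (X.dim - 2 * j) * x') := by
      have := Q.mul (hw (X.dim - 2 * j)) hx'
      rwa [show X.dim - 2 * j + j = l by omega] at this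
    have h3 : T.W.cl X D ^ (X.dim - 2 * j) * x * x' =
        x * (T.W.cl X D ^ (X.dim - 2 * j) * x') := by
      rw [T.W.even_comm (hQ (hw _)).1, mul_assoc]
    rw [h3, h _ h2] at h1
    exact not_pos_zero h1
  · have hj' : j = X.dim - l := by omega
    subst hj'
    obtain ⟨x₁, hx₁, rfl⟩ := hlift X D hD l (by omega) _ hx
    obtain ⟨x', hx', hp⟩ := q_star hQ hlift hD l (by omega) x₁ hx₁
    by_cases hne : x₁ = 0
    · rw [hne, mul_zero]
    · have h1 := hp hne
      rw [h _ hx'] at h1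
      exact absurd h1 not_pos_zero

include hQ hlift in
lemma q_nondeg_sys {x : T.W.H X} (hx : x ∈ Q.sys.C X)
    (h : ∀ y ∈ Q.sys.C X, T.W.tr X (x * y) = 0) : x = 0 := by
  have key : ∀ (j l : ℕ), j + l = X.dim → ∀ y ∈ T.W.gr X (2 * l),
      T.W.tr X (x * y) = T.W.tr X (H914.proj (T.W.isInternal X) (2 * j) x * y) := by
    intro j l hjl y hy
    refine gr_induction (T.W.isInternal X) (p := fun x => T.W.tr X (x * y) =
      T.W.tr X (H914.proj (T.W.isInternal X) (2 * j) x * y)) ?_ ?_ x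
    · intro i a ha
      by_cases hi : i = 2 * j
      · subst hi
        rw [proj_same _ ha]
      · rw [proj_ne _ ha hi, zero_mul, map_zero]
        exact T.W.tr_eq_zero (T.W.mul_mem ha hy) (by omega)
    · intro a b ha hb
      rw [add_mul, map_add, ha, hb, map_add, add_mul, map_add]
  have h0 : ∀ j l, j + l = X.dim → H914.proj (T.W.isInternal X) (2 * j) x = 0 := by
    intro j l hjl
    refine q_nondeg hQ hlift hjl (ClassPred.sp_proj hx j) fun y hy => ?_
    rw [← key j l hjl y (hQ hy).1]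
    exact h y (ClassPred.sp_of hy)
  apply T.W.nondeg
  intro b
  refine gr_induction (T.W.isInternal X) (p := fun b => T.W.tr X (x * b) = 0) ?_ ?_ b
  · intro i b hb
    rcases Nat.even_or_odd' i with ⟨l, rfl | rfl⟩
    · by_cases hl' : l ≤ X.dim
      · rw [key (X.dim - l) l (by omega) b hb, h0 (X.dim - l) l (by omega), zero_mul, map_zero]
      · rw [T.W.gr_eq_bot X (2 * l) (by omega)] at hb
        rw [(Submodule.mem_bot _).1 hb, mul_zero, map_zero]
    · exact PH.tr_odd (PH.mul (ClassPred.sp_even hx) (PH.of hb)) (by omega)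
  · intro a b ha hb
    rw [mul_add, map_add, ha, hb, add_zero]

end Lifts

/-- The Hodge classes have the Lefschetz isomorphisms. -/
lemma lifts_hodge (T : HodgeTheory ops) : Lifts T (hodgePred T) := by
  intro X D hD j hj v hv
  have h0 : v ∈ T.W.gr X (2 * X.dim - 2 * j) := by
    have := hv.1
    rwa [show 2 * (X.dim - j) = 2 * X.dim - 2 * j by omega] at this
  obtain ⟨x, hx, hxv⟩ := hl_surj hD.2.1 hj h0
  refine ⟨x, ?_, hxv⟩
  have hw : IsHodge T X (1 * (X.dim - 2 * j)) (T.W.cl X D ^ (X.dim - 2 * j)) :=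
    (IsHodge.cl hD.1).pow _
  exact hodge_lift hw (fun y hy h => hl_inj hD.2.1 hj hy h) hx (l := X.dim - j) (by rwa [hxv])

section Transfer

variable {V V' : WeilCohomology.{u, 0} ops} (C : Comparison V V')

lemma Comparison.pow_cl {E : X.Cycles} (hE : X.IsCyc 1 E) (m : ℕ) :
    C.e X (V.cl X E ^ m) = C.c ^ m • V'.cl X E ^ m := by
  rw [map_pow, C.cyc hE, pow_one, smul_pow]

/-- Injectivity of multiplications is transported by comparison isomorphisms. -/
lemma Comparison.inj {w : V.H X} {w' : V'.H X} {r : V'.K} (hw : C.e X w = r • w') {i : ℕ}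
    (h : ∀ y ∈ V.gr X i, w * y = 0 → y = 0) : ∀ y ∈ V'.gr X i, w' * y = 0 → y = 0 := by
  intro y hy h0
  obtain ⟨z, rfl⟩ := (C.e X).surjective y
  have h1 : C.e X (w * z) = 0 := by rw [map_mul, hw, smul_mul_assoc, h0, smul_zero]
  have h2 : w * z = 0 := (map_eq_zero_iff (C.e X) (C.e X).injective).1 h1
  rw [h z (C.gr.1 hy) h2, map_zero]

end Transfer

lemma em_pow {W : WeilCohomology.{u, 0} ops} {L : Type} [Field L] [Algebra W.K L] (a : W.H X)
    (m : ℕ) : em W L (a ^ m) = em W L a ^ m := by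
  induction m with
  | zero => rw [pow_zero, pow_zero]; rfl
  | succ m ih => rw [pow_succ, pow_succ, em_mul, ih]

lemma smul_mem_cancel {L M : Type*} [Field L] [AddCommGroup M] [Module L M] {S : Submodule L M}
    {c : L} (hc : c ≠ 0) {v : M} (h : c • v ∈ S) : v ∈ S :=
  (Submodule.smul_mem_iff S hc).1 h

/-- The Lefschetz operator of a divisor for a conjugate theory: the class with the given image. -/
lemma exists_lift_aux {T T' : HodgeTheory ops} {L : Type} [Field L] [Algebra T.W.K L]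
    [Algebra T'.W.K L] (C : Comparison (baseW T.W L) (baseW T'.W L)) {E : X.Cycles}
    (hE : X.IsCyc 1 E) {j m : ℕ}
    (hinj : ∀ x ∈ T.W.gr X (2 * j), T.W.cl X E ^ m * x = 0 → x = 0) {x : T.W.H X}
    (hx : x ∈ T.W.gr X (2 * j)) {v' : T'.W.H X} (hv' : IsHodge T' X (m + j) v')
    (hc : C.e X (em T.W L (T.W.cl X E ^ m * x)) = C.c ^ (m + j) • em T'.W L v') :
    (∃ y, IsHodge T' X j y ∧ T'.W.cl X E ^ m * y = v') ∧
      ∀ y, y ∈ T'.W.gr X (2 * j) → T'.W.cl X E ^ m * y = v' →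
        C.e X (em T.W L x) = C.c ^ j • em T'.W L y := by
  have hne : C.c ^ m ≠ 0 := pow_ne_zero _ C.ne
  have hcl : C.e X (em T.W L (T.W.cl X E ^ m)) = C.c ^ m • em T'.W L (T'.W.cl X E ^ m) := by
    rw [em_pow, ← em_cl, C.pow_cl hE, em_cl, ← em_pow]
  -- injectivity
  have h1 : ∀ y ∈ (baseW T.W L).gr X (2 * j), em T.W L (T.W.cl X E ^ m) * y = 0 → y = 0 :=
    fun y hy h => mul_inj_base hinj hy h
  have h2 : ∀ y ∈ (baseW T'.W L).gr X (2 * j), em T'.W L (T'.W.cl X E ^ m) * y = 0 → y = 0 :=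
    C.inj hcl h1
  have h3 : ∀ y ∈ T'.W.gr X (2 * j), T'.W.cl X E ^ m * y = 0 → y = 0 := by
    intro y hy h
    refine em_injective (L := L) (h2 _ (em_gr hy) ?_)
    rw [← em_mul, h, em_zero]
  -- the image of `x`
  have h4 : em T'.W L (T'.W.cl X E ^ m) * C.e X (em T.W L x) = C.c ^ j • em T'.W L v' := by
    have h5 := hc
    rw [em_mul, map_mul, hcl, smul_mul_assoc, pow_add, mul_smul] at h5
    exact smul_right_injective _ hne h5
  have h5 : C.e X (em T.W L x) ∈ (baseW T'.W L).gr X (2 * j) := C.gr.2 (em_gr hx)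
  have hcor : ∀ y, y ∈ T'.W.gr X (2 * j) → T'.W.cl X E ^ m * y = v' →
      C.e X (em T.W L x) = C.c ^ j • em T'.W L y := by
    intro y hy hyv
    rw [← sub_eq_zero]
    apply h2 _ (Submodule.sub_mem _ h5 (Submodule.smul_mem _ _ (em_gr hy)))
    rw [mul_sub, h4, mul_smul_comm, ← em_mul, hyv, sub_self]
  refine ⟨?_, hcor⟩
  -- existence
  have h6 : ∀ z ∈ (baseW T'.W L).gr X (2 * j), em T'.W L (T'.W.cl X E ^ m) * z ∈
      ((T'.W.gr X (2 * j)).map
        (LinearMap.mulLeft T'.W.K (T'.W.cl X E ^ m))).baseChange L := by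
    intro z hz
    have hz' : z ∈ (T'.W.gr X (2 * j)).baseChange L := hz
    refine base_induction (P := fun z : L ⊗[T'.W.K] T'.W.H X =>
      ((1 : L) ⊗ₜ[T'.W.K] (T'.W.cl X E ^ m)) * z ∈
      ((T'.W.gr X (2 * j)).map
        (LinearMap.mulLeft T'.W.K (T'.W.cl X E ^ m))).baseChange L) ?_ ?_ ?_ hz'
    · rw [mul_zero]; exact Submodule.zero_mem _
    · intro x y hx hy; rw [mul_add]; exact Submodule.add_mem _ hx hy
    · intro l y hy
      rw [Algebra.TensorProduct.tmul_mul_tmul, one_mul]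
      exact Submodule.tmul_mem_baseChange_of_mem _ (Submodule.mem_map_of_mem hy)
  have h7 : ((1 : L) ⊗ₜ[T'.W.K] v') ∈
      ((T'.W.gr X (2 * j)).map
        (LinearMap.mulLeft T'.W.K (T'.W.cl X E ^ m))).baseChange L := by
    have h8 := h6 _ h5
    rw [h4] at h8
    exact smul_mem_cancel (L := L) (pow_ne_zero j C.ne) h8
  obtain ⟨y, hy, hyv⟩ := mem_of_em_mem h7
  refine ⟨y, ?_, hyv⟩
  have hw : IsHodge T' X (1 * m) (T'.W.cl X E ^ m) := (IsHodge.cl hE).pow _
  refine hodge_lift hw h3 hy (l := m + j) ?_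
  rw [show T'.W.cl X E ^ m * y = v' from hyv]
  exact hv'

lemma exists_lift (D : Conjugates T) (a : D.J) {E : X.Cycles} (hE : X.IsCyc 1 E) {j m : ℕ}
    (hinj : ∀ x ∈ T.W.gr X (2 * j), T.W.cl X E ^ m * x = 0 → x = 0) {x : T.W.H X}
    (hx : x ∈ T.W.gr X (2 * j)) {v' : (D.T' (D.t a)).W.H X}
    (hv' : IsHodge (D.T' (D.t a)) X (m + j) v')
    (hc : Corresponds D a X (m + j) (T.W.cl X E ^ m * x) v') :
    (∃ y, IsHodge (D.T' (D.t a)) X j y ∧ (D.T' (D.t a)).W.cl X E ^ m * y = v') ∧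
      ∀ y, y ∈ (D.T' (D.t a)).W.gr X (2 * j) → (D.T' (D.t a)).W.cl X E ^ m * y = v' →
        Corresponds D a X j x y :=
  exists_lift_aux (D.cmp a) hE hinj hx hv' hc

/-- The absolutely Hodge classes have the Lefschetz isomorphisms. -/
lemma lifts_abs (D : Conjugates T) : Lifts T (absPred D) := by
  classical
  intro X E hE j hj v hv
  obtain ⟨hv, v', hv', hvv⟩ := hv
  obtain ⟨x, hx, hxv⟩ := lifts_hodge T X E hE j hj v hv
  have hn : X.dim - j = (X.dim - 2 * j) + j := by omega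
  set m := X.dim - 2 * j with hm
  have hinj : ∀ y ∈ T.W.gr X (2 * j), T.W.cl X E ^ m * y = 0 → y = 0 := fun y hy h =>
    hl_inj hE.2.1 hj hy h
  have key := fun a => exists_lift D a hE.1 hinj hx.1 (v' := v' (D.t a))
    (by rw [← hn]; exact hv' _) (by rw [hxv, ← hn]; exact hvv a)
  have hex : ∀ i, ∃ y, IsHodge (D.T' i) X j y ∧
      ((∃ y, IsHodge (D.T' i) X j y ∧ (D.T' i).W.cl X E ^ m * y = v' i) →
        (D.T' i).W.cl X E ^ m * y = v' i) := by
    intro i
    by_cases h : ∃ y, IsHodge (D.T' i) X j y ∧ (D.T' i).W.cl X E ^ m * y = v' i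
    · obtain ⟨y, hy, hyv⟩ := h
      exact ⟨y, hy, fun _ => hyv⟩
    · exact ⟨0, IsHodge.zero, fun h' => absurd h' h⟩
  choose y hy hyv using hex
  refine ⟨x, ⟨hx, y, hy, fun a => ?_⟩, hxv⟩
  exact (key a).2 _ (hy _).1 (hyv _ (key a).1)

/-- The intersection pairing on the absolutely Hodge classes is nondegenerate. -/
lemma abs_num (D : Conjugates T) (X : 𝒱.Obj) : (absSys D).Num X = ⊥ := by
  rw [eq_bot_iff]
  intro x hx
  exact q_nondeg_sys (Q := absPred D) (fun {X j x} (h : IsAbsHodge D X j x) => h.1)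
    (lifts_abs D) hx.1 hx.2

lemma hodge_nondeg {x : T.W.H X} (hx : x ∈ (hodgeSys T).C X)
    (h : ∀ y ∈ (hodgeSys T).C X, T.W.tr X (x * y) = 0) : x = 0 :=
  q_nondeg_sys (Q := hodgePred T) (fun h => h) (lifts_hodge T) hx h

/-- There is an absolutely Hodge class of degree one. -/
lemma exists_tr (D : Conjugates T) (X : 𝒱.Obj) [Nontrivial (T.W.H X)] :
    ∃ l ∈ (absSys D).C X, T.W.tr X l = 1 := by
  obtain ⟨E, hE⟩ := T.dec.polar X
  have h1 : (1 : T.W.H X) ∈ T.W.gr X (2 * 0) := T.W.one_mem X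
  have h2 : IsHodge T X 0 (1 : T.W.H X) := by
    rw [← T.W.cl_fund X]; exact IsHodge.cl X.V.fundCycle_mem
  have h3 : T.W.cl X E ^ (X.dim - 2 * 0 + 1) * (1 : T.W.H X) = 0 := by
    have h4 := ((IsHodge.cl (T := T) hE.1).pow (X.dim - 2 * 0 + 1)).1
    rw [T.W.gr_eq_bot X _ (by omega)] at h4
    rw [(Submodule.mem_bot _).1 h4, zero_mul]
  obtain ⟨r, hr, h4⟩ := hE.2.2 0 (by omega) 1 h1 h2.2 h3 one_ne_zero
  have h5 : T.W.cl X E ^ (X.dim - 2 * 0) * 1 * 1 ∈ (absSys D).C X := by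
    rw [mul_one, mul_one]
    exact ClassPred.sp_of (q_pow (Q := absPred D) ((absPred D).cl hE.1) _)
  rw [pow_zero, one_mul] at h4
  have hr0 : (r : T.W.K) ≠ 0 := by exact_mod_cast hr.ne'
  refine ⟨(r : T.W.K)⁻¹ • _, Submodule.smul_mem _ _ h5, ?_⟩
  rw [map_smul, h4, smul_eq_mul, inv_mul_cancel₀ hr0]

end Pool.Agent.Y121.AH
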