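import Pool.Agent.Y121.AH.Tot

/-!
# The natural maps given by linear forms on the coefficients
-/

open CategoryTheory AlgebraicGeometry TensorProduct Filter Topology

universe u

namespace Pool.Agent.Y121.AH

open Module
open Pool.Agent.H914 Pool.Agent.H914.VarClass Pool.Agent.H914.VarClass.Obj
  Pool.Agent.H914.WeilCohomology
open Pool.Agent.Y133.Half

variable {k : Type u} [Field k] {𝒱 : VarClass k} {ops : CycleOps 𝒱}

section Dual

variable {W : WeilCohomology.{u, 0} ops} {X : 𝒱.Obj}

/-- Every linear form is given by a class. -/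
lemma exists_dual_left (φ : W.H X →ₗ[W.K] W.K) : ∃ w : W.H X, ∀ y, W.tr X (w * y) = φ y := by
  let F : W.H X →ₗ[W.K] (W.H X →ₗ[W.K] W.K) := LinearMap.mk₂ W.K (fun a b => W.tr X (a * b))
    (fun a a' b => by rw [add_mul, map_add])
    (fun r a b => by rw [smul_mul_assoc, map_smul])
    (fun a b b' => by rw [mul_add, map_add])
    (fun r a b => by rw [mul_smul_comm, map_smul])
  have hinj : Function.Injective F := by
    rw [injective_iff_map_eq_zero]
    intro a ha
    exact W.nondeg a fun b => congrArg (fun f : W.H X →ₗ[W.K] W.K => f b) ha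
  have hsurj : Function.Surjective F :=
    (LinearMap.injective_iff_surjective_of_finrank_eq_finrank
      (Subspace.dual_finrank_eq).symm).1 hinj
  obtain ⟨w, hw⟩ := hsurj φ
  exact ⟨w, fun y => congrArg (fun f : W.H X →ₗ[W.K] W.K => f y) hw⟩

/-- A class is of degree `i` if it is orthogonal to the classes of the other degrees. -/
lemma mem_gr_of_tr {i : ℕ} {w : W.H X}
    (h : ∀ s, s + i ≠ 2 * X.dim → ∀ y ∈ W.gr X s, W.tr X (w * y) = 0) : w ∈ W.gr X i := by
  have h1 : w - H914.proj (W.isInternal X) i w = 0 := by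
    apply W.nondeg
    intro y
    refine gr_induction (W.isInternal X)
      (p := fun y => W.tr X ((w - H914.proj (W.isInternal X) i w) * y) = 0) ?_ ?_ y
    · intro s y hy
      rw [sub_mul, map_sub]
      by_cases hs : s + i = 2 * X.dim
      · rw [sub_eq_zero]
        refine gr_induction (W.isInternal X)
          (p := fun w => W.tr X (w * y) = W.tr X (H914.proj (W.isInternal X) i w * y)) ?_ ?_ w
        · intro j w hw
          by_cases hj : j = i
          · subst hj
            rw [proj_same _ hw]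
          · rw [proj_ne _ hw hj, zero_mul, map_zero]
            exact W.tr_eq_zero (W.mul_mem hw hy) (by omega)
        · intro a b ha hb
          rw [add_mul, map_add, map_add, add_mul, map_add, ha, hb]
      · rw [h s hs y hy, W.tr_eq_zero (W.mul_mem (proj_mem _ _ _) hy) (by omega), sub_zero]
    · intro a b ha hb
      rw [mul_add, map_add, ha, hb, add_zero]
  rw [sub_eq_zero.1 h1]
  exact proj_mem _ _ _

variable {T : HodgeTheory ops}

/-- Two classes are equal if their products with all rational classes have the same traces. -/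
lemma cw_ext {w w' : (CW T).H X}
    (h : ∀ y : T.W.H X, (CW T).tr X (w * em T.W ℂ y) = (CW T).tr X (w' * em T.W ℂ y)) :
    w = w' := by
  rw [← sub_eq_zero]
  apply (CW T).nondeg
  intro y
  refine tmul_ind (p := fun y => (CW T).tr X ((w - w') * y) = 0) ?_ ?_ ?_ y
  · rw [mul_zero, map_zero]
  · intro y y' hy hy'; rw [mul_add, map_add, hy, hy', add_zero]
  · intro l y
    rw [tmul_eq, mul_smul_comm, map_smul, sub_mul, map_sub, h, sub_self, smul_zero]

/-- Degrees are detected by rational classes. -/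
lemma cw_mem_gr {i : ℕ} {w : (CW T).H X}
    (h : ∀ s, s + i ≠ 2 * X.dim → ∀ y ∈ T.W.gr X s, (CW T).tr X (w * em T.W ℂ y) = 0) :
    w ∈ (CW T).gr X i := by
  apply mem_gr_of_tr
  intro s hs y hy
  have hy' : y ∈ (T.W.gr X s).baseChange ℂ := hy
  refine base_induction (P := fun y : ℂ ⊗[T.W.K] T.W.H X =>
    (CW T).tr X (w * (show (CW T).H X from y)) = 0) ?_ ?_ ?_ hy'
  · exact (congrArg ((CW T).tr X) (mul_zero w)).trans (map_zero _)
  · intro a b ha hb
    refine (congrArg ((CW T).tr X) (mul_add w (show (CW T).H X from a)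
      (show (CW T).H X from b))).trans ((map_add _ _ _).trans ?_)
    rw [ha, hb, add_zero]
  · intro l y hy
    have h1 : (CW T).tr X (w * (show (CW T).H X from (l ⊗ₜ[T.W.K] y))) = 0 := by
      rw [tmul_eq, mul_smul_comm, map_smul, h s hs y hy, smul_zero]
    exact h1

/-- A basis of the rational cohomology. -/
noncomputable def bas (T : HodgeTheory ops) (X : 𝒱.Obj) :
    Basis (Fin (finrank T.W.K (T.W.H X))) T.W.K (T.W.H X) := Module.finBasis _ _

/-- The dual basis. -/
noncomputable def dbas (T : HodgeTheory ops) (X : 𝒱.Obj)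
    (i : Fin (finrank T.W.K (T.W.H X))) : T.W.H X :=
  (exists_dual_left ((bas T X).coord i)).choose

lemma dbas_spec (i : Fin (finrank T.W.K (T.W.H X))) (y : T.W.H X) :
    T.W.tr X (dbas T X i * y) = (bas T X).coord i y :=
  (exists_dual_left ((bas T X).coord i)).choose_spec y

end Dual

section Nl

variable {T T' : HodgeTheory ops} {J : Type u} {L : J → Type} [∀ a, Field (L a)]
  [∀ a, Algebra T.W.K (L a)] [∀ a, Algebra T'.W.K (L a)]
  (C : ∀ a, Comparison (baseW T.W (L a)) (baseW T'.W (L a))) {X Y P Q Z : 𝒱.Obj}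

/-- The pairings for all comparison isomorphisms. -/
noncomputable def Tot (X : 𝒱.Obj) (x : T.W.H X) (y : T'.W.H X) : ∀ a, L a :=
  fun a => tot (C a) X x y

lemma Tot_smul_right (q : ℚ) (x : T.W.H X) (y : T'.W.H X) :
    Tot C X x ((q : T'.W.K) • y) = (q : T.W.K) • Tot C X x y :=
  funext fun a => tot_smul_right (C a) q x y

lemma Tot_add_right (x : T.W.H X) (y y' : T'.W.H X) :
    Tot C X x (y + y') = Tot C X x y + Tot C X x y' :=
  funext fun a => tot_add_right (C a) x y y'

lemma Tot_zero_right (x : T.W.H X) : Tot C X x 0 = 0 := by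
  have := Tot_smul_right C (0 : ℚ) x (0 : T'.W.H X)
  rwa [Rat.cast_zero, zero_smul, Rat.cast_zero, zero_smul] at this

variable (f : (∀ a, L a) →ₗ[T.W.K] ℂ)

/-- The functional given by `f` and `y`. -/
noncomputable def fl (X : 𝒱.Obj) (y : T'.W.H X) : T.W.H X →ₗ[T.W.K] ℂ where
  toFun x := f (Tot C X x y)
  map_add' x x' := by
    rw [← map_add]
    exact congrArg f (funext fun a => tot_add_left (C a) x x' y)
  map_smul' r x := by
    rw [RingHom.id_apply, ← map_smul]
    exact congrArg f (funext fun a => tot_smul_left (C a) r x y)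

/-- The functional with complex coefficients. -/
noncomputable def flC (X : 𝒱.Obj) (y : T'.W.H X) : ℂ ⊗[T.W.K] T.W.H X →ₗ[ℂ] ℂ :=
  (fl C f X y).liftBaseChange ℂ

lemma flC_tmul (y : T'.W.H X) (l : ℂ) (x : T.W.H X) :
    flC C f X y (l ⊗ₜ[T.W.K] x) = l * f (Tot C X x y) := by
  rw [flC, LinearMap.liftBaseChange_tmul]
  rfl

lemma ct_ind {K V : Type} [Field K] [Algebra K ℂ] [AddCommGroup V] [Module K V]
    {p : ℂ ⊗[K] V → Prop} (h0 : p 0) (hadd : ∀ x y, p x → p y → p (x + y))
    (h : ∀ (l : ℂ) (a : V), p (l ⊗ₜ[K] a)) (x : ℂ ⊗[K] V) : p x :=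
  TensorProduct.induction_on x h0 h hadd

lemma flC_add (y y' : T'.W.H X) (u : ℂ ⊗[T.W.K] T.W.H X) :
    flC C f X (y + y') u = flC C f X y u + flC C f X y' u := by
  refine ct_ind (p := fun u => flC C f X (y + y') u = flC C f X y u + flC C f X y' u) ?_ ?_ ?_ u
  · rw [map_zero, map_zero, map_zero, add_zero]
  · intro u v hu hv
    rw [map_add, map_add, map_add, hu, hv]
    ring
  · intro l x
    rw [flC_tmul, flC_tmul, flC_tmul, Tot_add_right, map_add, mul_add]

lemma flC_smul (q : ℚ) (y : T'.W.H X) (u : ℂ ⊗[T.W.K] T.W.H X) :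
    flC C f X ((q : T'.W.K) • y) u = (q : ℂ) * flC C f X y u := by
  refine ct_ind (p := fun u => flC C f X ((q : T'.W.K) • y) u = (q : ℂ) * flC C f X y u)
    ?_ ?_ ?_ u
  · rw [map_zero, map_zero, mul_zero]
  · intro u v hu hv
    rw [map_add, map_add, hu, hv]
    ring
  · intro l x
    rw [flC_tmul, flC_tmul, Tot_smul_right, map_smul, Algebra.smul_def, map_ratCast]
    ring

lemma flC_zero (u : ℂ ⊗[T.W.K] T.W.H X) : flC C f X 0 u = 0 := by
  have := flC_smul C f (0 : ℚ) (0 : T'.W.H X) u
  rwa [Rat.cast_zero, zero_smul, Rat.cast_zero, zero_mul] at this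

/-- The natural map given by the linear form `f`. -/
noncomputable def nl (X : 𝒱.Obj) : ℂ ⊗[T.W.K] T.W.H X →ₗ[ℂ] ℂ ⊗[T'.W.K] T'.W.H X :=
  ∑ i, (flC C f X (bas T' X i)).smulRight ((1 : ℂ) ⊗ₜ[T'.W.K] dbas T' X i)

lemma nl_eq (u : ℂ ⊗[T.W.K] T.W.H X) : (show (CW T').H X from nl C f X u) =
    ∑ i, (show (CW T').K from flC C f X (bas T' X i) u) • em T'.W ℂ (dbas T' X i) := by
  have h : nl C f X u =
      ∑ i, flC C f X (bas T' X i) u • ((1 : ℂ) ⊗ₜ[T'.W.K] dbas T' X i) := by
    rw [nl, LinearMap.sum_apply]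
    rfl
  exact h

/-- The characterisation of the natural map. -/
lemma tr_nl (u : ℂ ⊗[T.W.K] T.W.H X) (y : T'.W.H X) :
    (CW T').tr X ((show (CW T').H X from nl C f X u) * em T'.W ℂ y) =
      (show (CW T').K from flC C f X y u) := by
  classical
  refine basis_ind (bas T' X) (p := fun y =>
    (CW T').tr X ((show (CW T').H X from nl C f X u) * em T'.W ℂ y) =
      (show (CW T').K from flC C f X y u)) ?_ ?_ ?_ y
  · rw [em_zero, mul_zero, map_zero, flC_zero]
    rfl
  · intro y y' hy hy'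
    rw [em_add, mul_add, map_add, hy, hy', flC_add]
    rfl
  · intro r i
    obtain ⟨q, rfl⟩ := T'.rat r
    rw [em_smul, ex_rat, mul_smul_comm, map_smul, flC_smul, nl_eq, Finset.sum_mul, map_sum,
      Finset.sum_eq_single i]
    · rw [smul_mul_assoc, map_smul, ← em_mul, em_tr, dbas_spec, Basis.coord_apply,
        Basis.repr_self, Finsupp.single_eq_same]
      change (q : ℂ) * (flC C f X (bas T' X i) u * algebraMap T'.W.K ℂ 1) =
        (q : ℂ) * flC C f X (bas T' X i) u
      rw [map_one, mul_one]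
    · intro j _ hj
      rw [smul_mul_assoc, map_smul, ← em_mul, em_tr, dbas_spec, Basis.coord_apply,
        Basis.repr_self, Finsupp.single_eq_of_ne hj]
      change flC C f X (bas T' X j) u * algebraMap T'.W.K ℂ 0 = 0
      rw [map_zero, mul_zero]
    · intro h
      exact absurd (Finset.mem_univ i) h

/-- The degrees. -/
lemma nl_gr {l : ℕ} {x : T.W.H X} (hx : x ∈ T.W.gr X (2 * l)) (μ : ℂ) :
    (show (CW T').H X from nl C f X (μ ⊗ₜ[T.W.K] x)) ∈ (CW T').gr X (2 * l) := by
  apply cw_mem_gr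
  intro s hs y hy
  rw [tr_nl, flC_tmul]
  have h1 : Tot C X x y = 0 := by
    funext a
    rw [Tot, tot_hom (C a) hx]
    change (baseW T'.W (L a)).tr X (nrm (C a) X l x * em T'.W (L a) y) = 0
    exact (baseW T'.W (L a)).tr_eq_zero
      ((baseW T'.W (L a)).mul_mem (nrm_gr (C a) hx) (em_gr hy)) (by omega)
  rw [h1, map_zero, mul_zero]
  rfl

lemma nl_odd {x : T.W.H X} (hx : x ∈ PH T.W X 1) (μ : ℂ) :
    nl C f X (μ ⊗ₜ[T.W.K] x) = 0 := by
  have h : (show (CW T').H X from nl C f X (μ ⊗ₜ[T.W.K] x)) = 0 := by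
    apply cw_ext
    intro y
    have h1 : Tot C X x y = 0 := funext fun a => tot_odd (C a) hx y
    rw [tr_nl, flC_tmul, h1, map_zero, mul_zero, zero_mul, map_zero]
    rfl
  exact h

lemma nl_even (u : ℂ ⊗[T.W.K] T.W.H X) :
    (show (CW T').H X from nl C f X u) ∈ PH (CW T') X 0 := by
  refine ct_ind (p := fun u => (show (CW T').H X from nl C f X u) ∈ PH (CW T') X 0) ?_ ?_ ?_ u
  · exact (map_zero (nl C f X)).symm ▸ Submodule.zero_mem _
  · intro u v hu hv
    exact (map_add (nl C f X) u v).symm ▸ Submodule.add_mem _ hu hv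
  · intro μ x
    refine gr_induction (T.W.isInternal X)
      (p := fun x => (show (CW T').H X from nl C f X (μ ⊗ₜ[T.W.K] x)) ∈ PH (CW T') X 0) ?_ ?_ x
    · intro i x hx
      rcases Nat.even_or_odd' i with ⟨l, hl | hl⟩
      · subst hl
        exact PH.of' (by omega) (nl_gr C f hx μ)
      · subst hl
        have h1 := nl_odd C f (PH.of' (b := 1) (by omega) hx) μ
        exact h1.symm ▸ Submodule.zero_mem _
    · intro x y hx hy
      have h1 : nl C f X (μ ⊗ₜ[T.W.K] (x + y)) =
          nl C f X (μ ⊗ₜ[T.W.K] x) + nl C f X (μ ⊗ₜ[T.W.K] y) := by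
        rw [TensorProduct.tmul_add, map_add]
      exact h1.symm ▸ Submodule.add_mem _ hx hy

/-- The naturality for the operators given by corresponding classes. -/
lemma nl_corr {i : ℕ} {z : T.W.H (P.prod Q)} {z' : T'.W.H (P.prod Q)}
    (hz : z ∈ T.W.gr (P.prod Q) (2 * i)) (hz' : z' ∈ T'.W.gr (P.prod Q) (2 * i))
    (hzz : ∀ a, nrm (C a) (P.prod Q) i z = em T'.W (L a) z') (u : (CW T).H P) :
    (show (CW T').H Q from nl C f Q ((CW T).corr (em T.W ℂ z) u)) =
      (CW T').corr (em T'.W ℂ z') (show (CW T').H P from nl C f P u) := by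
  apply cw_ext
  intro y
  have hu := nl_even C f u
  have h1 : (CW T').tr Q ((CW T').corr (em T'.W ℂ z')
      (show (CW T').H P from nl C f P u) * em T'.W ℂ y) =
      (CW T').tr P ((show (CW T').H P from nl C f P u) *
        em T'.W ℂ (T'.W.push (fst P Q) (z' * T'.W.map (snd P Q) y))) := by
    rw [← em_push, em_mul, ← em_map, PH.even_comm hu, (CW T').tr_push, corr_apply,
      (CW T').tr_push, mul_assoc, mul_assoc, PH.even_comm (PH.map (fst P Q) hu)]
  rw [h1, tr_nl, tr_nl]
  refine tmul_ind (p := fun u => (show (CW T').K from flC C f Q y ((CW T).corr (em T.W ℂ z) u)) =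
    (show (CW T').K from flC C f P (T'.W.push (fst P Q) (z' * T'.W.map (snd P Q) y)) u))
    ?_ ?_ ?_ u
  · have e1 : (CW T).corr (em T.W ℂ z) 0 = 0 := map_zero _
    rw [e1]
    exact (map_zero (flC C f Q y)).trans (map_zero (flC C f P _)).symm
  · intro u v hu hv
    have e1 : (CW T).corr (em T.W ℂ z) (u + v) =
      (CW T).corr (em T.W ℂ z) u + (CW T).corr (em T.W ℂ z) v := map_add _ _ _
    rw [e1]
    refine (map_add (flC C f Q y) _ _).trans ?_
    refine Eq.trans ?_ (map_add (flC C f P _) _ _).symm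
    exact congrArg₂ (fun a b : ℂ => a + b) hu hv
  · intro l x
    have e1 : (CW T).corr (em T.W ℂ z) (show (CW T).H P from (l ⊗ₜ[T.W.K] x)) =
        (show (CW T).H Q from (l ⊗ₜ[T.W.K] T.W.corr z x)) := by
      rw [tmul_eq, tmul_eq, map_smul, em_corr]
    rw [e1]
    refine (flC_tmul C f y l _).trans (Eq.trans ?_ (flC_tmul C f _ l x).symm)
    congr 2
    exact funext fun a => tot_corr (C a) hz hz' (hzz a) x y

end Nl

end Pool.Agent.Y121.AH
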