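import Pool.Agent.Y121.AH.Gop
import Pool.Agent.Y121.AH.HR
import Pool.Agent.Y121.AH.Gen

/-!
# Realisations of the rational cohomology in the complex cohomology of a conjugate theory
-/

open CategoryTheory AlgebraicGeometry TensorProduct

universe u

namespace Pool.Agent.Y121.AH

open Module
open Pool.Agent.H914 Pool.Agent.H914.VarClass Pool.Agent.H914.VarClass.Obj
  Pool.Agent.H914.WeilCohomology
open Pool.Agent.Y133.Half

variable {k : Type u} [Field k] {𝒱 : VarClass k} {ops : CycleOps 𝒱}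

/-- A semilinear realisation of the cohomology theory `W` in the cohomology theory `V`. -/
structure Rlz (W V : WeilCohomology.{u, 0} ops) where
  /-- the homomorphism of the coefficients -/
  s : W.K →+* V.K
  /-- the effect on the Tate twist -/
  c : V.K
  ne : c ≠ 0
  /-- the homomorphisms -/
  E : ∀ X : 𝒱.Obj, W.H X →+* V.H X
  semi : ∀ (X : 𝒱.Obj) (r : W.K) (a : W.H X), E X (r • a) = s r • E X a
  gr : ∀ {X : 𝒱.Obj} {i : ℕ} {a : W.H X}, a ∈ W.gr X i → E X a ∈ V.gr X i
  nat : ∀ {X Y : 𝒱.Obj} (f : X ⟶ Y) (b : W.H Y), E X (W.map f b) = V.map f (E Y b)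
  push : ∀ {X Y : 𝒱.Obj} (f : X ⟶ Y) (a : W.H X),
    c ^ X.dim • E Y (W.push f a) = c ^ Y.dim • V.push f (E X a)

section Psi

variable {W : WeilCohomology.{u, 0} ops} {L M : Type} [Field L] [Field M] [Algebra W.K L]
  [Algebra W.K M] (τ : L →ₐ[W.K] M) {X Y : 𝒱.Obj}

/-- The change of the coefficients. -/
noncomputable def psi (W : WeilCohomology.{u, 0} ops) {L M : Type} [Field L] [Field M]
    [Algebra W.K L] [Algebra W.K M] (τ : L →ₐ[W.K] M) (X : 𝒱.Obj) :
    (baseW W L).H X →+* (baseW W M).H X :=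
  (Algebra.TensorProduct.map τ (AlgHom.id W.K (W.H X)) :
    L ⊗[W.K] W.H X →ₐ[W.K] M ⊗[W.K] W.H X).toRingHom

lemma psi_tmul (l : L) (a : W.H X) :
    psi W τ X (show (baseW W L).H X from (l ⊗ₜ[W.K] a)) =
      (show (baseW W M).H X from (τ l ⊗ₜ[W.K] a)) := by
  change (Algebra.TensorProduct.map τ (AlgHom.id W.K (W.H X)) :
    L ⊗[W.K] W.H X →ₐ[W.K] M ⊗[W.K] W.H X) (l ⊗ₜ[W.K] a) = τ l ⊗ₜ[W.K] a
  rw [Algebra.TensorProduct.map_tmul]
  rfl

lemma psi_em (a : W.H X) : psi W τ X (em W L a) = em W M a := by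
  have h := psi_tmul τ (X := X) (1 : L) a
  rw [map_one] at h
  exact h

lemma tmul_ind {p : (baseW W L).H X → Prop} (h0 : p 0) (hadd : ∀ x y, p x → p y → p (x + y))
    (h : ∀ (l : L) (a : W.H X), p (show (baseW W L).H X from (l ⊗ₜ[W.K] a)))
    (x : (baseW W L).H X) : p x :=
  tmul_induction (K := W.K) (A := W.H X) (L := L) (P := p) h0 hadd h x

/-- The change of the coefficients on the coefficients. -/
def kap (W : WeilCohomology.{u, 0} ops) {L M : Type} [Field L] [Field M]
    [Algebra W.K L] [Algebra W.K M] (τ : L →ₐ[W.K] M) : (baseW W L).K →+* (baseW W M).K :=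
  τ.toRingHom

lemma psi_smul (l : (baseW W L).K) (x : (baseW W L).H X) :
    psi W τ X (l • x) = kap W τ l • psi W τ X x := by
  refine tmul_ind (p := fun x => psi W τ X (l • x) = kap W τ l • psi W τ X x) ?_ ?_ ?_ x
  · rw [smul_zero, map_zero, smul_zero]
  · intro x y hx hy; rw [smul_add, map_add, map_add, smul_add, hx, hy]
  · intro m a
    rw [psi_tmul]
    change psi W τ X (show (baseW W L).H X from ((show L from l) • (m ⊗ₜ[W.K] a : L ⊗[W.K] W.H X)))
      = (show (baseW W M).H X from ((τ l : M) • (τ m ⊗ₜ[W.K] a : M ⊗[W.K] W.H X)))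
    rw [TensorProduct.smul_tmul', TensorProduct.smul_tmul', smul_eq_mul, smul_eq_mul, psi_tmul,
      map_mul]

lemma psi_gr {i : ℕ} {x : (baseW W L).H X} (hx : x ∈ (baseW W L).gr X i) :
    psi W τ X x ∈ (baseW W M).gr X i := by
  have hx' : x ∈ (W.gr X i).baseChange L := hx
  refine base_induction (P := fun x : L ⊗[W.K] W.H X => psi W τ X x ∈ (baseW W M).gr X i)
    ?_ ?_ ?_ hx'
  · exact (map_zero (psi W τ X)).symm ▸ Submodule.zero_mem _
  · intro x y hx hy
    exact (map_add (psi W τ X) x y).symm ▸ Submodule.add_mem _ hx hy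
  · intro l a ha
    have h := psi_tmul τ (X := X) l a
    refine h.symm ▸ ?_
    exact Submodule.tmul_mem_baseChange_of_mem _ ha

lemma psi_map (f : X ⟶ Y) (x : (baseW W L).H Y) :
    psi W τ X ((baseW W L).map f x) = (baseW W M).map f (psi W τ Y x) := by
  refine tmul_ind (p := fun x => psi W τ X ((baseW W L).map f x) =
    (baseW W M).map f (psi W τ Y x)) ?_ ?_ ?_ x
  · simp only [map_zero]
  · intro x y hx hy; simp only [map_add, hx, hy]
  · intro l a
    have h1 : (baseW W L).map f (show (baseW W L).H Y from (l ⊗ₜ[W.K] a)) =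
        (show (baseW W L).H X from (l ⊗ₜ[W.K] W.map f a)) :=
      Algebra.TensorProduct.map_tmul _ _ _ _
    have h2 : (baseW W M).map f (show (baseW W M).H Y from (τ l ⊗ₜ[W.K] a)) =
        (show (baseW W M).H X from (τ l ⊗ₜ[W.K] W.map f a)) :=
      Algebra.TensorProduct.map_tmul _ _ _ _
    rw [h1, psi_tmul, psi_tmul, h2]

lemma psi_push (f : X ⟶ Y) (x : (baseW W L).H X) :
    psi W τ Y ((baseW W L).push f x) = (baseW W M).push f (psi W τ X x) := by
  refine tmul_ind (p := fun x => psi W τ Y ((baseW W L).push f x) =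
    (baseW W M).push f (psi W τ X x)) ?_ ?_ ?_ x
  · simp only [map_zero]
  · intro x y hx hy; simp only [map_add, hx, hy]
  · intro l a
    have h1 : (baseW W L).push f (show (baseW W L).H X from (l ⊗ₜ[W.K] a)) =
        (show (baseW W L).H Y from (l ⊗ₜ[W.K] W.push f a)) :=
      LinearMap.baseChange_tmul _ _ _
    have h2 : (baseW W M).push f (show (baseW W M).H X from (τ l ⊗ₜ[W.K] a)) =
        (show (baseW W M).H Y from (τ l ⊗ₜ[W.K] W.push f a)) :=
      LinearMap.baseChange_tmul _ _ _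
    rw [h1, psi_tmul, psi_tmul, h2]

end Psi

section Real

variable {T T' : HodgeTheory ops} {L : Type} [Field L] [Algebra T.W.K L] [Algebra T'.W.K L]

/-- Ring homomorphisms are linear over the coefficients of a Hodge theory. -/
def ratAlg (T' : HodgeTheory ops) {L : Type} [Field L] [Algebra T'.W.K L] (τ : L →+* ℂ) :
    L →ₐ[T'.W.K] ℂ :=
  { τ with
    commutes' := fun r => by
      obtain ⟨q, rfl⟩ := T'.rat r
      change τ (algebraMap T'.W.K L (q : T'.W.K)) = algebraMap T'.W.K ℂ (q : T'.W.K)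
      rw [map_ratCast, map_ratCast, map_ratCast] }

/-- The realisation given by a comparison isomorphism and an embedding of the coefficients into
the complex numbers. -/
noncomputable def rlz (C : Comparison (baseW T.W L) (baseW T'.W L)) (τ : L →+* ℂ) :
    Rlz T.W (CW T') where
  s := (kap T'.W (ratAlg T' τ)).comp (C.s.toRingHom.comp (algebraMap T.W.K L))
  c := kap T'.W (ratAlg T' τ) C.c
  ne := fun h => C.ne ((map_eq_zero (kap T'.W (ratAlg T' τ))).1 h)
  E X := (psi T'.W (ratAlg T' τ) X).comp ((C.e X).toRingHom.comp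
    (Algebra.TensorProduct.includeRight : T.W.H X →ₐ[T.W.K] L ⊗[T.W.K] T.W.H X).toRingHom)
  semi X r a := by
    change psi T'.W (ratAlg T' τ) X (C.e X (em T.W L (r • a))) = _ •
      psi T'.W (ratAlg T' τ) X (C.e X (em T.W L a))
    rw [em_smul, C.semi, psi_smul]
    rfl
  gr {X i a} ha := by
    change psi T'.W (ratAlg T' τ) X (C.e X (em T.W L a)) ∈ _
    exact psi_gr _ (C.gr.2 (em_gr ha))
  nat {X Y} f b := by
    change psi T'.W (ratAlg T' τ) X (C.e X (em T.W L (T.W.map f b))) = (CW T').map f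
      (psi T'.W (ratAlg T' τ) Y (C.e Y (em T.W L b)))
    rw [← em_map, C.nat, psi_map]
  push {X Y} f a := by
    change kap T'.W (ratAlg T' τ) C.c ^ X.dim •
        psi T'.W (ratAlg T' τ) Y (C.e Y (em T.W L (T.W.push f a))) =
      kap T'.W (ratAlg T' τ) C.c ^ Y.dim • (CW T').push f
        (psi T'.W (ratAlg T' τ) X (C.e X (em T.W L a)))
    have h := congrArg (psi T'.W (ratAlg T' τ) Y) (C.push f (em T.W L a))
    rw [psi_smul, psi_smul, psi_push, em_push, map_pow, map_pow] at h
    exact h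

lemma rlz_apply (C : Comparison (baseW T.W L) (baseW T'.W L)) (τ : L →+* ℂ) (X : 𝒱.Obj)
    (a : T.W.H X) :
    (rlz C τ).E X a = psi T'.W (ratAlg T' τ) X (C.e X (em T.W L a)) := rfl

end Real

end Pool.Agent.Y121.AH
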