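import Pool.Agent.Y121.AH.Fix
import Pool.Agent.W655.PG.Desc

/-!
# Descent of the coefficients for the span of the Hodge classes
-/

open CategoryTheory AlgebraicGeometry TensorProduct

universe u

namespace Pool.Agent.Y121.AH

open Module
open Pool.Agent.H914 Pool.Agent.H914.VarClass Pool.Agent.H914.VarClass.Obj
  Pool.Agent.H914.WeilCohomology
open Pool.Agent.Y133.Half

/-- A linear relation which is satisfied by all conjugates of linearly independent numbers is
trivial. -/
lemma aut_indep {ι : Type*} {e : ι → ℂ} (he : LinearIndependent ℚ e) : ∀ (n : ℕ) (s : Finset ι),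
    s.card = n → ∀ a : ι → ℂ, (∀ g : ℂ ≃+* ℂ, ∑ i ∈ s, a i * g (e i) = 0) → ∀ i ∈ s, a i = 0 := by
  classical
  intro n
  induction n with
  | zero =>
    intro s hs a _ i hi
    rw [Finset.card_eq_zero.1 hs] at hi
    exact absurd hi (Finset.notMem_empty i)
  | succ n ih =>
    intro s hs a ha
    by_contra hcon
    push Not at hcon
    obtain ⟨i₀, hi₀, h0⟩ := hcon
    -- normalise
    set c : ι → ℂ := fun i => (a i₀)⁻¹ * a i with hc
    have hc0 : c i₀ = 1 := inv_mul_cancel₀ h0
    have hcr : ∀ g : ℂ ≃+* ℂ, ∑ i ∈ s, c i * g (e i) = 0 := by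
      intro g
      have h1 : ∑ i ∈ s, c i * g (e i) = (a i₀)⁻¹ * ∑ i ∈ s, a i * g (e i) := by
        rw [Finset.mul_sum]
        exact Finset.sum_congr rfl fun i _ => mul_assoc _ _ _
      rw [h1, ha g, mul_zero]
    have hfix : ∀ (τ : ℂ ≃+* ℂ), ∀ i ∈ s, τ (c i) = c i := by
      intro τ
      have hrel : ∀ g : ℂ ≃+* ℂ, ∑ i ∈ s, (τ (c i) - c i) * g (e i) = 0 := by
        intro g
        have h1 : ∑ i ∈ s, τ (c i) * g (e i) = 0 := by
          have h2 := congrArg τ (hcr (g.trans τ.symm))
          rw [map_sum, map_zero] at h2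
          rw [← h2]
          refine Finset.sum_congr rfl fun i _ => ?_
          have h3 : τ ((g.trans τ.symm) (e i)) = g (e i) := τ.apply_symm_apply _
          rw [map_mul τ (c i), h3]
        simp only [sub_mul, Finset.sum_sub_distrib, h1, hcr g, sub_self]
      have h2 := ih (s.erase i₀) (by rw [Finset.card_erase_of_mem hi₀, hs]; rfl)
        (fun i => τ (c i) - c i) (by
          intro g
          have h3 := hrel g
          rw [← Finset.add_sum_erase s _ hi₀, hc0, map_one, sub_self, zero_mul, zero_add] at h3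
          exact h3)
      intro i hi
      by_cases hii : i = i₀
      · rw [hii, hc0, map_one]
      · exact sub_eq_zero.1 (h2 i (Finset.mem_erase.2 ⟨hii, hi⟩))
    have hrat : ∀ i ∈ s, ∃ q : ℚ, (q : ℂ) = c i := fun i hi =>
      Pool.Agent.W655.PG.rat_of_fixed fun τ => hfix τ i hi
    choose! q hq using hrat
    have h1 := hcr (RingEquiv.refl ℂ)
    have h2 : ∑ i ∈ s, q i • e i = 0 := by
      rw [← h1]
      refine Finset.sum_congr rfl fun i hi => ?_
      rw [← hq i hi, RingEquiv.refl_apply, Algebra.smul_def]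
      rfl
    have h3 := linearIndependent_iff'.1 he s q h2 i₀ hi₀
    have h4 := hq i₀ hi₀
    rw [h3, hc0] at h4
    simp at h4

variable {k : Type u} [Field k] {𝒱 : VarClass k} {ops : CycleOps 𝒱} {T' : HodgeTheory ops}
  {L : Type} [Field L] [Algebra T'.W.K L] {X : 𝒱.Obj}

/-- The images of a basis are linearly independent over the rational numbers. -/
lemma indep_basis {ι : Type*} (b : Basis ι T'.W.K L) (τ : L →+* ℂ) :
    LinearIndependent ℚ fun i => τ (b i) := by
  rw [linearIndependent_iff']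
  intro s g hg i hi
  have h1 : ∑ i ∈ s, ((g i : ℚ) : T'.W.K) • b i = 0 := by
    apply τ.injective
    rw [map_zero, map_sum, ← hg]
    refine Finset.sum_congr rfl fun i _ => ?_
    rw [Algebra.smul_def, map_mul, map_ratCast, map_ratCast, Algebra.smul_def]
    rfl
  have h2 := linearIndependent_iff'.1 b.linearIndependent s _ h1 i hi
  exact_mod_cast h2

/-- **Descent.** If all conjugates of a class are of type `(j, j)`, then it is a linear combination
of Hodge classes. -/
lemma mem_span_hodge (τ : L →+* ℂ) {j : ℕ} {w : (baseW T'.W L).H X}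
    (h : ∀ g : ℂ ≃+* ℂ, psi T'.W (ratAlg T' (g.toRingHom.comp τ)) X w ∈ T'.pq X j j) :
    w ∈ Submodule.span (baseW T'.W L).K {x | ∃ c', IsHodge T' X j c' ∧ em T'.W L c' = x} := by
  classical
  let b := Basis.ofVectorSpace T'.W.K L
  have hw0 : ∃ f : (Basis.ofVectorSpaceIndex T'.W.K L) →₀ T'.W.H X,
      (f.sum fun i m => b i ⊗ₜ[T'.W.K] m) = (w : L ⊗[T'.W.K] T'.W.H X) :=
    TensorProduct.eq_repr_basis_left b w
  obtain ⟨f, hf⟩ := hw0
  have hf' : w = ∑ i ∈ f.support, (show (baseW T'.W L).K from b i) • em T'.W L (f i) := by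
    rw [← hf, Finsupp.sum]
    exact Finset.sum_congr rfl fun i _ => tmul_eq (W := T'.W) (b i) (f i)
  have key : ∀ i ∈ f.support, em T'.W ℂ (f i) ∈ T'.pq X j j := by
    intro i hi
    by_contra hc
    obtain ⟨φ, hφ, hφp⟩ := Submodule.exists_dual_map_eq_bot_of_notMem hc inferInstance
    apply hφ
    refine aut_indep (indep_basis b τ) _ f.support rfl (fun i => φ (em T'.W ℂ (f i))) ?_ i hi
    intro g
    have h1 : φ (psi T'.W (ratAlg T' (g.toRingHom.comp τ)) X w) = 0 := by
      have h2 := Submodule.mem_map_of_mem (f := φ) (h g)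
      rw [hφp, Submodule.mem_bot] at h2
      exact h2
    rw [hf', map_sum, map_sum] at h1
    refine Eq.trans (Finset.sum_congr rfl fun i _ => ?_) h1
    have h3 : φ (psi T'.W (ratAlg T' (g.toRingHom.comp τ)) X
        ((show (baseW T'.W L).K from b i) • em T'.W L (f i))) =
        kap T'.W (ratAlg T' (g.toRingHom.comp τ)) (show (baseW T'.W L).K from b i) *
          φ (em T'.W ℂ (f i)) := by
      rw [psi_smul, psi_em, map_smul, smul_eq_mul]
    refine Eq.trans ?_ h3.symm
    exact mul_comm (φ (em T'.W ℂ (f i)) : ℂ) (g (τ (b i)))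
  have hh : ∀ i ∈ f.support, IsHodge T' X j (f i) := by
    intro i hi
    refine ⟨?_, key i hi⟩
    have h1 : em T'.W ℂ (f i) ∈ (CW T').gr X (2 * j) :=
      T'.dec.le X (by push_cast; ring) (key i hi)
    exact mem_of_em_mem h1
  rw [hf']
  exact Submodule.sum_mem _ fun i hi => Submodule.smul_mem _ _ (Submodule.subset_span ⟨_, hh i hi, rfl⟩)

end Pool.Agent.Y121.AH
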