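import Pool.Agent.Y121.AH.Alg2
import Pool.Agent.Y121.AH.Core

/-!
# The pairing between the classes of a Hodge theory and the rational classes of a conjugate theory
-/

open CategoryTheory AlgebraicGeometry TensorProduct Filter Topology

universe u

namespace Pool.Agent.Y121.AH

open Module
open Pool.Agent.H914 Pool.Agent.H914.VarClass Pool.Agent.H914.VarClass.Obj
  Pool.Agent.H914.WeilCohomology
open Pool.Agent.Y133.Half

variable {k : Type u} [Field k] {𝒱 : VarClass k} {ops : CycleOps 𝒱}

section Tot

variable {T T' : HodgeTheory ops} {L : Type} [Field L] [Algebra T.W.K L] [Algebra T'.W.K L]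
  (C : Comparison (baseW T.W L) (baseW T'.W L)) {X Y P Q Z : 𝒱.Obj}

/-- The pairing of a class with a rational class of the conjugate theory. -/
noncomputable def tot (X : 𝒱.Obj) (x : T.W.H X) (y : T'.W.H X) : L :=
  ∑ j ∈ Finset.range (X.dim + 1), val C X j (H914.proj (T.W.isInternal X) (2 * j) x) y

lemma tot_add_left (x x' : T.W.H X) (y : T'.W.H X) :
    tot C X (x + x') y = tot C X x y + tot C X x' y := by
  rw [tot, tot, tot, ← Finset.sum_add_distrib]
  exact Finset.sum_congr rfl fun j _ => by rw [map_add, val_add_left]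

lemma tot_add_right (x : T.W.H X) (y y' : T'.W.H X) :
    tot C X x (y + y') = tot C X x y + tot C X x y' := by
  rw [tot, tot, tot, ← Finset.sum_add_distrib]
  exact Finset.sum_congr rfl fun j _ => by rw [val_add_right]

lemma tot_smul_left (r : T.W.K) (x : T.W.H X) (y : T'.W.H X) :
    tot C X (r • x) y = r • tot C X x y := by
  rw [tot, tot, Finset.smul_sum]
  exact Finset.sum_congr rfl fun j _ => by rw [map_smul, val_smul_left]

lemma tot_smul_right (q : ℚ) (x : T.W.H X) (y : T'.W.H X) :
    tot C X x ((q : T'.W.K) • y) = (q : T.W.K) • tot C X x y := by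
  rw [tot, tot, Finset.smul_sum]
  exact Finset.sum_congr rfl fun j _ => by rw [val_smul_right]

lemma tot_zero_left (y : T'.W.H X) : tot C X 0 y = 0 := by
  have := tot_smul_left C (0 : T.W.K) (0 : T.W.H X) y
  rwa [zero_smul, zero_smul] at this

lemma tot_hom {j : ℕ} {x : T.W.H X} (hx : x ∈ T.W.gr X (2 * j)) (y : T'.W.H X) :
    tot C X x y = val C X j x y := by
  by_cases hj : j ≤ X.dim
  · rw [tot, Finset.sum_eq_single j]
    · rw [proj_same _ hx]
    · intro i _ hij
      rw [proj_ne _ hx (by omega), val_zero_left]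
    · intro h
      exact absurd (Finset.mem_range.2 (by omega)) h
  · have h1 : x = 0 := by
      rw [T.W.gr_eq_bot X _ (by omega)] at hx
      exact (Submodule.mem_bot _).1 hx
    rw [h1, tot_zero_left, val_zero_left]

lemma tot_odd {x : T.W.H X} (hx : x ∈ PH T.W X 1) (y : T'.W.H X) : tot C X x y = 0 := by
  refine PH.ind (p := fun x => tot C X x y = 0) ?_ ?_ ?_ hx
  · intro i hi x hx
    rw [tot]
    refine Finset.sum_eq_zero fun j _ => ?_
    rw [proj_ne _ hx (by omega), val_zero_left]
  · exact tot_zero_left C y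
  · intro x x' hx hx'
    rw [tot_add_left, hx, hx', add_zero]

/-- The adjunction for the operators given by corresponding classes. -/
lemma tot_corr {i : ℕ} {z : T.W.H (P.prod Q)} {z' : T'.W.H (P.prod Q)}
    (hz : z ∈ T.W.gr (P.prod Q) (2 * i)) (hz' : z' ∈ T'.W.gr (P.prod Q) (2 * i))
    (hzz : nrm C (P.prod Q) i z = em T'.W L z') (x : T.W.H P) (y : T'.W.H Q) :
    tot C Q (T.W.corr z x) y =
      tot C P x (T'.W.push (fst P Q) (z' * T'.W.map (snd P Q) y)) := by
  refine gr_induction (T.W.isInternal P) (p := fun x => tot C Q (T.W.corr z x) y =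
      tot C P x (T'.W.push (fst P Q) (z' * T'.W.map (snd P Q) y))) ?_ ?_ x
  · intro l' x hx
    rcases Nat.even_or_odd' l' with ⟨l, hl | hl⟩
    · subst hl
      have hn : nrm C P l x ∈ (baseW T'.W L).gr P (2 * l) := nrm_gr C hx
      have hn0 : nrm C P l x ∈ PH (baseW T'.W L) P 0 := PH.of' (by omega) hn
      have hmem : em T'.W L z' * (baseW T'.W L).map (fst P Q) (nrm C P l x) ∈
          (baseW T'.W L).gr (P.prod Q) (2 * (i + l)) := by
        rw [mul_add]
        exact (baseW T'.W L).mul_mem (em_gr hz') ((baseW T'.W L).map_mem _ hn)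
      have hR : tot C P x (T'.W.push (fst P Q) (z' * T'.W.map (snd P Q) y)) =
          (baseW T'.W L).tr Q ((baseW T'.W L).push (snd P Q)
            (em T'.W L z' * (baseW T'.W L).map (fst P Q) (nrm C P l x)) * em T'.W L y) := by
        rw [tot_hom C hx]
        change (baseW T'.W L).tr P (nrm C P l x *
          em T'.W L (T'.W.push (fst P Q) (z' * T'.W.map (snd P Q) y))) = _
        rw [← em_push, em_mul, ← em_map, PH.even_comm hn0, (baseW T'.W L).tr_push,
          (baseW T'.W L).tr_push, mul_assoc, mul_assoc,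
          PH.even_comm (PH.map (fst P Q) hn0)]
      rw [hR]
      have hzx : z * T.W.map (fst P Q) x ∈ T.W.gr (P.prod Q) (2 * (i + l)) := by
        rw [mul_add]
        exact T.W.mul_mem hz (T.W.map_mem _ hx)
      by_cases hil : i + l < P.dim
      · have h1 : T.W.corr z x = 0 := by
          rw [corr_apply]
          exact push_neg (j := i + l) _ (by rw [dim_prod]; omega) hzx
        have h2 : (baseW T'.W L).push (snd P Q)
            (em T'.W L z' * (baseW T'.W L).map (fst P Q) (nrm C P l x)) = 0 :=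
          push_neg (j := i + l) _ (by rw [dim_prod]; omega) hmem
        rw [h1, h2, tot_zero_left, zero_mul, map_zero]
        rfl
      · obtain ⟨j, hj⟩ : ∃ j, i + l = j + P.dim := ⟨i + l - P.dim, by omega⟩
        have h2 : T.W.corr z x ∈ T.W.gr Q (2 * j) := by
          rw [corr_apply]
          exact push_gr _ (by rw [dim_prod]; omega) hzx
        rw [tot_hom C h2]
        change (baseW T'.W L).tr Q (nrm C Q j (T.W.corr z x) * em T'.W L y) = _
        rw [corr_apply, nrm_push C (snd P Q) (j := i + l) (l := j)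
          (by rw [dim_prod]; omega), nrm_mul, nrm_map, hzz]
    · subst hl
      have hx1 : x ∈ PH T.W P 1 := PH.of' (by omega) hx
      have h1 : T.W.corr z x ∈ PH T.W Q 1 := by
        rw [corr_apply]
        apply PH.push
        have h2 := PH.mul (PH.of' (b := 0) (by omega) hz) (PH.map (fst P Q) hx1)
        exact h2
      rw [tot_odd C h1, tot_odd C hx1]
  · intro x x' hx hx'
    rw [map_add, tot_add_left, tot_add_left, hx, hx']

/-- The pairing is multiplicative for external products. -/
lemma val_xp {i j : ℕ} (x : T.W.H X) {y : T'.W.H X} (hy : y ∈ PH T'.W X 0) {x' : T.W.H Y}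
    (hx' : x' ∈ T.W.gr Y (2 * j)) (y' : T'.W.H Y) :
    val C (X.prod Y) (i + j) (xp T.W x x') (xp T'.W y y') = val C X i x y * val C Y j x' y' := by
  change (baseW T'.W L).tr (X.prod Y) (nrm C (X.prod Y) (i + j) (xp T.W x x') *
      em T'.W L (xp T'.W y y')) =
      (baseW T'.W L).tr X (nrm C X i x * em T'.W L y) *
        (baseW T'.W L).tr Y (nrm C Y j x' * em T'.W L y')
  rw [nrm_xp, em_xp, xp_mul _ _ _ _ (PH.of' (b := 0) (by omega) (nrm_gr C hx')) (em_PH hy),
    zero_mul, pow_zero, one_smul, tr_xp]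

lemma val_one {y : T'.W.H X} (hy : T'.W.tr X y = 1) : val C X 0 1 y = 1 := by
  change (baseW T'.W L).tr X (nrm C X 0 1 * em T'.W L y) = 1
  have h1 : nrm C X 0 (1 : T.W.H X) = 1 := by
    rw [nrm, pow_zero, inv_one, one_smul]
    exact map_one (C.e X)
  rw [h1, one_mul, em_tr, hy]
  exact map_one (algebraMap T'.W.K L)

lemma val_iso (θ : Q ≅ P) {j : ℕ} {x : T.W.H P} (hx : x ∈ T.W.gr P (2 * j)) (y : T'.W.H P) :
    val C Q j (T.W.map θ.hom x) (T'.W.push θ.inv y) = val C P j x y := by
  change (baseW T'.W L).tr Q (nrm C Q j (T.W.map θ.hom x) * em T'.W L (T'.W.push θ.inv y)) =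
    (baseW T'.W L).tr P (nrm C P j x * em T'.W L y)
  have h0 : nrm C P j x ∈ PH (baseW T'.W L) P 0 := PH.of' (by omega) (nrm_gr C hx)
  rw [nrm_map, ← em_push, PH.even_comm (PH.map _ h0), (baseW T'.W L).tr_push,
    ← (baseW T'.W L).map_comp, θ.inv_hom_id, (baseW T'.W L).map_id, PH.even_comm h0]

end Tot

end Pool.Agent.Y121.AH
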