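import Pool.Agent.Y121.AH.Span

/-!
# The zero-one law for the absolutely Hodge classes
-/

open CategoryTheory AlgebraicGeometry TensorProduct Filter Topology

universe u

namespace Pool.Agent.Y121.AH

open Module
open Pool.Agent.H914 Pool.Agent.H914.VarClass Pool.Agent.H914.VarClass.Obj
  Pool.Agent.H914.WeilCohomology
open Pool.Agent.Y133.Half

variable {k : Type u} [Field k] {𝒱 : VarClass k} {ops : CycleOps 𝒱} {T T' : HodgeTheory ops}
  {X P Z : 𝒱.Obj}

lemma gr_le_iSup {i : ℕ} {x : (CW T).H X} (hx : x ∈ (CW T).gr X i) :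
    x ∈ ⨆ r : {r : ℤ × ℤ // r.1 + r.2 = i}, T.pq X r.1.1 r.1.2 := by
  have hx' : x ∈ (T.W.gr X i).baseChange ℂ := hx
  refine base_induction (P := fun x : ℂ ⊗[T.W.K] T.W.H X => (show (CW T).H X from x) ∈
    (⨆ r : {r : ℤ × ℤ // r.1 + r.2 = i}, T.pq X r.1.1 r.1.2 :
      Submodule (CW T).K ((CW T).H X))) ?_ ?_ ?_ hx'
  · exact Submodule.zero_mem _
  · intro x y hx hy
    exact Submodule.add_mem _ hx hy
  · intro l a ha
    have h := tmul_eq (W := T.W) (L := ℂ) l a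
    have h2 := Submodule.smul_mem _ (show (CW T).K from l) (T.dec.span ha)
    rw [← h] at h2
    exact h2

/-- A realised class of even degree fixed by the operator is of type `(j, j)`. -/
lemma pq_of_fix' {j : ℕ} {x : (CW T).H X} (hx : x ∈ (CW T).gr X (2 * j))
    (h : gop T X x = x) : x ∈ T.pq X j j :=
  pq_of_fix (gr_le_iSup hx) h

/-- The absolutely Hodge classes are fixed by the operator. -/
lemma abs_fix (D : Conjugates T) (a : D.J) (τ : D.L a →+* ℂ) (X : 𝒱.Obj) {x : T.W.H X}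
    (hx : x ∈ (absSys D).C X) :
    gop (D.T' (D.t a)) X ((rlz (D.cmp a) τ).E X x) = (rlz (D.cmp a) τ).E X x := by
  have hx' : x ∈ (absPred D).sp X := hx
  refine ClassPred.sp_ind (Q := absPred D)
    (q := fun x => gop (D.T' (D.t a)) X ((rlz (D.cmp a) τ).E X x) = (rlz (D.cmp a) τ).E X x)
    ?_ ?_ ?_ hx'
  · rintro j x ⟨-, x', hx', hxx⟩
    have h1 : (D.cmp a).e X (em T.W (D.L a) x) =
      (D.cmp a).c ^ j • em (D.T' (D.t a)).W (D.L a) (x' (D.t a)) := hxx a
    rw [rlz_apply, h1, psi_smul, psi_em, map_smul, gop_hodge (hx' _)]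
  · rw [map_zero, map_zero]
  · intro x y hx hy
    rw [map_add, map_add, hx, hy]

/-- The powers of a power. -/
lemma pw_pw (X : 𝒱.Obj) (n : ℕ) : ∀ m, ∃ r, Nonempty (pw (pw X n) m ≅ pw X r)
  | 0 => ⟨n, ⟨Iso.refl _⟩⟩
  | m + 1 => by
    obtain ⟨r, ⟨θ⟩⟩ := pw_pw X n m
    exact ⟨r + n + 1, ⟨prodCongr θ (Iso.refl _) ≪≫ pwAdd X r n⟩⟩

lemma xpw_mem (S : Sys T.W) {v : T.W.H Z} (hv : v ∈ S.C Z) :
    ∀ m, xpw T.W v m ∈ S.C (pw Z m)
  | 0 => hv
  | m + 1 => by
    have h := Sys.xp_mem_C S (xpw_mem S hv m) hv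
    exact h

/-- If the Hodge classes are generated by those on one power under the absolutely Hodge
correspondences, they are mapped into the span of the Hodge classes of the conjugates. -/
theorem span_of_genBy (D : Conjugates T) (h : GenBy (absSys D) (hodgeSys T) X P) (a : D.J)
    (n j : ℕ) : SpanPreserved D a (pw X n) j := by
  intro c hc
  obtain ⟨τ⟩ := D.emb a
  refine mem_span_hodge τ fun g => ?_
  set R := rlz (D.cmp a) (g.toRingHom.comp τ) with hR
  have hc0 : c ∈ (hodgeSys T).C (pw X n) := ClassPred.sp_of (Q := hodgePred T) hc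
  have h1 : gop (D.T' (D.t a)) (pw X n) (R.E (pw X n) c) = R.E (pw X n) c := by
    refine fix_of_rel R (μ := (gop (D.T' (D.t a)) P).charpoly)
      (LinearMap.charpoly_monic _).ne_zero hc.1 fun m => ?_
    obtain ⟨r, hr⟩ := pw_pw X n m
    exact gen_rel R (fun X x hx => abs_fix D a _ X hx) (LinearMap.aeval_self_charpoly _)
      (h r _ hr (xpw_mem _ hc0 m))
  exact pq_of_fix' (R.gr hc.1) h1

lemma absDim_eq_a (D : Conjugates T) (X : 𝒱.Obj) : absDim D X = (absSys D).a X := by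
  have h1 := (absSys D).a_add_num X
  rw [abs_num, finrank_bot, add_zero] at h1
  rw [absDim_eq, h1]

lemma tendsto_zero_of (D : Conjugates T) (X : 𝒱.Obj)
    (h : ∀ N : ℕ, ∃ n₀ : ℕ, ∀ n ≥ n₀, N * (absSys D).a (pw X n) ≤
      finrank T.W.K ((hodgeSys T).C (pw X n))) :
    Tendsto (fun n => (absDim D (pw X n) : ℝ) / hodgeDim T (pw X n)) atTop (𝓝 0) := by
  rw [Metric.tendsto_atTop]
  intro ε hε
  obtain ⟨N, hN⟩ := exists_nat_gt (1 / ε)
  obtain ⟨n₀, hn₀⟩ := h N
  refine ⟨n₀, fun n hn => ?_⟩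
  have h1 := hn₀ n hn
  rw [← absDim_eq_a, ← hodgeDim_eq] at h1
  have h2 : (0 : ℝ) ≤ (absDim D (pw X n) : ℝ) / hodgeDim T (pw X n) := by positivity
  rw [Real.dist_eq, sub_zero, abs_of_nonneg h2]
  rcases Nat.eq_zero_or_pos (hodgeDim T (pw X n)) with h3 | h3
  · rw [h3, Nat.cast_zero, div_zero]; exact hε
  · have h4 : (0 : ℝ) < hodgeDim T (pw X n) := by exact_mod_cast h3
    rw [div_lt_iff₀ h4]
    have h5 : (N : ℝ) * absDim D (pw X n) ≤ hodgeDim T (pw X n) := by exact_mod_cast h1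
    have h6 : 1 < ε * N := by
      rw [div_lt_iff₀ hε] at hN
      linarith
    have h7 : (0 : ℝ) ≤ absDim D (pw X n) := Nat.cast_nonneg _
    rcases h7.eq_or_lt with h8 | h8
    · rw [← h8]; positivity
    · nlinarith [mul_lt_mul_of_pos_right h6 h8, mul_le_mul_of_nonneg_left h5 hε.le]

end Pool.Agent.Y121.AH
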